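import Mathlib

/-!
# Decorrelation on the torus

`μ` is the probability Haar measure on the torus `ι → ℝ/ℤ`.
For continuous `f`, `g` and `a ≠ b`, `∫ f((J+a)x) g((J+b)x) dx → ∫ f ∫ g` as `J → ∞`.
-/

set_option autoImplicit false

open MeasureTheory Filter Topology AddCircle

namespace Pool.Agent.Q203.TR

noncomputable section

/-- the Haar probability measure on the circle -/
abbrev hc : Measure UnitAddCircle := haarAddCircle

instance : Measure.IsAddHaarMeasure hc := inferInstance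

/-- the Haar probability measure on the torus -/
abbrev mu (ι : Type) [Fintype ι] : Measure (ι → UnitAddCircle) := Measure.pi fun _ => hc

section

variable {ι : Type} [Fintype ι]

instance : IsProbabilityMeasure (mu ι) := inferInstance

instance : (mu ι).IsAddLeftInvariant := inferInstance

theorem integ {E : Type*} [NormedAddCommGroup E] {f : (ι → UnitAddCircle) → E}
    (hf : Continuous f) : Integrable f (mu ι) :=
  hf.integrable_of_hasCompactSupport (HasCompactSupport.of_compactSpace f)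

theorem integc {E : Type*} [NormedAddCommGroup E] {f : UnitAddCircle → E}
    (hf : Continuous f) : Integrable f hc :=
  hf.integrable_of_hasCompactSupport (HasCompactSupport.of_compactSpace f)

theorem shift {E : Type*} [NormedAddCommGroup E] [NormedSpace ℝ E]
    (f : (ι → UnitAddCircle) → E) (v : ι → UnitAddCircle) :
    ∫ x, f (x + v) ∂(mu ι) = ∫ x, f x ∂(mu ι) :=
  integral_add_right_eq_self f v

theorem shiftc {E : Type*} [NormedAddCommGroup E] [NormedSpace ℝ E]
    (f : UnitAddCircle → E) (v : UnitAddCircle) :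
    ∫ x, f (x + v) ∂hc = ∫ x, f x ∂hc :=
  integral_add_right_eq_self f v

/-- density -/
theorem tend_of_dense {V : Type*} [NormedAddCommGroup V] [NormedSpace ℂ V] (Φ : ℕ → V →ₗ[ℂ] ℂ)
    (K : ℝ) (hK0 : 0 ≤ K) (hK : ∀ J f, ‖Φ J f‖ ≤ K * ‖f‖) (s : Set V)
    (hs : (Submodule.span ℂ s).topologicalClosure = ⊤)
    (h : ∀ f ∈ s, Tendsto (fun J => Φ J f) atTop (𝓝 0)) (f : V) :
    Tendsto (fun J => Φ J f) atTop (𝓝 0) := by
  have h1 : ∀ f ∈ Submodule.span ℂ s, Tendsto (fun J => Φ J f) atTop (𝓝 0) := by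
    intro f hf
    induction hf using Submodule.span_induction with
    | mem x hx => exact h x hx
    | zero => simp
    | add x y _ _ hx hy =>
      have := hx.add hy
      simpa using this
    | smul a x _ hx =>
      have := hx.const_mul a
      simpa using this
  rw [Metric.tendsto_atTop]
  intro ε hε
  have hf : f ∈ closure (Submodule.span ℂ s : Set V) := by
    have : f ∈ (Submodule.span ℂ s).topologicalClosure := by rw [hs]; trivial
    exact this
  obtain ⟨g, hg, hfg⟩ := Metric.mem_closure_iff.1 hf (ε / (2 * (K + 1))) (by positivity)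
  obtain ⟨N, hN⟩ := (Metric.tendsto_atTop.1 (h1 g hg)) (ε / 2) (by positivity)
  refine ⟨N, fun n hn => ?_⟩
  have h2 := hN n hn
  rw [dist_zero_right] at h2 ⊢
  have h3 : Φ n f = Φ n g + Φ n (f - g) := by rw [← map_add]; simp
  rw [h3]
  refine (norm_add_le _ _).trans_lt ?_
  have h4 := hK n (f - g)
  rw [dist_eq_norm] at hfg
  have h5 : K * ‖f - g‖ ≤ K * (ε / (2 * (K + 1))) := mul_le_mul_of_nonneg_left hfg.le hK0
  have h6 : K * (ε / (2 * (K + 1))) ≤ ε / 2 := by
    rw [mul_div_assoc', div_le_div_iff₀ (by positivity) (by positivity)]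
    nlinarith
  linarith

open UnitAddTorus

theorem mF_nsmul (m : ι → ℤ) (k : ℕ) (x : ι → UnitAddCircle) :
    mFourier m (k • x) = mFourier ((k : ℤ) • m) x := by
  unfold mFourier
  simp only [ContinuousMap.coe_mk, Pi.smul_apply]
  refine Finset.prod_congr rfl fun i _ => ?_
  rw [fourier_apply, fourier_apply]
  congr 2
  rw [smul_eq_mul, mul_comm, mul_smul, natCast_zsmul]

theorem int_mF [DecidableEq ι] (m : ι → ℤ) (hm : m ≠ 0) : ∫ x, mFourier m x ∂(mu ι) = 0 := by
  obtain ⟨i, hi⟩ := Function.ne_iff.1 hm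
  have hi' : m i ≠ 0 := hi
  refine integral_eq_zero_of_add_right_eq_neg (μ := mu ι)
    (g := Pi.single i (((1 : ℝ) / 2 / (m i : ℝ) : ℝ) : UnitAddCircle)) fun x => ?_
  unfold mFourier
  simp only [ContinuousMap.coe_mk, Pi.add_apply]
  rw [← Finset.mul_prod_erase _ _ (Finset.mem_univ i), ← Finset.mul_prod_erase _ _
    (Finset.mem_univ i), Pi.single_eq_same, ← neg_mul]
  congr 1
  · exact fourier_add_half_inv_index hi' one_pos (x i)
  · refine Finset.prod_congr rfl fun k hk => ?_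
    rw [Pi.single_eq_of_ne (Finset.ne_of_mem_erase hk), add_zero]

theorem int_mF0 : ∫ x, mFourier (0 : ι → ℤ) x ∂(mu ι) = 1 := by
  rw [mFourier_zero]
  simp

/-- the functional -/
def Phi (a b J : ℕ) (g : C(ι → UnitAddCircle, ℂ)) : C(ι → UnitAddCircle, ℂ) →ₗ[ℂ] ℂ where
  toFun f := ∫ x, f ((J + a) • x) * g ((J + b) • x) ∂(mu ι) - (∫ x, f x ∂(mu ι)) * ∫ x, g x ∂(mu ι)
  map_add' f f' := by
    have h1 : ∫ x, (f + f') ((J + a) • x) * g ((J + b) • x) ∂(mu ι) =
        ∫ x, f ((J + a) • x) * g ((J + b) • x) ∂(mu ι) +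
        ∫ x, f' ((J + a) • x) * g ((J + b) • x) ∂(mu ι) := by
      rw [← integral_add (integ (by fun_prop)) (integ (by fun_prop))]
      congr 1
      ext x
      simp [add_mul]
    have h2 : ∫ x, (f + f') x ∂(mu ι) = ∫ x, f x ∂(mu ι) + ∫ x, f' x ∂(mu ι) := by
      rw [← integral_add (integ (by fun_prop)) (integ (by fun_prop))]
      rfl
    rw [h1, h2]
    ring
  map_smul' c f := by
    have h1 : ∫ x, (c • f) ((J + a) • x) * g ((J + b) • x) ∂(mu ι) =
        c * ∫ x, f ((J + a) • x) * g ((J + b) • x) ∂(mu ι) := by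
      rw [← integral_const_mul]
      congr 1
      ext x
      simp [mul_assoc]
    have h2 : ∫ x, (c • f) x ∂(mu ι) = c * ∫ x, f x ∂(mu ι) := by
      rw [← integral_const_mul]
      rfl
    rw [h1, h2]
    simp only [RingHom.id_apply, smul_eq_mul]
    ring

theorem Phi_apply (a b J : ℕ) (g f : C(ι → UnitAddCircle, ℂ)) :
    Phi a b J g f = ∫ x, f ((J + a) • x) * g ((J + b) • x) ∂(mu ι) -
      (∫ x, f x ∂(mu ι)) * ∫ x, g x ∂(mu ι) := rfl

theorem norm_int_le {f : (ι → UnitAddCircle) → ℂ} {C : ℝ} (h : ∀ x, ‖f x‖ ≤ C) :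
    ‖∫ x, f x ∂(mu ι)‖ ≤ C := by
  have := norm_integral_le_of_norm_le_const (μ := mu ι) (Eventually.of_forall h)
  simpa using this

theorem Phi_le (a b J : ℕ) (g f : C(ι → UnitAddCircle, ℂ)) :
    ‖Phi a b J g f‖ ≤ 2 * ‖g‖ * ‖f‖ := by
  have h1 : ‖∫ x, f ((J + a) • x) * g ((J + b) • x) ∂(mu ι)‖ ≤ ‖f‖ * ‖g‖ := by
    apply norm_int_le
    intro x
    rw [norm_mul]
    exact mul_le_mul (f.norm_coe_le_norm _) (g.norm_coe_le_norm _) (norm_nonneg _) (norm_nonneg _)
  have h2 : ‖∫ x, f x ∂(mu ι)‖ ≤ ‖f‖ := norm_int_le fun x => f.norm_coe_le_norm _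
  have h3 : ‖∫ x, g x ∂(mu ι)‖ ≤ ‖g‖ := norm_int_le fun x => g.norm_coe_le_norm _
  have h4 : ‖(∫ x, f x ∂(mu ι)) * ∫ x, g x ∂(mu ι)‖ ≤ ‖f‖ * ‖g‖ := by
    rw [norm_mul]
    exact mul_le_mul h2 h3 (norm_nonneg _) (norm_nonneg _)
  have h5 : ‖Phi a b J g f‖ ≤ ‖∫ x, f ((J + a) • x) * g ((J + b) • x) ∂(mu ι)‖ +
      ‖(∫ x, f x ∂(mu ι)) * ∫ x, g x ∂(mu ι)‖ := norm_sub_le _ _
  nlinarith

theorem Phi_mF [DecidableEq ι] {a b : ℕ} (hab : a ≠ b) (m m' : ι → ℤ) :
    Tendsto (fun J => Phi a b J (mFourier m') (mFourier m)) atTop (𝓝 0) := by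
  have key : ∀ J : ℕ, ∫ x, mFourier m ((J + a) • x) * mFourier m' ((J + b) • x) ∂(mu ι) =
      ∫ x, mFourier (((J + a : ℕ) : ℤ) • m + ((J + b : ℕ) : ℤ) • m') x ∂(mu ι) := by
    intro J
    congr 1
    ext x
    rw [mF_nsmul, mF_nsmul, ← mFourier_add]
  apply tendsto_const_nhds.congr'
  by_cases h0 : m = 0 ∧ m' = 0
  · obtain ⟨rfl, rfl⟩ := h0
    refine Eventually.of_forall fun J => ?_
    beta_reduce
    rw [Phi_apply, key, smul_zero, smul_zero, add_zero, int_mF0]
    ring
  · have h1 : (∫ x, mFourier m x ∂(mu ι)) * ∫ x, mFourier m' x ∂(mu ι) = 0 := by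
      rw [not_and_or] at h0
      rcases h0 with h | h
      · rw [int_mF m h, zero_mul]
      · rw [int_mF m' h, mul_zero]
    -- some coordinate
    have h2 : ∃ i, m i ≠ 0 ∨ m' i ≠ 0 := by
      by_contra hcon
      push Not at hcon
      exact h0 ⟨funext fun i => (hcon i).1, funext fun i => (hcon i).2⟩
    obtain ⟨i, hi⟩ := h2
    have h3 : ∀ᶠ J : ℕ in atTop, ((J + a : ℕ) : ℤ) * m i + ((J + b : ℕ) : ℤ) * m' i ≠ 0 := by
      by_cases h4 : m i + m' i = 0
      · refine Eventually.of_forall fun J => ?_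
        have h5 : m' i = - m i := by omega
        rw [h5]
        have h6 : m i ≠ 0 := by omega
        have h7 : ((a : ℤ) - b) ≠ 0 := by omega
        have h8 : ((J + a : ℕ) : ℤ) * m i + ((J + b : ℕ) : ℤ) * (- m i) = (a - b) * m i := by
          push_cast
          ring
        rw [h8]
        exact mul_ne_zero h7 h6
      · filter_upwards [eventually_ge_atTop ((|(a : ℤ) * m i + b * m' i|).toNat + 1)] with J hJ h5
        have h6 : (J : ℤ) * (m i + m' i) = -((a : ℤ) * m i + b * m' i) := by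
          push_cast at h5
          linear_combination h5
        have h7 : (J : ℤ) * |m i + m' i| = |(a : ℤ) * m i + b * m' i| := by
          have := congrArg abs h6
          rw [abs_mul, abs_neg, Nat.abs_cast] at this
          exact this
        have h8 : (1 : ℤ) ≤ |m i + m' i| := Int.one_le_abs h4
        have h9 : (J : ℤ) ≤ |(a : ℤ) * m i + b * m' i| := by
          rw [← h7]
          nlinarith
        have h10 : (|(a : ℤ) * m i + b * m' i|).toNat + 1 ≤ J := hJ
        omega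
    filter_upwards [h3] with J hJ
    rw [Phi_apply, key, h1, int_mF _ (Function.ne_iff.2 ⟨i, by simpa using hJ⟩), sub_zero]

/-- **decorrelation** -/
theorem decor {a b : ℕ} (hab : a ≠ b) (f g : C(ι → UnitAddCircle, ℂ)) :
    Tendsto (fun J : ℕ => ∫ x, f ((J + a) • x) * g ((J + b) • x) ∂(mu ι)) atTop
      (𝓝 ((∫ x, f x ∂(mu ι)) * ∫ x, g x ∂(mu ι))) := by
  classical
  have h1 : ∀ (m' : ι → ℤ) (f : C(ι → UnitAddCircle, ℂ)),
      Tendsto (fun J => Phi a b J (mFourier m') f) atTop (𝓝 0) := by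
    intro m' f
    refine tend_of_dense (fun J => Phi a b J (mFourier m')) (2 * ‖mFourier m'‖) (by positivity)
      (fun J f => Phi_le a b J _ f) _ span_mFourier_closure_eq_top ?_ f
    rintro _ ⟨m, rfl⟩
    exact Phi_mF hab m m'
  have hsymm : ∀ (J : ℕ) (f g : C(ι → UnitAddCircle, ℂ)), Phi a b J g f = Phi b a J f g := by
    intro J f g
    rw [Phi_apply, Phi_apply, mul_comm (∫ x, f x ∂(mu ι))]
    congr 2
    ext x
    rw [mul_comm]
  have h2 : Tendsto (fun J => Phi b a J f g) atTop (𝓝 0) := by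
    refine tend_of_dense (fun J => Phi b a J f) (2 * ‖f‖) (by positivity)
      (fun J g => Phi_le b a J _ g) _ span_mFourier_closure_eq_top ?_ g
    rintro _ ⟨m, rfl⟩
    refine (h1 m f).congr fun J => ?_
    rw [hsymm]
  have h3 := h2.add_const ((∫ x, f x ∂(mu ι)) * ∫ x, g x ∂(mu ι))
  rw [zero_add] at h3
  refine h3.congr fun J => ?_
  rw [← hsymm]
  rw [Phi_apply, sub_add_cancel]

end

end

end Pool.Agent.Q203.TR
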