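import Mathlib
import Pool.Agent.Q203.TR.A1

/-!
# The function `x ↦ (1 + i x) / |1 + i x|`
-/

set_option autoImplicit false

open MeasureTheory Filter Topology Complex

namespace Pool.Agent.Q203.TR

noncomputable section

/-- `(1 + i x) / |1 + i x| = exp (i arctan x)` -/
def ph (x : ℝ) : ℂ := exp ((Real.arctan x : ℂ) * I)

theorem ph_norm (x : ℝ) : ‖ph x‖ = 1 := by
  unfold ph
  exact norm_exp_ofReal_mul_I _

theorem ph_zero : ph 0 = 1 := by simp [ph]

theorem norm_one_add (x : ℝ) : ‖(1 : ℂ) + I * x‖ = √(1 + x ^ 2) := by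
  have h : (1 : ℂ) + I * x = (1 : ℝ) + (x : ℝ) * I := by push_cast; ring
  rw [h, Complex.norm_add_mul_I]
  norm_num

theorem ph_eq (x : ℝ) : ph x = (1 + I * x) / (‖(1 : ℂ) + I * x‖ : ℝ) := by
  rw [norm_one_add]
  unfold ph
  rw [Complex.exp_mul_I, ← Complex.ofReal_cos, ← Complex.ofReal_sin, Real.cos_arctan,
    Real.sin_arctan]
  push_cast
  ring

theorem hasDeriv_ph (x : ℝ) : HasDerivAt ph (ph x * (I / (1 + (x : ℂ) ^ 2))) x := by
  have h1 : HasDerivAt (fun y : ℝ => ((Real.arctan y : ℝ) : ℂ)) (((1 / (1 + x ^ 2) : ℝ)) : ℂ) x :=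
    (Real.hasDerivAt_arctan x).ofReal_comp
  have h2 := (h1.mul_const I).cexp
  refine h2.congr_deriv ?_
  unfold ph
  push_cast
  ring

theorem cont_ph : Continuous ph := by
  unfold ph
  have := Real.continuous_arctan
  fun_prop

theorem ne0 (x : ℝ) : (1 : ℂ) + (x : ℂ) ^ 2 ≠ 0 := by
  have : (1 : ℂ) + (x : ℂ) ^ 2 = ((1 + x ^ 2 : ℝ) : ℂ) := by push_cast; ring
  rw [this]
  exact_mod_cast (by positivity : (1 + x ^ 2 : ℝ) ≠ 0)

theorem nrm (x : ℝ) : ‖(1 : ℂ) + (x : ℂ) ^ 2‖ = 1 + x ^ 2 := by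
  have : (1 : ℂ) + (x : ℂ) ^ 2 = ((1 + x ^ 2 : ℝ) : ℂ) := by push_cast; ring
  rw [this, Complex.norm_real, Real.norm_of_nonneg (by positivity)]

/-- `ψ = φ + y²/2` -/
def ps (y : ℝ) : ℂ := ph y + (y : ℂ) ^ 2 / 2
def ps1 (y : ℝ) : ℂ := ph y * (I / (1 + (y : ℂ) ^ 2)) + y
def ps2 (y : ℝ) : ℂ := 1 - (1 + 2 * I * y) * ph y / (1 + (y : ℂ) ^ 2) ^ 2

theorem hasDeriv_ps (y : ℝ) : HasDerivAt ps (ps1 y) y := by
  have h1 : HasDerivAt (fun y : ℝ => (y : ℂ)) 1 y := Complex.ofRealCLM.hasDerivAt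
  have h2 := (hasDeriv_ph y).add ((h1.pow 2).div_const 2)
  refine h2.congr_deriv ?_
  unfold ps1
  push_cast
  ring

theorem hasDeriv_ps1 (y : ℝ) : HasDerivAt ps1 (ps2 y) y := by
  have h1 : HasDerivAt (fun y : ℝ => (y : ℂ)) 1 y := Complex.ofRealCLM.hasDerivAt
  have h3 : HasDerivAt (fun y : ℝ => (1 : ℂ) + (y : ℂ) ^ 2) (2 * y) y := by
    have := (h1.pow 2).const_add (1 : ℂ)
    refine this.congr_deriv ?_
    push_cast
    ring
  have h4 : HasDerivAt (fun y : ℝ => I / ((1 : ℂ) + (y : ℂ) ^ 2))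
      (-(I * (2 * y)) / (1 + (y : ℂ) ^ 2) ^ 2) y := by
    have := (hasDerivAt_const y I).div h3 (ne0 y)
    refine this.congr_deriv ?_
    ring
  have h5 := ((hasDeriv_ph y).mul h4).add h1
  refine h5.congr_deriv ?_
  unfold ps2
  have h6 := ne0 y
  field_simp
  have : I ^ 2 = -1 := I_sq
  linear_combination (ph y) * this

theorem ph_sub_one (y : ℝ) : ‖ph y - 1‖ ≤ |y| := by
  have h := Convex.norm_image_sub_le_of_norm_hasDerivWithin_le (f := ph)
    (f' := fun x => ph x * (I / (1 + (x : ℂ) ^ 2))) (C := 1) (s := Set.univ) (x := 0) (y := y)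
    (fun x _ => (hasDeriv_ph x).hasDerivWithinAt) (fun x _ => by
      rw [norm_mul, ph_norm, norm_div, norm_I, nrm, one_mul]
      rw [div_le_one (by positivity)]
      nlinarith [sq_nonneg x]) convex_univ (Set.mem_univ _) (Set.mem_univ _)
  rw [ph_zero, one_mul, sub_zero, Real.norm_eq_abs] at h
  exact h

theorem ps2_le (y : ℝ) : ‖ps2 y‖ ≤ 4 * |y| := by
  have hd : (0 : ℝ) < 1 + y ^ 2 := by positivity
  have hd1 : (1 : ℝ) ≤ 1 + y ^ 2 := by nlinarith [sq_nonneg y]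
  have h6 := ne0 y
  have e : ps2 y = ((1 - 1 / (1 + y ^ 2) ^ 2 : ℝ) : ℂ) + (1 - ph y) / (1 + (y : ℂ) ^ 2) ^ 2 -
      2 * I * y * ph y / (1 + (y : ℂ) ^ 2) ^ 2 := by
    unfold ps2
    push_cast
    field_simp
    ring
  rw [e]
  have hy := abs_nonneg y
  have hsq : |y| ^ 2 = y ^ 2 := sq_abs y
  have a1 : ‖((1 - 1 / (1 + y ^ 2) ^ 2 : ℝ) : ℂ)‖ ≤ |y| := by
    rw [Complex.norm_real, Real.norm_eq_abs, abs_of_nonneg]
    · rw [sub_le_iff_le_add, ← sub_le_iff_le_add', le_div_iff₀ (by positivity)]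
      rw [← hsq]
      set t := |y|
      have : 0 ≤ t * (1 - t) ^ 2 * (1 + t + 2 * t ^ 2 + t^3) := by positivity
      nlinarith [mul_nonneg hy (sq_nonneg (t - 1)), mul_nonneg hy (sq_nonneg (t ^ 2 - t)),
        mul_nonneg hy (sq_nonneg (t ^ 2 - 1)), mul_nonneg (mul_nonneg hy hy) (sq_nonneg (t-1)),
        pow_nonneg hy 3, pow_nonneg hy 5]
    · rw [sub_nonneg, div_le_one (by positivity)]
      exact one_le_pow₀ hd1
  have a2 : ‖(1 - ph y) / (1 + (y : ℂ) ^ 2) ^ 2‖ ≤ |y| := by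
    rw [norm_div, norm_pow, nrm]
    have h1 := ph_sub_one y
    rw [norm_sub_rev] at h1
    exact (div_le_self (norm_nonneg _) (one_le_pow₀ hd1)).trans h1
  have a3 : ‖2 * I * y * ph y / (1 + (y : ℂ) ^ 2) ^ 2‖ ≤ 2 * |y| := by
    rw [norm_div, norm_pow, nrm, norm_mul, ph_norm, norm_mul, norm_mul, norm_I, Complex.norm_real]
    simp only [Complex.norm_ofNat, mul_one, Real.norm_eq_abs]
    exact div_le_self (by positivity) (one_le_pow₀ hd1)
  calc _ ≤ ‖((1 - 1 / (1 + y ^ 2) ^ 2 : ℝ) : ℂ) + (1 - ph y) / (1 + (y : ℂ) ^ 2) ^ 2‖ +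
        ‖2 * I * y * ph y / (1 + (y : ℂ) ^ 2) ^ 2‖ := norm_sub_le _ _
    _ ≤ |y| + |y| + 2 * |y| := add_le_add ((norm_add_le _ _).trans (add_le_add a1 a2)) a3
    _ = 4 * |y| := by ring

/-- mixed difference of `ψ` -/
theorem diff_ps (X α β : ℝ) : ‖(ps (X + α + β) - ps (X + α - β)) -
    (ps (X - α + β) - ps (X - α - β))‖ ≤ 16 * |α| * |β| * (|X| + |α| + |β|) := by
  set R := |X| + |α| + |β| with hR
  have hR0 : 0 ≤ R := by positivity
  have hder : ∀ s : ℝ, HasDerivAt (fun s => ps (X + s + β) - ps (X + s - β))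
      (ps1 (X + s + β) - ps1 (X + s - β)) s := by
    intro s
    have e1 : HasDerivAt (fun s : ℝ => X + s + β) 1 s := by
      simpa using ((hasDerivAt_id s).const_add X).add_const β
    have e2 : HasDerivAt (fun s : ℝ => X + s - β) 1 s := by
      simpa using ((hasDerivAt_id s).const_add X).sub_const β
    have h1 := (hasDeriv_ps (X + s + β)).scomp s e1
    have h2 := (hasDeriv_ps (X + s - β)).scomp s e2
    have h3 := h1.sub h2
    refine h3.congr_deriv ?_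
    simp
  have hb : ∀ s ∈ Set.Icc (-|α|) |α|, ‖ps1 (X + s + β) - ps1 (X + s - β)‖ ≤ 8 * R * |β| := by
    intro s hs
    have hs' : |s| ≤ |α| := abs_le.2 hs
    have hX := abs_le.1 (le_refl |X|)
    have hsa := abs_le.1 hs'
    have hβ := abs_le.1 (le_refl |β|)
    have m1 : X + s + β ∈ Set.Icc (-R) R := ⟨by rw [hR]; linarith [hX.1, hsa.1, hβ.1],
      by rw [hR]; linarith [hX.2, hsa.2, hβ.2]⟩
    have m2 : X + s - β ∈ Set.Icc (-R) R := ⟨by rw [hR]; linarith [hX.1, hsa.1, hβ.2],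
      by rw [hR]; linarith [hX.2, hsa.2, hβ.1]⟩
    have h := Convex.norm_image_sub_le_of_norm_hasDerivWithin_le (f := ps1)
      (f' := ps2) (C := 4 * R) (s := Set.Icc (-R) R) (x := X + s - β) (y := X + s + β)
      (fun x _ => (hasDeriv_ps1 x).hasDerivWithinAt) (fun x hx => by
        refine (ps2_le x).trans ?_
        have : |x| ≤ R := abs_le.2 hx
        linarith) (convex_Icc _ _) m2 m1
    refine h.trans (le_of_eq ?_)
    have : X + s + β - (X + s - β) = 2 * β := by ring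
    rw [this, Real.norm_eq_abs, abs_mul, abs_two]
    ring
  have ma : α ∈ Set.Icc (-|α|) |α| := abs_le.1 le_rfl
  have mb : -α ∈ Set.Icc (-|α|) |α| := abs_le.1 (by rw [abs_neg])
  have h := Convex.norm_image_sub_le_of_norm_hasDerivWithin_le
    (f := fun s => ps (X + s + β) - ps (X + s - β))
    (f' := fun s => ps1 (X + s + β) - ps1 (X + s - β)) (C := 8 * R * |β|)
    (s := Set.Icc (-|α|) |α|) (x := -α) (y := α)
    (fun x _ => (hder x).hasDerivWithinAt) hb (convex_Icc _ _) mb ma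
  have e1 : X + -α + β = X - α + β := by ring
  have e2 : X + -α - β = X - α - β := by ring
  simp only [e1, e2] at h
  refine h.trans (le_of_eq ?_)
  have : α - -α = 2 * α := by ring
  rw [this, Real.norm_eq_abs, abs_mul, abs_two]
  ring

/-- mixed difference of `φ` -/
theorem diff_ph (X α β : ℝ) : ‖ph (X + α + β) - ph (X + α - β) -
    (ph (X - α + β) - ph (X - α - β)) + 4 * α * β‖ ≤ 16 * |α| * |β| * (|X| + |α| + |β|) := by
  refine le_trans (le_of_eq ?_) (diff_ps X α β)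
  congr 1
  unfold ps
  push_cast
  ring

end

end Pool.Agent.Q203.TR
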