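import Mathlib
import Pool.Agent.Q203.TR.A2

/-!
# The Fourier coefficients of second order
-/

set_option autoImplicit false

open MeasureTheory Filter Topology Complex

namespace Pool.Agent.Q203.TR

noncomputable section

/-- `2 cos (2 π u)` -/
def co (u : UnitAddCircle) : ℝ := 2 * (fourier 1 u).re

theorem co_cont : Continuous co := by
  unfold co
  fun_prop

theorem fourier_nrm (n : ℤ) (u : UnitAddCircle) : ‖fourier n u‖ = 1 := by
  rw [fourier_apply]
  exact Circle.norm_coe _

theorem co_le (u : UnitAddCircle) : |co u| ≤ 2 := by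
  unfold co
  rw [abs_mul, abs_two]
  have h := Complex.abs_re_le_norm (fourier 1 u)
  rw [fourier_nrm] at h
  linarith

theorem co_eq (u : UnitAddCircle) : (co u : ℂ) = fourier 1 u + fourier (-1) u := by
  unfold co
  rw [fourier_neg, Complex.add_conj]

theorem fourier_nsmul (n : ℤ) (k : ℕ) (u : UnitAddCircle) :
    fourier n (k • u) = fourier (n * k) u := by
  rw [fourier_apply, fourier_apply, mul_smul, natCast_zsmul]

theorem co_nsmul (k : ℕ) (u : UnitAddCircle) :
    (co (k • u) : ℂ) = fourier (k : ℤ) u + fourier (-(k : ℤ)) u := by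
  rw [co_eq, fourier_nsmul, fourier_nsmul, one_mul, neg_one_mul]

/-- one half -/
def hf : UnitAddCircle := ((1 / 2 : ℝ) : UnitAddCircle)

theorem fourier_hf (u : UnitAddCircle) : fourier 1 (u + hf) = - fourier 1 u := by
  have h := fourier_add_half_inv_index (T := 1) (n := 1) one_ne_zero one_pos u
  have e : ((1 : ℝ) / 2 / ((1 : ℤ) : ℝ) : ℝ) = 1 / 2 := by norm_num
  rw [e] at h
  exact h

theorem fourier_hf' (u : UnitAddCircle) : fourier (-1) (u + hf) = - fourier (-1) u := by
  rw [fourier_neg, fourier_neg, fourier_hf, map_neg]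

theorem co_hf (u : UnitAddCircle) : co (u + hf) = - co u := by
  unfold co
  rw [fourier_hf, Complex.neg_re]
  ring

section

variable {ι : Type} [Fintype ι] [DecidableEq ι]

/-- the sum -/
def Y (x : ι → UnitAddCircle) : ℝ := ∑ i, co (x i)

omit [DecidableEq ι] in
theorem Y_cont : Continuous (Y (ι := ι)) := by
  unfold Y
  have := co_cont
  fun_prop

theorem Y_shift (i : ι) (x : ι → UnitAddCircle) :
    Y (x + Pi.single i hf) = Y x - 2 * co (x i) := by
  unfold Y
  rw [← Finset.add_sum_erase _ _ (Finset.mem_univ i), ← Finset.add_sum_erase _ _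
    (Finset.mem_univ i)]
  have h1 : ∑ k ∈ Finset.univ.erase i, co ((x + Pi.single i hf : ι → UnitAddCircle) k) =
      ∑ k ∈ Finset.univ.erase i, co (x k) := by
    refine Finset.sum_congr rfl fun k hk => ?_
    rw [Pi.add_apply, Pi.single_eq_of_ne (Finset.ne_of_mem_erase hk), add_zero]
  rw [h1, Pi.add_apply, Pi.single_eq_same, co_hf]
  ring

theorem EY2 : ∫ x, (Y x) ^ 2 ∂(mu ι) ≤ 4 * Fintype.card ι := by
  have hc := co_cont
  have h1 : ∀ x : ι → UnitAddCircle, (Y x) ^ 2 = ∑ i, ∑ j, co (x i) * co (x j) := by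
    intro x
    unfold Y
    rw [sq, Finset.sum_mul_sum]
  simp_rw [h1]
  rw [integral_finsetSum _ (fun i _ => integ (by fun_prop))]
  have h2 : ∀ i : ι, ∫ x, ∑ j, co (x i) * co (x j) ∂(mu ι) ≤ 4 := by
    intro i
    rw [integral_finsetSum _ (fun j _ => integ (by fun_prop))]
    rw [Finset.sum_eq_single i]
    · calc ∫ x, co (x i) * co (x i) ∂(mu ι) ≤ ∫ x, (4 : ℝ) ∂(mu ι) := by
            refine integral_mono (integ (by fun_prop)) (integ (by fun_prop)) fun x => ?_
            have := abs_le.1 (co_le (x i))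
            simp only
            nlinarith
        _ = 4 := by simp
    · intro j _ hj
      refine integral_eq_zero_of_add_right_eq_neg (μ := mu ι) (g := Pi.single i hf) fun x => ?_
      rw [Pi.add_apply, Pi.add_apply, Pi.single_eq_same, Pi.single_eq_of_ne hj, add_zero, co_hf]
      ring
    · intro h
      exact absurd (Finset.mem_univ i) h
  calc ∑ i, ∫ x, ∑ j, co (x i) * co (x j) ∂(mu ι) ≤ ∑ _i : ι, (4 : ℝ) :=
        Finset.sum_le_sum fun i _ => h2 i
    _ = 4 * Fintype.card ι := by
        rw [Finset.sum_const, Finset.card_univ, nsmul_eq_mul, mul_comm]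

theorem EY1 {s : ℝ} (hs : 0 < s) :
    ∫ x, |Y x| ∂(mu ι) ≤ (4 * Fintype.card ι / s + s) / 2 := by
  have hc := Y_cont (ι := ι)
  calc ∫ x, |Y x| ∂(mu ι) ≤ ∫ x, ((Y x) ^ 2 * (1 / (2 * s)) + s / 2) ∂(mu ι) := by
        refine integral_mono (integ (by fun_prop)) (integ (by fun_prop)) fun x => ?_
        have h1 : 0 ≤ (|Y x| - s) ^ 2 := sq_nonneg _
        have h2 : |Y x| ^ 2 = (Y x) ^ 2 := sq_abs _
        have h3 : (Y x) ^ 2 * (1 / (2 * s)) + s / 2 - |Y x| = (|Y x| - s) ^ 2 / (2 * s) := by
          rw [← h2]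
          field_simp
          ring
        have h4 : 0 ≤ (|Y x| - s) ^ 2 / (2 * s) := by positivity
        simp only
        linarith
    _ = (∫ x, (Y x) ^ 2 ∂(mu ι)) * (1 / (2 * s)) + s / 2 := by
        rw [integral_add (integ (by fun_prop)) (integ (by fun_prop)), integral_mul_const]
        simp
    _ ≤ (4 * Fintype.card ι) * (1 / (2 * s)) + s / 2 := by
        have := EY2 (ι := ι)
        gcongr
    _ = (4 * Fintype.card ι / s + s) / 2 := by
        field_simp

/-- the character -/
def chi (i j : ι) (x : ι → UnitAddCircle) : ℂ := fourier (-1) (x i) * fourier (-1) (x j)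

omit [Fintype ι] [DecidableEq ι] in
theorem chi_cont (i j : ι) : Continuous (chi i j) := by
  unfold chi
  fun_prop

omit [Fintype ι] [DecidableEq ι] in
theorem chi_norm (i j : ι) (x : ι → UnitAddCircle) : ‖chi i j x‖ = 1 := by
  unfold chi
  rw [norm_mul, fourier_nrm, fourier_nrm, one_mul]

omit [Fintype ι] in
theorem chi_shift1 {i j : ι} (hij : i ≠ j) (x : ι → UnitAddCircle) :
    chi i j (x + Pi.single i hf) = - chi i j x := by
  unfold chi
  rw [Pi.add_apply, Pi.add_apply, Pi.single_eq_same, Pi.single_eq_of_ne hij.symm, add_zero,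
    fourier_hf', neg_mul]

omit [Fintype ι] in
theorem chi_shift2 {i j : ι} (hij : i ≠ j) (x : ι → UnitAddCircle) :
    chi i j (x + Pi.single j hf) = - chi i j x := by
  unfold chi
  rw [Pi.add_apply, Pi.add_apply, Pi.single_eq_same, Pi.single_eq_of_ne hij, add_zero,
    fourier_hf', mul_neg]

/-- the function -/
def ff (ε : ℝ) (x : ι → UnitAddCircle) : ℂ := ph (ε * Y x)

omit [DecidableEq ι] in
theorem ff_cont (ε : ℝ) : Continuous (ff (ι := ι) ε) := by
  unfold ff
  have := Y_cont (ι := ι)
  have := cont_ph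
  fun_prop

/-- the coefficient -/
def cf (ε : ℝ) (i j : ι) : ℂ := ∫ x, ff ε x * chi i j x ∂(mu ι)

/-- the integral of the main term -/
theorem main_int {i j : ι} (hij : i ≠ j) :
    ∫ x, ((co (x i) * co (x j) : ℝ) : ℂ) * chi i j x ∂(mu ι) = 1 := by
  have e : ∀ x : ι → UnitAddCircle, ((co (x i) * co (x j) : ℝ) : ℂ) * chi i j x =
      1 + fourier (-2) (x j) + fourier (-2) (x i) * (1 + fourier (-2) (x j)) := by
    intro x
    unfold chi
    push_cast
    rw [co_eq, co_eq]
    have h2 : ∀ u : UnitAddCircle, fourier (-2) u = fourier (-1) u * fourier (-1) u := by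
      intro u
      rw [← fourier_add]
      norm_num
    have h3 : ∀ u : UnitAddCircle, fourier 1 u * fourier (-1) u = 1 := by
      intro u
      rw [← fourier_add]
      norm_num
    rw [h2, h2]
    linear_combination (1 + fourier (-1) (x i) * fourier (-1) (x i) + (fourier 1 (x i) *
      fourier (-1) (x i) - 1)) * h3 (x j) + (1 + fourier (-1) (x j) * fourier (-1) (x j)) *
      h3 (x i)
  simp_rw [e]
  have hq : ∀ u : UnitAddCircle, fourier (-2) (u + (((1 : ℝ) / 2 / ((-2 : ℤ) : ℝ) : ℝ) :
      UnitAddCircle)) = - fourier (-2) u := fun u =>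
    fourier_add_half_inv_index (T := 1) (n := -2) (by norm_num) one_pos u
  rw [integral_add (integ (by fun_prop)) (integ (by fun_prop)),
    integral_add (integ (by fun_prop)) (integ (by fun_prop))]
  have z1 : ∫ x, fourier (-2) (x j) ∂(mu ι) = 0 := by
    refine integral_eq_zero_of_add_right_eq_neg (μ := mu ι)
      (g := Pi.single j (((1 : ℝ) / 2 / ((-2 : ℤ) : ℝ) : ℝ) : UnitAddCircle)) fun x => ?_
    rw [Pi.add_apply, Pi.single_eq_same]
    exact hq (x j)
  have z2 : ∫ x, fourier (-2) (x i) * (1 + fourier (-2) (x j)) ∂(mu ι) = 0 := by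
    refine integral_eq_zero_of_add_right_eq_neg (μ := mu ι)
      (g := Pi.single i (((1 : ℝ) / 2 / ((-2 : ℤ) : ℝ) : ℝ) : UnitAddCircle)) fun x => ?_
    rw [Pi.add_apply, Pi.add_apply, Pi.single_eq_same, Pi.single_eq_of_ne hij.symm, add_zero,
      hq (x i), neg_mul]
  rw [z1, z2]
  simp

/-- **the coefficient of second order** -/
theorem cf_est {ε : ℝ} (hε : 0 ≤ ε) {i j : ι} (hij : i ≠ j) :
    ‖cf ε i j + (ε : ℂ) ^ 2‖ ≤ 16 * ε ^ 3 * (∫ x, |Y x| ∂(mu ι) + 8) := by
  have hY := Y_cont (ι := ι)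
  have hco := co_cont
  have hph := cont_ph
  have hchi := chi_cont i j
  -- the four shifted functions
  let X : (ι → UnitAddCircle) → ℝ := fun x => ε * (Y x - co (x i) - co (x j))
  let α : (ι → UnitAddCircle) → ℝ := fun x => ε * co (x i)
  let β : (ι → UnitAddCircle) → ℝ := fun x => ε * co (x j)
  have hX : Continuous X := by fun_prop
  have hα : Continuous α := by fun_prop
  have hβ : Continuous β := by fun_prop
  have g0 : ∀ x, ff ε x * chi i j x = ph (X x + α x + β x) * chi i j x := by
    intro x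
    unfold ff
    congr 2
    simp only [X, α, β]
    ring
  have g1 : ∫ x, ff ε x * chi i j x ∂(mu ι) =
      ∫ x, -(ph (X x - α x + β x) * chi i j x) ∂(mu ι) := by
    rw [← shift _ (Pi.single i hf)]
    congr 1
    ext x
    unfold ff
    rw [chi_shift1 hij, Y_shift, mul_neg]
    congr 3
    simp only [X, α, β]
    ring
  have g2 : ∫ x, ff ε x * chi i j x ∂(mu ι) =
      ∫ x, -(ph (X x + α x - β x) * chi i j x) ∂(mu ι) := by
    rw [← shift _ (Pi.single j hf)]
    congr 1
    ext x
    unfold ff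
    rw [chi_shift2 hij, Y_shift, mul_neg]
    congr 3
    simp only [X, α, β]
    ring
  have g3 : ∫ x, ff ε x * chi i j x ∂(mu ι) =
      ∫ x, ph (X x - α x - β x) * chi i j x ∂(mu ι) := by
    rw [← shift _ (Pi.single j hf), ← shift _ (Pi.single i hf)]
    congr 1
    ext x
    unfold ff
    rw [chi_shift2 hij, chi_shift1 hij, Y_shift, Y_shift, neg_neg]
    have e : (x + Pi.single i hf : ι → UnitAddCircle) j = x j := by
      rw [Pi.add_apply, Pi.single_eq_of_ne hij.symm, add_zero]
    rw [e]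
    congr 2
    simp only [X, α, β]
    ring
  have hsum : 4 * cf ε i j = ∫ x, (ph (X x + α x + β x) - ph (X x + α x - β x) -
      (ph (X x - α x + β x) - ph (X x - α x - β x))) * chi i j x ∂(mu ι) := by
    have e1 : ∫ x, (ph (X x + α x + β x) - ph (X x + α x - β x) -
      (ph (X x - α x + β x) - ph (X x - α x - β x))) * chi i j x ∂(mu ι) =
      ∫ x, ph (X x + α x + β x) * chi i j x ∂(mu ι) +
      ∫ x, -(ph (X x + α x - β x) * chi i j x) ∂(mu ι) +
      (∫ x, -(ph (X x - α x + β x) * chi i j x) ∂(mu ι) +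
      ∫ x, ph (X x - α x - β x) * chi i j x ∂(mu ι)) := by
      rw [← integral_add (integ (by fun_prop)) (integ (by fun_prop)),
        ← integral_add (integ (by fun_prop)) (integ (by fun_prop)),
        ← integral_add (integ (by fun_prop)) (integ (by fun_prop))]
      congr 1
      ext x
      ring
    rw [e1, ← g1, ← g2, ← g3]
    simp_rw [← g0]
    unfold cf
    ring
  have hmain : ∫ x, ((4 * α x * β x : ℝ) : ℂ) * chi i j x ∂(mu ι) = 4 * (ε : ℂ) ^ 2 := by
    have e1 : ∀ x, ((4 * α x * β x : ℝ) : ℂ) * chi i j x =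
        (4 * (ε : ℂ) ^ 2) * (((co (x i) * co (x j) : ℝ) : ℂ) * chi i j x) := by
      intro x
      simp only [α, β]
      push_cast
      ring
    simp_rw [e1]
    rw [integral_const_mul, main_int hij, mul_one]
  have h4 : 4 * (cf ε i j + (ε : ℂ) ^ 2) = ∫ x, (ph (X x + α x + β x) - ph (X x + α x - β x) -
      (ph (X x - α x + β x) - ph (X x - α x - β x)) + 4 * α x * β x) * chi i j x ∂(mu ι) := by
    rw [mul_add, hsum, ← hmain, ← integral_add (integ (by fun_prop)) (integ (by fun_prop))]
    congr 1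
    ext x
    push_cast
    ring
  have h5 : ‖∫ x, (ph (X x + α x + β x) - ph (X x + α x - β x) -
      (ph (X x - α x + β x) - ph (X x - α x - β x)) + 4 * α x * β x) * chi i j x ∂(mu ι)‖ ≤
      ∫ x, 64 * ε ^ 3 * (|Y x| + 8) ∂(mu ι) := by
    refine (norm_integral_le_integral_norm _).trans ?_
    refine integral_mono (integ (by fun_prop)) (integ (by fun_prop)) fun x => ?_
    simp only
    rw [norm_mul, chi_norm, mul_one]
    refine (diff_ph _ _ _).trans ?_
    have a1 : |α x| ≤ 2 * ε := by
      simp only [α]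
      rw [abs_mul, abs_of_nonneg hε]
      nlinarith [co_le (x i)]
    have a2 : |β x| ≤ 2 * ε := by
      simp only [β]
      rw [abs_mul, abs_of_nonneg hε]
      nlinarith [co_le (x j)]
    have a3 : |X x| ≤ ε * (|Y x| + 4) := by
      simp only [X]
      rw [abs_mul, abs_of_nonneg hε]
      apply mul_le_mul_of_nonneg_left _ hε
      have b1 := abs_sub (Y x - co (x i)) (co (x j))
      have b2 := abs_sub (Y x) (co (x i))
      have b3 := co_le (x i)
      have b4 := co_le (x j)
      linarith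
    have a4 : |X x| + |α x| + |β x| ≤ ε * (|Y x| + 8) := by nlinarith
    calc 16 * |α x| * |β x| * (|X x| + |α x| + |β x|)
        ≤ 16 * (2 * ε) * (2 * ε) * (ε * (|Y x| + 8)) := by gcongr
      _ = 64 * ε ^ 3 * (|Y x| + 8) := by ring
  have h6 : ∫ x, 64 * ε ^ 3 * (|Y x| + 8) ∂(mu ι) = 64 * ε ^ 3 * (∫ x, |Y x| ∂(mu ι) + 8) := by
    rw [integral_const_mul, integral_add (integ (by fun_prop)) (integ (by fun_prop))]
    simp
  rw [← h4, h6, norm_mul, Complex.norm_ofNat] at h5
  linarith

end

end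

end Pool.Agent.Q203.TR
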