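import Mathlib
import Pool.Agent.Q203.TR.A3

/-!
# The polynomial with the truncated coefficients near one of its peaks
-/

set_option autoImplicit false

open MeasureTheory Filter Topology Complex

namespace Pool.Agent.Q203.TR

noncomputable section

section

variable {ι : Type} [Fintype ι]

theorem exp_sq {n : ℕ} (v : ℕ → ℂ) :
    ((‖∑ a ∈ Finset.range n, v a‖ ^ 2 : ℝ) : ℂ) =
      ∑ a ∈ Finset.range n, ∑ b ∈ Finset.range n, v a * (starRingEnd ℂ) (v b) := by
  rw [Complex.ofReal_pow, ← Complex.mul_conj', map_sum, Finset.sum_mul_sum]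

/-- second moment -/
theorem second (g : C(ι → UnitAddCircle, ℂ)) (hg0 : ∫ x, g x ∂(mu ι) = 0)
    (hg : ∀ x, ‖g x‖ ≤ 2) {n : ℕ} (hn : 0 < n) :
    ∀ᶠ J : ℕ in atTop, ∀ ω : ℕ → ℂ, (∀ a, ‖ω a‖ ≤ 1) →
      ∫ x, ‖∑ a ∈ Finset.range n, g ((J + a) • x) * ω a‖ ^ 2 ∂(mu ι) ≤ 5 * n := by
  have hnR : (0 : ℝ) < n := by exact_mod_cast hn
  have h1 : ∀ᶠ J : ℕ in atTop, ∀ a ∈ Finset.range n, ∀ b ∈ Finset.range n, a ≠ b →
      ‖∫ x, g ((J + a) • x) * (star g) ((J + b) • x) ∂(mu ι)‖ ≤ 1 / n := by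
    rw [Filter.eventually_all_finset]
    intro a _
    rw [Filter.eventually_all_finset]
    intro b _
    by_cases hab : a = b
    · exact Eventually.of_forall fun J h => absurd hab h
    have h2 := (decor hab g (star g)).norm
    rw [hg0, zero_mul, norm_zero] at h2
    filter_upwards [h2.eventually (ge_mem_nhds (by positivity : (0 : ℝ) < 1 / n))] with J hJ _
    exact hJ
  filter_upwards [h1] with J hJ ω hω
  have e1 : ((∫ x, ‖∑ a ∈ Finset.range n, g ((J + a) • x) * ω a‖ ^ 2 ∂(mu ι) : ℝ) : ℂ) =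
      ∑ a ∈ Finset.range n, ∑ b ∈ Finset.range n, (ω a * (starRingEnd ℂ) (ω b)) *
        ∫ x, g ((J + a) • x) * (star g) ((J + b) • x) ∂(mu ι) := by
    rw [← integral_complex_ofReal]
    simp_rw [exp_sq]
    rw [integral_finsetSum _ (fun a _ => integ (by fun_prop))]
    refine Finset.sum_congr rfl fun a _ => ?_
    rw [integral_finsetSum _ (fun b _ => integ (by fun_prop))]
    refine Finset.sum_congr rfl fun b _ => ?_
    rw [← integral_const_mul]
    congr 1
    ext x
    rw [map_mul, ContinuousMap.star_apply, ← starRingEnd_apply]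
    ring
  have h0 : 0 ≤ ∫ x, ‖∑ a ∈ Finset.range n, g ((J + a) • x) * ω a‖ ^ 2 ∂(mu ι) :=
    integral_nonneg fun x => by positivity
  have e2 : ∫ x, ‖∑ a ∈ Finset.range n, g ((J + a) • x) * ω a‖ ^ 2 ∂(mu ι) =
      ‖((∫ x, ‖∑ a ∈ Finset.range n, g ((J + a) • x) * ω a‖ ^ 2 ∂(mu ι) : ℝ) : ℂ)‖ := by
    rw [Complex.norm_real, Real.norm_of_nonneg h0]
  rw [e2, e1]
  have h3 : ∀ a ∈ Finset.range n, ∀ b ∈ Finset.range n,
      ‖(ω a * (starRingEnd ℂ) (ω b)) * ∫ x, g ((J + a) • x) * (star g) ((J + b) • x) ∂(mu ι)‖ ≤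
        (if a = b then 4 else 0) + 1 / n := by
    intro a ha b hb
    rw [norm_mul, norm_mul, RCLike.norm_conj]
    have h4 : ‖ω a‖ * ‖ω b‖ ≤ 1 := by nlinarith [hω a, hω b, norm_nonneg (ω a), norm_nonneg (ω b)]
    refine (mul_le_of_le_one_left (norm_nonneg _) h4).trans ?_
    split_ifs with hab
    · have h5 : ‖∫ x, g ((J + a) • x) * (star g) ((J + b) • x) ∂(mu ι)‖ ≤ 4 := by
        apply norm_int_le
        intro x
        rw [norm_mul, ContinuousMap.star_apply, norm_star]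
        nlinarith [hg ((J + a) • x), hg ((J + b) • x), norm_nonneg (g ((J + a) • x)),
          norm_nonneg (g ((J + b) • x))]
      have : (0 : ℝ) ≤ 1 / n := by positivity
      linarith
    · rw [zero_add]
      exact hJ a ha b hb hab
  refine (norm_sum_le _ _).trans ?_
  calc ∑ a ∈ Finset.range n, ‖∑ b ∈ Finset.range n, (ω a * (starRingEnd ℂ) (ω b)) *
        ∫ x, g ((J + a) • x) * (star g) ((J + b) • x) ∂(mu ι)‖
      ≤ ∑ a ∈ Finset.range n, ∑ b ∈ Finset.range n, ((if a = b then (4 : ℝ) else 0) + 1 / n) :=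
        Finset.sum_le_sum fun a ha => (norm_sum_le _ _).trans
          (Finset.sum_le_sum fun b hb => h3 a ha b hb)
    _ = ∑ a ∈ Finset.range n, (5 : ℝ) := by
        refine Finset.sum_congr rfl fun a ha => ?_
        rw [Finset.sum_add_distrib, Finset.sum_ite_eq, if_pos ha, Finset.sum_const,
          Finset.card_range, nsmul_eq_mul, mul_one_div_cancel hnR.ne']
        norm_num
    _ = 5 * n := by
        rw [Finset.sum_const, Finset.card_range, nsmul_eq_mul, mul_comm]

/-- the sum of the first characters near zero -/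
theorem geo_near {n : ℕ} (hn : 0 < n) {s : UnitAddCircle} (hs : ‖s‖ ≤ 1 / (8 * n)) :
    (n : ℝ) / 2 ≤ ‖∑ a ∈ Finset.range n, (fourier (a : ℤ) s : ℂ)‖ := by
  have hnR : (0 : ℝ) < n := by exact_mod_cast hn
  induction s using QuotientAddGroup.induction_on with
  | H y =>
    have hs2 : ‖((y : ℝ) : UnitAddCircle)‖ ≤ 1 / (8 * n) := hs
    rw [UnitAddCircle.norm_eq] at hs2
    set t := y - round y with ht
    have h00 : (((round y : ℤ) : ℝ) : UnitAddCircle) = 0 :=
      (AddCircle.coe_eq_zero_iff 1).2 ⟨round y, by simp⟩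
    have e : ((y : ℝ) : UnitAddCircle) = ((t : ℝ) : UnitAddCircle) := by
      rw [ht, AddCircle.coe_sub, h00, sub_zero]
    have e' : ∀ a : ℕ, fourier (a : ℤ) (QuotientAddGroup.mk y : UnitAddCircle) =
        Complex.exp (((2 * Real.pi * a * t : ℝ) : ℂ) * I) := by
      intro a
      rw [e, fourier_coe_apply]
      congr 1
      push_cast
      ring
    have h1 : ∀ a ∈ Finset.range n, (1 : ℝ) / 2 ≤
        (fourier (a : ℤ) (QuotientAddGroup.mk y : UnitAddCircle)).re := by
      intro a ha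
      rw [e', Complex.exp_ofReal_mul_I_re, ← Real.cos_abs, ← Real.cos_pi_div_three]
      have ha' : (a : ℝ) ≤ n := by exact_mod_cast (Finset.mem_range.1 ha).le
      have h2 : |2 * Real.pi * a * t| ≤ Real.pi / 3 := by
        rw [abs_mul, abs_of_nonneg (by positivity)]
        have hpi := Real.pi_pos
        calc 2 * Real.pi * a * |t| ≤ 2 * Real.pi * n * (1 / (8 * n)) := by gcongr
          _ = Real.pi / 4 := by field_simp; ring
          _ ≤ Real.pi / 3 := by linarith
      exact Real.cos_le_cos_of_nonneg_of_le_pi (abs_nonneg _) (by linarith [Real.pi_pos]) h2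
    calc (n : ℝ) / 2 = ∑ a ∈ Finset.range n, (1 : ℝ) / 2 := by
          rw [Finset.sum_const, Finset.card_range, nsmul_eq_mul]; ring
      _ ≤ ∑ a ∈ Finset.range n, (fourier (a : ℤ) (QuotientAddGroup.mk y : UnitAddCircle)).re :=
          Finset.sum_le_sum h1
      _ = (∑ a ∈ Finset.range n, fourier (a : ℤ) (QuotientAddGroup.mk y : UnitAddCircle)).re := by
          rw [Complex.re_sum]
      _ ≤ _ := Complex.re_le_norm _

/-- the polynomial with the truncated coefficients -/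
def FF (ε : ℝ) (J n : ℕ) (x : ι → UnitAddCircle) (u : UnitAddCircle) : ℂ :=
  ∑ a ∈ Finset.range n, ff ε ((J + a) • x) * fourier (a : ℤ) u

theorem FF_cont (ε : ℝ) (J n : ℕ) :
    Continuous fun p : (ι → UnitAddCircle) × UnitAddCircle => FF ε J n p.1 p.2 := by
  unfold FF
  have := ff_cont (ι := ι) ε
  fun_prop

theorem FF_peak (ε : ℝ) (J n : ℕ) (x : ι → UnitAddCircle) (i j : ι) (s : UnitAddCircle) :
    ‖FF ε J n x (s - x i - x j)‖ =
      ‖∑ a ∈ Finset.range n, ff ε ((J + a) • x) * chi i j ((J + a) • x) * fourier (a : ℤ) s‖ := by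
  have h : FF ε J n x (s - x i - x j) = fourier (J : ℤ) (x i + x j) *
      ∑ a ∈ Finset.range n, ff ε ((J + a) • x) * chi i j ((J + a) • x) * fourier (a : ℤ) s := by
    unfold FF
    rw [Finset.mul_sum]
    refine Finset.sum_congr rfl fun a _ => ?_
    have e1 : chi i j ((J + a) • x) = fourier (-((J : ℤ) + a)) (x i + x j) := by
      unfold chi
      rw [Pi.smul_apply, Pi.smul_apply, fourier_nsmul, fourier_nsmul]
      rw [fourier_apply, fourier_apply, fourier_apply, smul_add, AddCircle.toCircle_add]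
      push_cast
      ring_nf
    have e2 : fourier (a : ℤ) (s - x i - x j) = fourier (a : ℤ) s *
        fourier (-(a : ℤ)) (x i + x j) := by
      have : s - x i - x j = s + -(x i + x j) := by abel
      rw [this, fourier_apply, fourier_apply, fourier_apply, smul_add, AddCircle.toCircle_add,
        smul_neg, neg_smul, Circle.coe_mul]
    have e3 : fourier (J : ℤ) (x i + x j) * fourier (-((J : ℤ) + a)) (x i + x j) =
        fourier (-(a : ℤ)) (x i + x j) := by
      rw [← fourier_add]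
      congr 2
      ring
    rw [e1, e2, ← e3]
    ring
  rw [h, norm_mul, fourier_nrm, one_mul]

/-- the function which measures whether the polynomial is large -/
def GG (ε η : ℝ) (J n : ℕ) (x : ι → UnitAddCircle) (u : UnitAddCircle) : ℝ :=
  min (‖FF ε J n x u‖ / η) 1

theorem GG_cont (ε η : ℝ) (J n : ℕ) :
    Continuous fun p : (ι → UnitAddCircle) × UnitAddCircle => GG ε η J n p.1 p.2 := by
  unfold GG
  have := FF_cont (ι := ι) ε J n
  fun_prop

theorem FF_cont' (ε : ℝ) (J n : ℕ) {α : Type*} [TopologicalSpace α]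
    {h : α → (ι → UnitAddCircle)} {k : α → UnitAddCircle} (hh : Continuous h)
    (hk : Continuous k) : Continuous fun x => FF ε J n (h x) (k x) := by
  unfold FF
  have := ff_cont (ι := ι) ε
  fun_prop

theorem GG_cont' (ε η : ℝ) (J n : ℕ) {α : Type*} [TopologicalSpace α]
    {h : α → (ι → UnitAddCircle)} {k : α → UnitAddCircle} (hh : Continuous h)
    (hk : Continuous k) : Continuous fun x => GG ε η J n (h x) (k x) := by
  unfold GG
  have := FF_cont' (ι := ι) ε J n hh hk
  fun_prop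

theorem GG_le (ε η : ℝ) (J n : ℕ) (x : ι → UnitAddCircle) (u : UnitAddCircle) :
    GG ε η J n x u ≤ 1 := min_le_right _ _

theorem GG_nonneg {ε η : ℝ} (hη : 0 < η) (J n : ℕ) (x : ι → UnitAddCircle) (u : UnitAddCircle) :
    0 ≤ GG ε η J n x u := le_min (by positivity) zero_le_one

variable [DecidableEq ι]

omit [DecidableEq ι] in
theorem cf_norm_le (ε : ℝ) (i j : ι) : ‖cf ε i j‖ ≤ 1 := by
  apply norm_int_le
  intro x
  rw [norm_mul, chi_norm]
  unfold ff
  rw [ph_norm, one_mul]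

omit [Fintype ι] [DecidableEq ι] in
theorem pw {F η Z : ℝ} (hη : 0 < η) (h : 2 * η - Z ≤ F) :
    1 - min (F / η) 1 ≤ Z ^ 2 * (1 / (4 * η ^ 2)) := by
  rcases le_total 1 (F / η) with h6 | h6
  · rw [min_eq_right h6, sub_self]
    positivity
  · rw [min_eq_left h6]
    have h7 : (2 * η - Z) / η ≤ F / η := by gcongr
    have h8 : (2 * η - Z) / η = 2 - Z / η := by field_simp
    have h9 : Z ^ 2 * (1 / (4 * η ^ 2)) = (Z / η) ^ 2 / 4 := by field_simp
    rw [h9]
    nlinarith [sq_nonneg (Z / η - 2)]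

omit [DecidableEq ι] in
theorem two_eta (ε : ℝ) {η : ℝ} {n : ℕ} (hn : 0 < n) (i j : ι)
    (hc : 4 * η ≤ ‖cf ε i j‖ * n) (J : ℕ) {s : UnitAddCircle} (hs : ‖s‖ ≤ 1 / (8 * n))
    (x : ι → UnitAddCircle) :
    2 * η - ‖∑ a ∈ Finset.range n, (ff ε ((J + a) • x) * chi i j ((J + a) • x) - cf ε i j) *
      fourier (a : ℤ) s‖ ≤ ‖FF ε J n x (s - x i - x j)‖ := by
  rw [FF_peak]
  have e1 : ∑ a ∈ Finset.range n, ff ε ((J + a) • x) * chi i j ((J + a) • x) *
      fourier (a : ℤ) s = cf ε i j * ∑ a ∈ Finset.range n, fourier (a : ℤ) s +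
      ∑ a ∈ Finset.range n, (ff ε ((J + a) • x) * chi i j ((J + a) • x) - cf ε i j) *
        fourier (a : ℤ) s := by
    rw [Finset.mul_sum, ← Finset.sum_add_distrib]
    refine Finset.sum_congr rfl fun a _ => ?_
    ring
  rw [e1]
  have h3 := geo_near hn hs
  have h4 : 2 * η ≤ ‖cf ε i j * ∑ a ∈ Finset.range n, fourier (a : ℤ) s‖ := by
    rw [norm_mul]
    have := mul_le_mul_of_nonneg_left h3 (norm_nonneg (cf ε i j))
    linarith
  have h5 := norm_sub_le_norm_add (cf ε i j * ∑ a ∈ Finset.range n, fourier (a : ℤ) s)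
    (∑ a ∈ Finset.range n, (ff ε ((J + a) • x) * chi i j ((J + a) • x) - cf ε i j) *
      fourier (a : ℤ) s)
  linarith

omit [DecidableEq ι] in
/-- **near a peak** the polynomial is large for most `x` -/
theorem near_peak (ε : ℝ) {η : ℝ} (hη : 0 < η) {n : ℕ} (hn : 0 < n) (i j : ι)
    (hc : 4 * η ≤ ‖cf ε i j‖ * n) :
    ∀ᶠ J : ℕ in atTop, ∀ s : UnitAddCircle, ‖s‖ ≤ 1 / (8 * n) →
      ∫ x, (1 - GG ε η J n x (s - x i - x j)) ∂(mu ι) ≤ 5 * n / (4 * η ^ 2) := by
  have hff := ff_cont (ι := ι) ε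
  have hchi := chi_cont (ι := ι) i j
  obtain ⟨g, hgd⟩ : ∃ g : C(ι → UnitAddCircle, ℂ), ∀ x, g x = ff ε x * chi i j x - cf ε i j :=
    ⟨⟨fun x => ff ε x * chi i j x - cf ε i j, by fun_prop⟩, fun _ => rfl⟩
  have hg0 : ∫ x, g x ∂(mu ι) = 0 := by
    simp_rw [hgd]
    rw [integral_sub (integ (by fun_prop)) (integ (by fun_prop))]
    simp [cf]
  have hg : ∀ x, ‖g x‖ ≤ 2 := by
    intro x
    rw [hgd]
    refine (norm_sub_le _ _).trans ?_
    rw [norm_mul, chi_norm]
    have h1 : ‖ff ε x‖ = 1 := ph_norm _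
    rw [h1]
    have := cf_norm_le ε i j
    linarith
  filter_upwards [second g hg0 hg hn] with J hJ s hs
  have h1 := hJ (fun a => fourier (a : ℤ) s) (fun a => (fourier_nrm _ _).le)
  have hgc : Continuous fun x : ι → UnitAddCircle =>
      ‖∑ a ∈ Finset.range n, g ((J + a) • x) * fourier (a : ℤ) s‖ ^ 2 := by
    fun_prop
  have hGc : Continuous fun x : ι → UnitAddCircle => 1 - GG ε η J n x (s - x i - x j) :=
    continuous_const.sub (GG_cont' ε η J n continuous_id
      (by fun_prop : Continuous fun x : ι → UnitAddCircle => s - x i - x j))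
  have hpw : ∀ x, 1 - GG ε η J n x (s - x i - x j) ≤
      ‖∑ a ∈ Finset.range n, g ((J + a) • x) * fourier (a : ℤ) s‖ ^ 2 * (1 / (4 * η ^ 2)) := by
    intro x
    simp_rw [hgd]
    exact pw hη (two_eta ε hn i j hc J hs x)
  have h2 : ∫ x, (1 - GG ε η J n x (s - x i - x j)) ∂(mu ι) ≤
      ∫ x, ‖∑ a ∈ Finset.range n, g ((J + a) • x) * fourier (a : ℤ) s‖ ^ 2 *
        (1 / (4 * η ^ 2)) ∂(mu ι) :=
    integral_mono (integ hGc) (integ (hgc.mul continuous_const)) hpw
  rw [integral_mul_const] at h2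
  refine h2.trans ?_
  have h3 : (∫ x, ‖∑ a ∈ Finset.range n, g ((J + a) • x) * fourier (a : ℤ) s‖ ^ 2 ∂(mu ι)) *
      (1 / (4 * η ^ 2)) ≤ (5 * n) * (1 / (4 * η ^ 2)) :=
    mul_le_mul_of_nonneg_right h1 (by positivity)
  refine h3.trans (le_of_eq ?_)
  rw [mul_one_div]

end

end

end Pool.Agent.Q203.TR
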