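import Mathlib
import Pool.Agent.Q203.TR.A4

/-!
# The polynomial with the truncated coefficients is large on a set of positive measure
-/

set_option autoImplicit false

open MeasureTheory Filter Topology Complex

namespace Pool.Agent.Q203.TR

noncomputable section

/-- tent function -/
def KK (n : ℕ) (s : UnitAddCircle) : ℝ := max 0 (1 - 8 * n * ‖s‖)

theorem KK_cont (n : ℕ) : Continuous (KK n) := by
  unfold KK
  fun_prop

theorem KK_nonneg (n : ℕ) (s : UnitAddCircle) : 0 ≤ KK n s := le_max_left _ _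

theorem KK_le (n : ℕ) (s : UnitAddCircle) : KK n s ≤ 1 := by
  unfold KK
  refine max_le zero_le_one ?_
  have : (0 : ℝ) ≤ 8 * n * ‖s‖ := by positivity
  linarith

theorem KK_zero {n : ℕ} (hn : 0 < n) {s : UnitAddCircle} (hs : ¬ ‖s‖ ≤ 1 / (8 * n)) :
    KK n s = 0 := by
  have hnR : (0 : ℝ) < n := by exact_mod_cast hn
  unfold KK
  apply max_eq_left
  push Not at hs
  rw [div_lt_iff₀ (by positivity)] at hs
  linarith

theorem ball_meas (r : ℝ) (hr : 0 ≤ r) (hr1 : 2 * r ≤ 1) :
    hc.real (Metric.closedBall (0 : UnitAddCircle) r) = 2 * r := by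
  have h1 := AddCircle.volume_closedBall (T := 1) (x := (0 : UnitAddCircle)) r
  rw [AddCircle.volume_eq_smul_haarAddCircle, ENNReal.ofReal_one, one_smul] at h1
  unfold Measure.real
  rw [h1, min_eq_right hr1, ENNReal.toReal_ofReal (by positivity)]

/-- the integral of the tent function -/
def kap (n : ℕ) : ℝ := ∫ s, KK n s ∂hc

theorem kap_le {n : ℕ} (hn : 0 < n) : kap n ≤ 1 / (4 * n) := by
  have hnR : (1 : ℝ) ≤ n := by exact_mod_cast hn
  have h1 : ∀ s, KK n s ≤ Set.indicator (Metric.closedBall (0 : UnitAddCircle) (1 / (8 * n)))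
      (fun _ => (1 : ℝ)) s := by
    intro s
    by_cases hs : ‖s‖ ≤ 1 / (8 * n)
    · rw [Set.indicator_of_mem (by rwa [mem_closedBall_zero_iff])]
      exact KK_le n s
    · rw [KK_zero hn hs, Set.indicator_of_notMem (by rwa [mem_closedBall_zero_iff])]
  have hm : MeasurableSet (Metric.closedBall (0 : UnitAddCircle) (1 / (8 * n))) :=
    Metric.isClosed_closedBall.measurableSet
  have h2 : kap n ≤ ∫ s, (Set.indicator (Metric.closedBall (0 : UnitAddCircle) (1 / (8 * n)))
      (fun _ => (1 : ℝ)) s) ∂hc :=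
    integral_mono (integc (KK_cont n)) ((integrable_const 1).indicator hm) h1
  refine h2.trans (le_of_eq ?_)
  rw [integral_indicator_const _ hm, ball_meas _ (by positivity) (by
    rw [mul_one_div, div_le_one (by positivity)]
    linarith)]
  rw [smul_eq_mul, mul_one]
  field_simp
  norm_num

theorem kap_ge {n : ℕ} (hn : 0 < n) : 1 / (16 * n) ≤ kap n := by
  have hnR : (1 : ℝ) ≤ n := by exact_mod_cast hn
  have h1 : ∀ s, Set.indicator (Metric.closedBall (0 : UnitAddCircle) (1 / (16 * n)))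
      (fun _ => (1 / 2 : ℝ)) s ≤ KK n s := by
    intro s
    by_cases hs : ‖s‖ ≤ 1 / (16 * n)
    · rw [Set.indicator_of_mem (by rwa [mem_closedBall_zero_iff])]
      unfold KK
      apply le_max_of_le_right
      rw [le_div_iff₀ (by positivity)] at hs
      linarith
    · rw [Set.indicator_of_notMem (by rwa [mem_closedBall_zero_iff])]
      exact KK_nonneg n s
  have hm : MeasurableSet (Metric.closedBall (0 : UnitAddCircle) (1 / (16 * n))) :=
    Metric.isClosed_closedBall.measurableSet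
  have h2 : ∫ s, (Set.indicator (Metric.closedBall (0 : UnitAddCircle) (1 / (16 * n)))
      (fun _ => (1 / 2 : ℝ)) s) ∂hc ≤ kap n :=
    integral_mono ((integrable_const _).indicator hm) (integc (KK_cont n)) h1
  refine le_trans (le_of_eq ?_) h2
  rw [integral_indicator_const _ hm, ball_meas _ (by positivity) (by
    rw [mul_one_div, div_le_one (by positivity)]
    linarith)]
  rw [smul_eq_mul]
  field_simp

theorem kap_shift (n : ℕ) (v : UnitAddCircle) : ∫ s, KK n (s + v) ∂hc = kap n :=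
  shiftc _ v

theorem kap_shift' (n : ℕ) (v : UnitAddCircle) : ∫ s, KK n (v + s) ∂hc = kap n := by
  rw [← kap_shift n v]
  congr 1
  ext s
  rw [add_comm]

section

variable {ι : Type} [Fintype ι]

/-- the product measure -/
abbrev PP (ι : Type) [Fintype ι] : Measure ((ι → UnitAddCircle) × UnitAddCircle) :=
  (mu ι).prod hc

theorem integP {E : Type*} [NormedAddCommGroup E] {f : (ι → UnitAddCircle) × UnitAddCircle → E}
    (hf : Continuous f) : Integrable f (PP ι) :=
  hf.integrable_of_hasCompactSupport (HasCompactSupport.of_compactSpace f)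

theorem xu {f : (ι → UnitAddCircle) × UnitAddCircle → ℝ} (hf : Continuous f) :
    ∫ p, f p ∂(PP ι) = ∫ x, ∫ u, f (x, u) ∂hc ∂(mu ι) :=
  integral_prod _ (integP hf)

theorem ux {f : (ι → UnitAddCircle) × UnitAddCircle → ℝ} (hf : Continuous f) :
    ∫ p, f p ∂(PP ι) = ∫ u, ∫ x, f (x, u) ∂(mu ι) ∂hc :=
  integral_prod_symm _ (integP hf)

variable [DecidableEq ι]

/-- averaging over one coordinate -/
theorem avg (n : ℕ) (i : ι) {A : (ι → UnitAddCircle) → ℝ} (hA : Continuous A)
    (hA1 : ∀ x τ, A (x + Pi.single i τ) = A x) {c : (ι → UnitAddCircle) → UnitAddCircle}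
    (hc1 : Continuous c) (hc2 : ∀ x τ, c (x + Pi.single i τ) = c x) :
    ∫ x, A x * KK n (c x + x i) ∂(mu ι) = kap n * ∫ x, A x ∂(mu ι) := by
  have hK := KK_cont n
  have h1 : ∀ τ : UnitAddCircle, ∫ x, A x * KK n (c x + x i) ∂(mu ι) =
      ∫ x, A x * KK n (c x + x i + τ) ∂(mu ι) := by
    intro τ
    rw [← shift _ (Pi.single i τ)]
    congr 1
    ext x
    rw [hA1, hc2, Pi.add_apply, Pi.single_eq_same, add_assoc]
  have hcont : Continuous fun p : (ι → UnitAddCircle) × UnitAddCircle =>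
      A p.1 * KK n (c p.1 + p.1 i + p.2) := by fun_prop
  calc ∫ x, A x * KK n (c x + x i) ∂(mu ι)
      = ∫ _τ : UnitAddCircle, ∫ x, A x * KK n (c x + x i) ∂(mu ι) ∂hc := by simp
    _ = ∫ τ, ∫ x, A x * KK n (c x + x i + τ) ∂(mu ι) ∂hc := by
        congr 1
        ext τ
        exact h1 τ
    _ = ∫ p, A p.1 * KK n (c p.1 + p.1 i + p.2) ∂(PP ι) := (ux hcont).symm
    _ = ∫ x, ∫ τ, A x * KK n (c x + x i + τ) ∂hc ∂(mu ι) := xu hcont
    _ = ∫ x, kap n * A x ∂(mu ι) := by
        congr 1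
        ext x
        rw [integral_const_mul, kap_shift', mul_comm]
    _ = kap n * ∫ x, A x ∂(mu ι) := integral_const_mul _ _

theorem avg1 (n : ℕ) (i : ι) {c : (ι → UnitAddCircle) → UnitAddCircle}
    (hc1 : Continuous c) (hc2 : ∀ x τ, c (x + Pi.single i τ) = c x) :
    ∫ x, KK n (c x + x i) ∂(mu ι) = kap n := by
  have h := avg n i (A := fun _ => (1 : ℝ)) continuous_const (fun _ _ => rfl) hc1 hc2
  simpa using h

/-- independence of two peaks -/
theorem indep (n : ℕ) (u : UnitAddCircle) {i j i' j' : ι} (h1 : j' ≠ i) (h2 : j' ≠ j)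
    (h3 : j' ≠ i') (hij : i ≠ j) :
    ∫ x, KK n (u + x i + x j) * KK n (u + x i' + x j') ∂(mu ι) = kap n ^ 2 := by
  have hK := KK_cont n
  rw [avg n j' (A := fun x => KK n (u + x i + x j)) (by fun_prop) (fun x τ => by
    rw [Pi.add_apply, Pi.add_apply, Pi.single_eq_of_ne h1.symm, Pi.single_eq_of_ne h2.symm,
      add_zero, add_zero]) (c := fun x => u + x i') (by fun_prop) (fun x τ => by
    rw [Pi.add_apply, Pi.single_eq_of_ne h3.symm, add_zero])]
  rw [avg1 n j (c := fun x => u + x i) (by fun_prop) (fun x τ => by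
    rw [Pi.add_apply, Pi.single_eq_of_ne hij, add_zero])]
  ring

theorem indep' (n : ℕ) (u : UnitAddCircle) {i j i' j' : ι} (h1 : i' ≠ i) (h2 : i' ≠ j)
    (h3 : i' ≠ j') (hij : i ≠ j) :
    ∫ x, KK n (u + x i + x j) * KK n (u + x i' + x j') ∂(mu ι) = kap n ^ 2 := by
  rw [← indep n u h1 h2 h3 hij (i' := j') (j' := i')]
  congr 1
  ext x
  have : u + x i' + x j' = u + x j' + x i' := by abel
  rw [this]

end

section

variable {m : ℕ}

/-- the index set -/
abbrev Idx (m : ℕ) : Type := Fin m ⊕ Fin m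

/-- the tent function of one pair -/
def Kp (n : ℕ) (p : Fin m × Fin m) (z : (Idx m → UnitAddCircle) × UnitAddCircle) : ℝ :=
  KK n (z.2 + z.1 (Sum.inl p.1) + z.1 (Sum.inr p.2))

theorem Kp_cont (n : ℕ) (p : Fin m × Fin m) : Continuous (Kp n p) := by
  unfold Kp
  have := KK_cont n
  fun_prop

theorem Kp_int (n : ℕ) (p : Fin m × Fin m) : ∫ z, Kp n p z ∂(PP (Idx m)) = kap n := by
  rw [xu (Kp_cont n p)]
  have h : ∀ x : Idx m → UnitAddCircle, ∫ u, Kp n p (x, u) ∂hc = kap n := by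
    intro x
    unfold Kp
    simp only [add_assoc]
    exact kap_shift n _
  simp_rw [h]
  simp

theorem Kp_sq (n : ℕ) (p p' : Fin m × Fin m) :
    ∫ z, Kp n p z * Kp n p' z ∂(PP (Idx m)) ≤ (if p = p' then kap n else 0) + kap n ^ 2 := by
  have hc1 := Kp_cont n p
  have hc2 := Kp_cont n p'
  split_ifs with h
  · subst h
    have h1 : ∫ z, Kp n p z * Kp n p z ∂(PP (Idx m)) ≤ kap n := by
      rw [← Kp_int n p]
      refine integral_mono (integP (by fun_prop)) (integP hc1) fun z => ?_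
      simp only
      unfold Kp
      exact mul_le_of_le_one_left (KK_nonneg _ _) (KK_le _ _)
    have := sq_nonneg (kap n)
    linarith
  · rw [zero_add, ux (by fun_prop)]
    have h1 : ∀ u : UnitAddCircle, ∫ x, Kp n p (x, u) * Kp n p' (x, u) ∂(mu (Idx m)) =
        kap n ^ 2 := by
      intro u
      unfold Kp
      simp only
      by_cases h2 : p.2 = p'.2
      · have h3 : p'.1 ≠ p.1 := fun h3 => h (Prod.ext h3.symm h2)
        exact indep' n u (fun e => h3 (Sum.inl_injective e)) Sum.inl_ne_inr Sum.inl_ne_inr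
          Sum.inl_ne_inr
      · have h3 : p'.2 ≠ p.2 := fun h3 => h2 h3.symm
        exact indep n u Sum.inr_ne_inl (fun e => h3 (Sum.inr_injective e)) Sum.inr_ne_inl
          Sum.inl_ne_inr
    simp_rw [h1]
    simp

/-- the number of peaks -/
def ww (n : ℕ) (z : (Idx m → UnitAddCircle) × UnitAddCircle) : ℝ := ∑ p, Kp n p z

theorem ww_cont (n : ℕ) : Continuous (ww (m := m) n) := by
  unfold ww
  exact continuous_finsetSum _ fun p _ => Kp_cont n p

theorem ww_int (n : ℕ) : ∫ z, ww n z ∂(PP (Idx m)) = (m : ℝ) ^ 2 * kap n := by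
  unfold ww
  rw [integral_finsetSum _ fun p _ => integP (Kp_cont n p)]
  simp_rw [Kp_int]
  rw [Finset.sum_const, Finset.card_univ, Fintype.card_prod, Fintype.card_fin, nsmul_eq_mul]
  push_cast
  ring

theorem ww_sq (n : ℕ) : ∫ z, ww n z ^ 2 ∂(PP (Idx m)) ≤
    (m : ℝ) ^ 2 * kap n + ((m : ℝ) ^ 2 * kap n) ^ 2 := by
  have e : ∀ z : (Idx m → UnitAddCircle) × UnitAddCircle,
      ww n z ^ 2 = ∑ p, ∑ p', Kp n p z * Kp n p' z := by
    intro z
    unfold ww
    rw [sq, Finset.sum_mul_sum]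
  simp_rw [e]
  have cc : ∀ p p' : Fin m × Fin m, Continuous fun z : (Idx m → UnitAddCircle) × UnitAddCircle =>
      Kp n p z * Kp n p' z := fun p p' => (Kp_cont n p).mul (Kp_cont n p')
  rw [integral_finsetSum _ fun p _ => integP (f := fun z => ∑ p', Kp n p z * Kp n p' z)
    (continuous_finsetSum _ fun p' _ => cc p p')]
  calc ∑ p, ∫ z, ∑ p', Kp n p z * Kp n p' z ∂(PP (Idx m))
      = ∑ p : Fin m × Fin m, ∑ p' : Fin m × Fin m, ∫ z, Kp n p z * Kp n p' z ∂(PP (Idx m)) := by
        refine Finset.sum_congr rfl fun p _ => ?_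
        rw [integral_finsetSum _ fun p' _ => integP (cc p p')]
    _ ≤ ∑ p : Fin m × Fin m, ∑ p' : Fin m × Fin m, ((if p = p' then kap n else 0) +
        kap n ^ 2) := Finset.sum_le_sum fun p _ => Finset.sum_le_sum fun p' _ => Kp_sq n p p'
    _ = ∑ p : Fin m × Fin m, (kap n + (m : ℝ) ^ 2 * kap n ^ 2) := by
        refine Finset.sum_congr rfl fun p _ => ?_
        rw [Finset.sum_add_distrib, Finset.sum_ite_eq, if_pos (Finset.mem_univ _),
          Finset.sum_const, Finset.card_univ, Fintype.card_prod, Fintype.card_fin, nsmul_eq_mul]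
        push_cast
        ring
    _ = (m : ℝ) ^ 2 * kap n + ((m : ℝ) ^ 2 * kap n) ^ 2 := by
        rw [Finset.sum_const, Finset.card_univ, Fintype.card_prod, Fintype.card_fin, nsmul_eq_mul]
        push_cast
        ring

/-- the loss -/
theorem loss {ε η q : ℝ} {J n : ℕ} (hn : 0 < n) (hη : 0 < η) (p : Fin m × Fin m)
    (hq : ∀ s : UnitAddCircle, ‖s‖ ≤ 1 / (8 * n) →
      ∫ x : Idx m → UnitAddCircle, (1 - GG ε η J n x (s - x (Sum.inl p.1) - x (Sum.inr p.2)))
        ∂(mu (Idx m)) ≤ q) :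
    ∫ z, Kp n p z * (1 - GG ε η J n z.1 z.2) ∂(PP (Idx m)) ≤ kap n * q := by
  have hK := KK_cont n
  have hKp := Kp_cont n p
  have hG : Continuous fun z : (Idx m → UnitAddCircle) × UnitAddCircle =>
    GG ε η J n z.1 z.2 := GG_cont' ε η J n continuous_fst continuous_snd
  have hG2 : Continuous fun z : (Idx m → UnitAddCircle) × UnitAddCircle =>
    GG ε η J n z.1 (z.2 - z.1 (Sum.inl p.1) - z.1 (Sum.inr p.2)) :=
    GG_cont' ε η J n continuous_fst (by fun_prop)
  have hF0 : Continuous fun z : (Idx m → UnitAddCircle) × UnitAddCircle =>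
    Kp n p z * (1 - GG ε η J n z.1 z.2) := hKp.mul (continuous_const.sub hG)
  rw [xu hF0]
  have h1 : ∀ x : Idx m → UnitAddCircle, ∫ u, Kp n p (x, u) * (1 - GG ε η J n x u) ∂hc =
      ∫ s, KK n s * (1 - GG ε η J n x (s - x (Sum.inl p.1) - x (Sum.inr p.2))) ∂hc := by
    intro x
    rw [← shiftc _ (-(x (Sum.inl p.1) + x (Sum.inr p.2)))]
    congr 1
    ext s
    unfold Kp
    simp only
    have e1 : s + -(x (Sum.inl p.1) + x (Sum.inr p.2)) + x (Sum.inl p.1) + x (Sum.inr p.2) =
      s := by abel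
    have e2 : s + -(x (Sum.inl p.1) + x (Sum.inr p.2)) =
      s - x (Sum.inl p.1) - x (Sum.inr p.2) := by abel
    rw [e1, e2]
  simp_rw [h1]
  have hF : Continuous fun z : (Idx m → UnitAddCircle) × UnitAddCircle => KK n z.2 *
      (1 - GG ε η J n z.1 (z.2 - z.1 (Sum.inl p.1) - z.1 (Sum.inr p.2))) := by fun_prop
  have h2 := xu hF
  simp only at h2
  rw [← h2, ux hF]
  simp only
  have h3 : ∀ s : UnitAddCircle, ∫ x : Idx m → UnitAddCircle, KK n s *
      (1 - GG ε η J n x (s - x (Sum.inl p.1) - x (Sum.inr p.2))) ∂(mu (Idx m)) ≤ KK n s * q := by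
    intro s
    rw [integral_const_mul]
    by_cases hs : ‖s‖ ≤ 1 / (8 * n)
    · exact mul_le_mul_of_nonneg_left (hq s hs) (KK_nonneg n s)
    · rw [KK_zero hn hs, zero_mul, zero_mul]
  have h4 : Integrable (fun s : UnitAddCircle => ∫ x : Idx m → UnitAddCircle, KK n s *
      (1 - GG ε η J n x (s - x (Sum.inl p.1) - x (Sum.inr p.2))) ∂(mu (Idx m))) hc :=
    (integP hF).integral_prod_right
  refine (integral_mono h4 (integc (by fun_prop)) h3).trans (le_of_eq ?_)
  rw [integral_mul_const]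
  rfl

/-- **lower bound for the average of `G`** -/
theorem GG_int {ε η q : ℝ} {J n : ℕ} (hn : 0 < n) (hη : 0 < η)
    (hq : ∀ (p : Fin m × Fin m) (s : UnitAddCircle), ‖s‖ ≤ 1 / (8 * n) →
      ∫ x : Idx m → UnitAddCircle, (1 - GG ε η J n x (s - x (Sum.inl p.1) - x (Sum.inr p.2)))
        ∂(mu (Idx m)) ≤ q) :
    2 / 3 * ((m : ℝ) ^ 2 * kap n * (1 - q)) - 1 / 9 * ((m : ℝ) ^ 2 * kap n +
      ((m : ℝ) ^ 2 * kap n) ^ 2) ≤
      ∫ z : (Idx m → UnitAddCircle) × UnitAddCircle, GG ε η J n z.1 z.2 ∂(PP (Idx m)) := by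
  have hG : Continuous fun z : (Idx m → UnitAddCircle) × UnitAddCircle =>
    GG ε η J n z.1 z.2 := GG_cont' ε η J n continuous_fst continuous_snd
  have hw := ww_cont (m := m) n
  have h1 : ∀ z : (Idx m → UnitAddCircle) × UnitAddCircle,
      2 / 3 * (ww n z - ww n z * (1 - GG ε η J n z.1 z.2)) - 1 / 9 * ww n z ^ 2 ≤
        GG ε η J n z.1 z.2 := by
    intro z
    have a1 := GG_le ε η J n z.1 z.2
    have a2 := GG_nonneg (ε := ε) hη J n z.1 z.2
    have a3 : 0 ≤ GG ε η J n z.1 z.2 * (1 - ww n z / 3) ^ 2 := by positivity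
    have a4 : 0 ≤ (1 - GG ε η J n z.1 z.2) * ww n z ^ 2 :=
      mul_nonneg (by linarith) (sq_nonneg _)
    nlinarith
  have h2 : ∫ z, ww n z * (1 - GG ε η J n z.1 z.2) ∂(PP (Idx m)) ≤ (m : ℝ) ^ 2 * kap n * q := by
    have e : ∀ z : (Idx m → UnitAddCircle) × UnitAddCircle, ww n z * (1 - GG ε η J n z.1 z.2) =
        ∑ p, Kp n p z * (1 - GG ε η J n z.1 z.2) := by
      intro z
      unfold ww
      rw [Finset.sum_mul]
    simp_rw [e]
    have cc : ∀ p : Fin m × Fin m, Continuous fun z : (Idx m → UnitAddCircle) × UnitAddCircle =>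
      Kp n p z * (1 - GG ε η J n z.1 z.2) := fun p => (Kp_cont n p).mul (continuous_const.sub hG)
    rw [integral_finsetSum _ fun p _ => integP (cc p)]
    refine (Finset.sum_le_sum fun p _ => loss hn hη p (hq p)).trans (le_of_eq ?_)
    rw [Finset.sum_const, Finset.card_univ, Fintype.card_prod, Fintype.card_fin, nsmul_eq_mul]
    push_cast
    ring
  have h3 := ww_sq (m := m) n
  have h4 := ww_int (m := m) n
  have c1 : Continuous fun z : (Idx m → UnitAddCircle) × UnitAddCircle =>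
      ww n z * (1 - GG ε η J n z.1 z.2) := by fun_prop
  calc 2 / 3 * ((m : ℝ) ^ 2 * kap n * (1 - q)) - 1 / 9 * ((m : ℝ) ^ 2 * kap n +
      ((m : ℝ) ^ 2 * kap n) ^ 2)
      ≤ 2 / 3 * (∫ z, ww n z ∂(PP (Idx m)) -
          ∫ z, ww n z * (1 - GG ε η J n z.1 z.2) ∂(PP (Idx m))) -
        1 / 9 * ∫ z, ww n z ^ 2 ∂(PP (Idx m)) := by
        rw [h4]
        nlinarith
    _ = ∫ z, (2 / 3 * (ww n z - ww n z * (1 - GG ε η J n z.1 z.2)) - 1 / 9 * ww n z ^ 2)
          ∂(PP (Idx m)) := by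
        rw [integral_sub (integP (by fun_prop)) (integP (by fun_prop)), integral_const_mul,
          integral_const_mul, integral_sub (integP hw) (integP c1)]
    _ ≤ _ := integral_mono (integP (by fun_prop)) (integP hG) h1

end

end

end Pool.Agent.Q203.TR
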