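import Mathlib
import Pool.Agent.Q203.TR.A5

/-!
# The polynomial before the truncation
-/

set_option autoImplicit false

open MeasureTheory Filter Topology Complex

namespace Pool.Agent.Q203.TR

noncomputable section

/-- Dirichlet kernel -/
def DD (n : ℕ) (u : UnitAddCircle) : ℂ := ∑ a ∈ Finset.range n, fourier (a : ℤ) u

theorem DD_cont (n : ℕ) : Continuous (DD n) := by
  unfold DD
  fun_prop

theorem int_c (f : UnitAddCircle → ℝ) : ∫ u, f u ∂hc = ∫ t in (0 : ℝ)..1, f (t : UnitAddCircle) := by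
  have h1 := AddCircle.integral_haarAddCircle (T := 1) (f := f)
  have h2 := UnitAddCircle.intervalIntegral_preimage 0 f
  rw [zero_add] at h2
  rw [h1, h2, inv_one, one_smul]

theorem DD_le (n : ℕ) (u : UnitAddCircle) : ‖DD n u‖ ≤ n := by
  unfold DD
  refine (norm_sum_le _ _).trans ?_
  simp_rw [fourier_nrm]
  simp

theorem one_sub_ge {t : ℝ} (h0 : 0 ≤ t) (h1 : t ≤ 1) :
    2 * min t (1 - t) ≤ ‖1 - fourier 1 (t : UnitAddCircle)‖ := by
  have e : fourier 1 (t : UnitAddCircle) = Complex.exp (I * ((2 * Real.pi * t : ℝ) : ℂ)) := by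
    rw [fourier_coe_apply]
    congr 1
    push_cast
    ring
  rw [e, norm_sub_rev, Complex.norm_exp_I_mul_ofReal_sub_one]
  have e2 : 2 * Real.pi * t / 2 = Real.pi * t := by ring
  rw [e2, Real.norm_eq_abs, abs_mul, abs_two]
  have hpi := Real.pi_pos
  have hs0 : 0 ≤ Real.sin (Real.pi * t) :=
    Real.sin_nonneg_of_nonneg_of_le_pi (by positivity) (by nlinarith)
  rw [abs_of_nonneg hs0]
  apply mul_le_mul_of_nonneg_left _ zero_le_two
  rcases le_total t (1 / 2) with h | h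
  · have h2 := Real.mul_le_sin (x := Real.pi * t) (by positivity) (by nlinarith)
    have h3 : 2 / Real.pi * (Real.pi * t) = 2 * t := by field_simp
    rw [h3] at h2
    have := min_le_left t (1 - t)
    linarith
  · have h2 := Real.mul_le_sin (x := Real.pi * (1 - t)) (mul_nonneg hpi.le (by linarith))
      (by nlinarith)
    have h3 : 2 / Real.pi * (Real.pi * (1 - t)) = 2 * (1 - t) := by field_simp
    have h4 : Real.sin (Real.pi * (1 - t)) = Real.sin (Real.pi * t) := by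
      rw [mul_sub, mul_one, Real.sin_pi_sub]
    rw [h3, h4] at h2
    have := min_le_right t (1 - t)
    linarith

theorem fourier_pow' (a : ℕ) (u : UnitAddCircle) : fourier (a : ℤ) u = (fourier 1 u) ^ a := by
  induction a with
  | zero => simp
  | succ a ih =>
    rw [pow_succ, ← ih, ← fourier_add]
    push_cast
    rfl

theorem DD_mul (n : ℕ) (u : UnitAddCircle) : ‖DD n u‖ * ‖1 - fourier 1 u‖ ≤ 2 := by
  have h1 : DD n u * (1 - fourier 1 u) = 1 - fourier 1 u ^ n := by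
    have h2 : DD n u = ∑ a ∈ Finset.range n, (fourier 1 u) ^ a := by
      unfold DD
      exact Finset.sum_congr rfl fun a _ => fourier_pow' a u
    rw [h2, mul_comm, mul_neg_geom_sum]
  rw [← norm_mul, h1]
  refine (norm_sub_le _ _).trans ?_
  rw [norm_pow, fourier_nrm]
  norm_num

theorem DD_pt (n : ℕ) {t : ℝ} (h0 : 0 < t) (h1 : t < 1) :
    ‖DD n (t : UnitAddCircle)‖ ≤ (n : ℝ) ^ (1 / 8 : ℝ) *
      (t ^ (-(7 / 8) : ℝ) + (1 - t) ^ (-(7 / 8) : ℝ)) := by
  set D := ‖DD n (t : UnitAddCircle)‖ with hD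
  have hD0 : 0 ≤ D := norm_nonneg _
  have h2 : D ≤ n := DD_le n _
  have h3 : D * min t (1 - t) ≤ 1 := by
    have h4 := DD_mul n (t : UnitAddCircle)
    have h5 := one_sub_ge h0.le h1.le
    have h6 : D * (2 * min t (1 - t)) ≤ 2 :=
      (mul_le_mul_of_nonneg_left h5 hD0).trans h4
    linarith
  have hs : D = D ^ (1 / 8 : ℝ) * D ^ (7 / 8 : ℝ) := by
    rcases hD0.eq_or_lt with h | h
    · rw [← h, Real.zero_rpow (by norm_num), zero_mul]
    · rw [← Real.rpow_add h]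
      norm_num
  have key : ∀ r : ℝ, 0 < r → D * r ≤ 1 → D ≤ (n : ℝ) ^ (1 / 8 : ℝ) * r ^ (-(7 / 8) : ℝ) := by
    intro r hr hr1
    have h7 : D ≤ r⁻¹ := by
      rw [← one_div, le_div_iff₀ hr]
      exact hr1
    calc D = D ^ (1 / 8 : ℝ) * D ^ (7 / 8 : ℝ) := hs
      _ ≤ (n : ℝ) ^ (1 / 8 : ℝ) * (r⁻¹) ^ (7 / 8 : ℝ) := by gcongr
      _ = _ := by rw [Real.inv_rpow hr.le, ← Real.rpow_neg hr.le]
  have hn0 : 0 ≤ (n : ℝ) ^ (1 / 8 : ℝ) := by positivity
  have ht0 : 0 ≤ t ^ (-(7 / 8) : ℝ) := by positivity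
  have ht1 : 0 ≤ (1 - t) ^ (-(7 / 8) : ℝ) := Real.rpow_nonneg (by linarith) _
  rcases le_total t (1 - t) with h | h
  · rw [min_eq_left h] at h3
    refine (key t h0 h3).trans (mul_le_mul_of_nonneg_left (by linarith) hn0)
  · rw [min_eq_right h] at h3
    refine (key (1 - t) (by linarith) h3).trans (mul_le_mul_of_nonneg_left (by linarith) hn0)

theorem DD_int (n : ℕ) : ∫ u, ‖DD n u‖ ∂hc ≤ 16 * (n : ℝ) ^ (1 / 8 : ℝ) := by
  rw [int_c]
  have i1 : IntervalIntegrable (fun t : ℝ => t ^ (-(7 / 8) : ℝ)) volume 0 1 :=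
    intervalIntegral.intervalIntegrable_rpow' (by norm_num)
  have i2 : IntervalIntegrable (fun t : ℝ => (1 - t) ^ (-(7 / 8) : ℝ)) volume 0 1 := by
    have := i1.comp_sub_left 1
    simpa using this.symm
  have e1 : ∫ t in (0 : ℝ)..1, t ^ (-(7 / 8) : ℝ) = 8 := by
    rw [integral_rpow (Or.inl (by norm_num))]
    norm_num
  have e2 : ∫ t in (0 : ℝ)..1, (1 - t) ^ (-(7 / 8) : ℝ) = 8 := by
    rw [intervalIntegral.integral_comp_sub_left (fun t : ℝ => t ^ (-(7 / 8) : ℝ)) 1]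
    simpa using e1
  have hc' := DD_cont n
  have hco : Continuous fun t : ℝ => ‖DD n (t : UnitAddCircle)‖ := by
    have : Continuous fun t : ℝ => (t : UnitAddCircle) := AddCircle.continuous_mk' 1
    fun_prop
  calc ∫ t in (0 : ℝ)..1, ‖DD n (t : UnitAddCircle)‖
      ≤ ∫ t in (0 : ℝ)..1, (n : ℝ) ^ (1 / 8 : ℝ) *
        (t ^ (-(7 / 8) : ℝ) + (1 - t) ^ (-(7 / 8) : ℝ)) := by
        refine intervalIntegral.integral_mono_on_of_le_Ioo zero_le_one
          (hco.intervalIntegrable _ _) ((i1.add i2).const_mul _) fun t ht => DD_pt n ht.1 ht.2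
    _ = 16 * (n : ℝ) ^ (1 / 8 : ℝ) := by
        rw [intervalIntegral.integral_const_mul, intervalIntegral.integral_add i1 i2, e1, e2]
        ring

/-- orthogonality -/
theorem orth (a b : ℕ) : ∫ u, fourier (a : ℤ) u * (starRingEnd ℂ) (fourier (b : ℤ) u) ∂hc =
    if a = b then 1 else 0 := by
  have e : ∀ u : UnitAddCircle, fourier (a : ℤ) u * (starRingEnd ℂ) (fourier (b : ℤ) u) =
      fourier ((a : ℤ) - b) u := by
    intro u
    rw [← fourier_neg, ← fourier_add, sub_eq_add_neg]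
  simp_rw [e]
  split_ifs with h
  · subst h
    simp
  · have hn : ((a : ℤ) - b) ≠ 0 := by omega
    exact integral_eq_zero_of_add_right_eq_neg (μ := hc)
      (fourier_add_half_inv_index hn one_pos)

/-- Parseval -/
theorem parseval (n : ℕ) (c : ℕ → ℂ) :
    ∫ u, ‖∑ a ∈ Finset.range n, c a * fourier (a : ℤ) u‖ ^ 2 ∂hc =
      ∑ a ∈ Finset.range n, ‖c a‖ ^ 2 := by
  apply Complex.ofReal_injective
  rw [← integral_complex_ofReal]
  simp_rw [exp_sq]
  rw [integral_finsetSum _ (fun a _ => integc (by fun_prop))]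
  push_cast
  refine Finset.sum_congr rfl fun a ha => ?_
  rw [integral_finsetSum _ (fun b _ => integc (by fun_prop))]
  rw [Finset.sum_eq_single_of_mem a ha]
  · have e : ∀ u : UnitAddCircle, c a * fourier (a : ℤ) u *
        (starRingEnd ℂ) (c a * fourier (a : ℤ) u) = (c a * (starRingEnd ℂ) (c a)) *
        (fourier (a : ℤ) u * (starRingEnd ℂ) (fourier (a : ℤ) u)) := by
      intro u
      rw [map_mul]
      ring
    simp_rw [e]
    rw [integral_const_mul, orth, if_pos rfl, mul_one, Complex.mul_conj']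
  · intro b _ hb
    have e : ∀ u : UnitAddCircle, c a * fourier (a : ℤ) u *
        (starRingEnd ℂ) (c b * fourier (b : ℤ) u) = (c a * (starRingEnd ℂ) (c b)) *
        (fourier (a : ℤ) u * (starRingEnd ℂ) (fourier (b : ℤ) u)) := by
      intro u
      rw [map_mul]
      ring
    simp_rw [e]
    rw [integral_const_mul, orth, if_neg hb.symm, mul_zero]

section

variable {ι : Type} [Fintype ι]

/-- the polynomial before the truncation -/
def QQ (ε : ℝ) (J n : ℕ) (x : ι → UnitAddCircle) (u : UnitAddCircle) : ℂ :=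
  ∑ a ∈ Finset.range n, (1 + I * ((ε * Y ((J + a) • x) : ℝ) : ℂ)) * fourier (a : ℤ) u

theorem QQ_cont' (ε : ℝ) (J n : ℕ) {α : Type*} [TopologicalSpace α]
    {h : α → (ι → UnitAddCircle)} {k : α → UnitAddCircle} (hh : Continuous h)
    (hk : Continuous k) : Continuous fun x => QQ ε J n (h x) (k x) := by
  unfold QQ
  have := Y_cont (ι := ι)
  fun_prop

theorem QQ_eq (ε : ℝ) (J n : ℕ) (x : ι → UnitAddCircle) (u : UnitAddCircle) :
    QQ ε J n x u = DD n u + I * ε * ∑ k, (fourier (J : ℤ) (x k) * DD n (u + x k) +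
      fourier (-(J : ℤ)) (x k) * DD n (u + -x k)) := by
  unfold QQ DD
  simp_rw [Finset.mul_sum, ← Finset.sum_add_distrib, Finset.mul_sum]
  rw [Finset.sum_comm, ← Finset.sum_add_distrib]
  refine Finset.sum_congr rfl fun a _ => ?_
  rw [← Finset.mul_sum]
  have e : ((Y ((J + a) • x) : ℝ) : ℂ) = ∑ k, (fourier ((J : ℤ) + a) (x k) +
      fourier (-((J : ℤ) + a)) (x k)) := by
    unfold Y
    rw [Complex.ofReal_sum]
    refine Finset.sum_congr rfl fun k _ => ?_
    rw [Pi.smul_apply, co_nsmul]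
    push_cast
    rfl
  push_cast
  rw [e, add_mul, one_mul, mul_assoc, mul_assoc, mul_assoc]
  congr 2
  rw [Finset.sum_mul]
  congr 1
  refine Finset.sum_congr rfl fun k _ => ?_
  have e1 : ∀ (v w : UnitAddCircle), fourier (a : ℤ) (v + w) = fourier (a : ℤ) v *
      fourier (a : ℤ) w := by
    intro v w
    rw [fourier_apply, fourier_apply, fourier_apply, smul_add, AddCircle.toCircle_add,
      Circle.coe_mul]
  have e2 : fourier (a : ℤ) (-x k) = fourier (-(a : ℤ)) (x k) := by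
    rw [fourier_apply, fourier_apply, smul_neg, neg_smul]
  rw [e1, e1, e2, neg_add, fourier_add, fourier_add]
  ring

theorem QQ_L1 {ε : ℝ} (hε : 0 ≤ ε) (J n : ℕ) (x : ι → UnitAddCircle) :
    ∫ u, ‖QQ ε J n x u‖ ∂hc ≤ (1 + 2 * Fintype.card ι * ε) * ∫ u, ‖DD n u‖ ∂hc := by
  have hD := DD_cont n
  have hQ : Continuous fun u => QQ ε J n x u := QQ_cont' ε J n continuous_const continuous_id
  have h1 : ∀ u, ‖QQ ε J n x u‖ ≤ ‖DD n u‖ + ε * ∑ k, (‖DD n (u + x k)‖ + ‖DD n (u + -x k)‖) := by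
    intro u
    rw [QQ_eq]
    refine (norm_add_le _ _).trans ?_
    rw [norm_mul, norm_mul, norm_I, one_mul, Complex.norm_real, Real.norm_of_nonneg hε]
    refine add_le_add le_rfl (mul_le_mul_of_nonneg_left ?_ hε)
    refine (norm_sum_le _ _).trans (Finset.sum_le_sum fun k _ => ?_)
    refine (norm_add_le _ _).trans ?_
    rw [norm_mul, norm_mul, fourier_nrm, fourier_nrm, one_mul, one_mul]
  calc ∫ u, ‖QQ ε J n x u‖ ∂hc
      ≤ ∫ u, (‖DD n u‖ + ε * ∑ k, (‖DD n (u + x k)‖ + ‖DD n (u + -x k)‖)) ∂hc :=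
        integral_mono (integc (by fun_prop)) (integc (by fun_prop)) h1
    _ = (1 + 2 * Fintype.card ι * ε) * ∫ u, ‖DD n u‖ ∂hc := by
        rw [integral_add (integc (by fun_prop)) (integc (by fun_prop)), integral_const_mul,
          integral_finsetSum _ (fun k _ => integc (by fun_prop))]
        have h2 : ∀ k : ι, ∫ u, (‖DD n (u + x k)‖ + ‖DD n (u + -x k)‖) ∂hc =
            2 * ∫ u, ‖DD n u‖ ∂hc := by
          intro k
          rw [integral_add (integc (by fun_prop)) (integc (by fun_prop)),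
            shiftc (fun u => ‖DD n u‖), shiftc (fun u => ‖DD n u‖)]
          ring
        simp_rw [h2]
        rw [Finset.sum_const, Finset.card_univ, nsmul_eq_mul]
        ring

theorem QQ_L2 (ε : ℝ) (J n : ℕ) (x : ι → UnitAddCircle) :
    ∫ u, ‖QQ ε J n x u‖ ^ 2 ∂hc =
      ∑ a ∈ Finset.range n, (1 + ε ^ 2 * (Y ((J + a) • x)) ^ 2) := by
  unfold QQ
  rw [parseval n (fun a => 1 + I * ((ε * Y ((J + a) • x) : ℝ) : ℂ))]
  refine Finset.sum_congr rfl fun a _ => ?_
  rw [norm_one_add, Real.sq_sqrt (by positivity)]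
  ring

/-- eventually the second moments are those of `Y` -/
theorem Y_ev [DecidableEq ι] (n : ℕ) : ∀ᶠ J : ℕ in atTop, ∀ a ∈ Finset.range n,
    ∫ x : ι → UnitAddCircle, (Y ((J + a) • x)) ^ 2 ∂(mu ι) ≤ 4 * Fintype.card ι + 1 := by
  have hY := Y_cont (ι := ι)
  rw [Filter.eventually_all_finset]
  intro a _
  obtain ⟨f, hfd⟩ : ∃ f : C(ι → UnitAddCircle, ℂ), ∀ x, f x = (((Y x) ^ 2 : ℝ) : ℂ) :=
    ⟨⟨fun x => (((Y x) ^ 2 : ℝ) : ℂ), by fun_prop⟩, fun _ => rfl⟩
  have h := decor (ι := ι) (a := a) (b := a + 1) (by omega) f 1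
  have e : ∀ J : ℕ, ∫ x, f ((J + a) • x) * (1 : C(ι → UnitAddCircle, ℂ)) ((J + (a + 1)) • x)
      ∂(mu ι) = ((∫ x, (Y ((J + a) • x)) ^ 2 ∂(mu ι) : ℝ) : ℂ) := by
    intro J
    rw [← integral_complex_ofReal]
    congr 1
    ext x
    rw [hfd, ContinuousMap.one_apply, mul_one]
  have e2 : (∫ x, f x ∂(mu ι)) * ∫ x, (1 : C(ι → UnitAddCircle, ℂ)) x ∂(mu ι) =
      ((∫ x, (Y x) ^ 2 ∂(mu ι) : ℝ) : ℂ) := by
    rw [← integral_complex_ofReal]
    simp_rw [hfd]
    simp
  simp_rw [e] at h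
  rw [e2] at h
  have h2 : Tendsto (fun J : ℕ => ∫ x : ι → UnitAddCircle, (Y ((J + a) • x)) ^ 2 ∂(mu ι)) atTop
      (𝓝 (∫ x, (Y x) ^ 2 ∂(mu ι))) := by
    have := (Complex.continuous_re.tendsto _).comp h
    simpa [Function.comp_def] using this
  have h3 := EY2 (ι := ι)
  filter_upwards [h2.eventually (ge_mem_nhds (by linarith :
    ∫ x, (Y x) ^ 2 ∂(mu ι) < 4 * Fintype.card ι + 1))] with J hJ
  exact hJ

theorem QQ_L2_avg [DecidableEq ι] {ε : ℝ} {J n : ℕ} (hJ : ∀ a ∈ Finset.range n,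
    ∫ x : ι → UnitAddCircle, (Y ((J + a) • x)) ^ 2 ∂(mu ι) ≤ 4 * Fintype.card ι + 1) :
    ∫ x : ι → UnitAddCircle, ∫ u, ‖QQ ε J n x u‖ ^ 2 ∂hc ∂(mu ι) ≤
      n * (1 + ε ^ 2 * (4 * Fintype.card ι + 1)) := by
  have hY := Y_cont (ι := ι)
  simp_rw [QQ_L2]
  rw [integral_finsetSum _ (fun a _ => integ (by fun_prop))]
  calc ∑ a ∈ Finset.range n, ∫ x : ι → UnitAddCircle, (1 + ε ^ 2 * (Y ((J + a) • x)) ^ 2) ∂(mu ι)
      ≤ ∑ a ∈ Finset.range n, (1 + ε ^ 2 * (4 * Fintype.card ι + 1)) := by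
        refine Finset.sum_le_sum fun a ha => ?_
        rw [integral_add (integ (by fun_prop)) (integ (by fun_prop)), integral_const_mul]
        have h1 := mul_le_mul_of_nonneg_left (hJ a ha) (sq_nonneg ε)
        simpa using h1
    _ = n * (1 + ε ^ 2 * (4 * Fintype.card ι + 1)) := by
        rw [Finset.sum_const, Finset.card_range, nsmul_eq_mul]

end

end

end Pool.Agent.Q203.TR
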