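import Mathlib
import Pool.Agent.Q203.TR.A6

/-!
# Choice of the parameters
-/

set_option autoImplicit false

open MeasureTheory Filter Topology Complex

namespace Pool.Agent.Q203.TR

noncomputable section

/-- the constant `C₀` -/
def C0 : ℕ := 8192000000000

theorem C0_eq : (C0 : ℝ) = 8192000000000 := by
  unfold C0
  norm_num

theorem C0_pos : 0 < C0 := by unfold C0; norm_num

theorem cf_ge {M : ℕ} (hM : 1 ≤ M) {i j : Idx (M ^ 4)} (hij : i ≠ j) :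
    (1 / (400 * (M : ℝ) ^ 2)) ^ 2 / 2 ≤ ‖cf (ι := Idx (M ^ 4)) (1 / (400 * (M : ℝ) ^ 2)) i j‖ := by
  have hMR : (1 : ℝ) ≤ M := by exact_mod_cast hM
  have hM0 : (0 : ℝ) < M := by linarith
  have hM2 : (1 : ℝ) ≤ (M : ℝ) ^ 2 := one_le_pow₀ hMR
  set ε : ℝ := 1 / (400 * (M : ℝ) ^ 2) with hε
  have hε0 : 0 < ε := by positivity
  have h1 := cf_est (ι := Idx (M ^ 4)) hε0.le hij
  have h2 := EY1 (ι := Idx (M ^ 4)) (s := 3 * (M : ℝ) ^ 2) (by positivity)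
  have hcard : (Fintype.card (Idx (M ^ 4)) : ℝ) = 2 * (M : ℝ) ^ 4 := by
    rw [Fintype.card_sum, Fintype.card_fin]
    push_cast
    ring
  rw [hcard] at h2
  have h3 : (4 * (2 * (M : ℝ) ^ 4) / (3 * (M : ℝ) ^ 2) + 3 * (M : ℝ) ^ 2) / 2 =
      17 / 6 * (M : ℝ) ^ 2 := by
    field_simp
    ring
  rw [h3] at h2
  have h4 : 16 * ε ^ 3 * (∫ x : Idx (M ^ 4) → UnitAddCircle, |Y x| ∂(mu (Idx (M ^ 4))) + 8) ≤
      ε ^ 2 / 2 := by
    have h5 : ∫ x : Idx (M ^ 4) → UnitAddCircle, |Y x| ∂(mu (Idx (M ^ 4))) + 8 ≤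
        11 * (M : ℝ) ^ 2 := by linarith
    have h6 : ε * (400 * (M : ℝ) ^ 2) = 1 := by rw [hε]; field_simp
    calc 16 * ε ^ 3 * (∫ x : Idx (M ^ 4) → UnitAddCircle, |Y x| ∂(mu (Idx (M ^ 4))) + 8)
        ≤ 16 * ε ^ 3 * (11 * (M : ℝ) ^ 2) := by gcongr
      _ = ε ^ 2 * (176 / 400) * (ε * (400 * (M : ℝ) ^ 2)) := by ring
      _ = ε ^ 2 * (176 / 400) := by rw [h6, mul_one]
      _ ≤ ε ^ 2 / 2 := by nlinarith [sq_nonneg ε]
  have h7 : ‖(ε : ℂ) ^ 2‖ = ε ^ 2 := by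
    rw [norm_pow, Complex.norm_real, Real.norm_of_nonneg hε0.le]
  have h8 : ‖(ε : ℂ) ^ 2‖ ≤ ‖cf (ι := Idx (M ^ 4)) ε i j + (ε : ℂ) ^ 2‖ +
      ‖cf (ι := Idx (M ^ 4)) ε i j‖ := by
    have := norm_sub_le (cf (ι := Idx (M ^ 4)) ε i j + (ε : ℂ) ^ 2)
      (cf (ι := Idx (M ^ 4)) ε i j)
    rwa [add_sub_cancel_left] at this
  rw [h7] at h8
  linarith

theorem root8 {M : ℕ} : ((C0 * M ^ 8 : ℕ) : ℝ) ^ (1 / 8 : ℝ) ≤ 42 * M := by
  have h1 : ((C0 * M ^ 8 : ℕ) : ℝ) ≤ (42 * (M : ℝ)) ^ 8 := by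
    push_cast
    rw [C0_eq, mul_pow]
    have : (0 : ℝ) ≤ (M : ℝ) ^ 8 := by positivity
    nlinarith
  calc ((C0 * M ^ 8 : ℕ) : ℝ) ^ (1 / 8 : ℝ) ≤ ((42 * (M : ℝ)) ^ 8) ^ (1 / 8 : ℝ) :=
        Real.rpow_le_rpow (by positivity) h1 (by norm_num)
    _ = 42 * M := by
        rw [← Real.rpow_natCast, ← Real.rpow_mul (by positivity)]
        norm_num

/-- **choice** -/
theorem choice {M : ℕ} (hM : 1 ≤ M) : ∃ (J : ℕ) (x : Idx (M ^ 4) → UnitAddCircle),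
    1 / (128 * C0) ≤ ∫ u, GG (1 / (400 * (M : ℝ) ^ 2)) (6400000 * (M : ℝ) ^ 4) J (C0 * M ^ 8) x u
      ∂hc ∧
    ∫ u, ‖QQ (1 / (400 * (M : ℝ) ^ 2)) J (C0 * M ^ 8) x u‖ ^ 2 ∂hc ≤
      256 * (C0 : ℝ) ^ 2 * (M : ℝ) ^ 8 ∧
    ∫ u, ‖QQ (1 / (400 * (M : ℝ) ^ 2)) J (C0 * M ^ 8) x u‖ ∂hc ≤ 1344 * (M : ℝ) ^ 3 := by
  have hMR : (1 : ℝ) ≤ M := by exact_mod_cast hM
  have hM0 : (0 : ℝ) < M := by linarith
  have hM2 : (1 : ℝ) ≤ (M : ℝ) ^ 2 := one_le_pow₀ hMR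
  have hM4 : (1 : ℝ) ≤ (M : ℝ) ^ 4 := one_le_pow₀ hMR
  have hC0 := C0_eq
  have hC0p := C0_pos
  obtain ⟨ε, hε⟩ : ∃ ε : ℝ, ε = 1 / (400 * (M : ℝ) ^ 2) := ⟨_, rfl⟩
  obtain ⟨η, hη⟩ : ∃ η : ℝ, η = 6400000 * (M : ℝ) ^ 4 := ⟨_, rfl⟩
  obtain ⟨n, hn⟩ : ∃ n : ℕ, n = C0 * M ^ 8 := ⟨_, rfl⟩
  have hnR : (n : ℝ) = 8192000000000 * (M : ℝ) ^ 8 := by
    rw [hn]
    push_cast
    rw [hC0]
  have hε0 : 0 < ε := by rw [hε]; positivity
  have hη0 : 0 < η := by rw [hη]; positivity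
  have hn0 : 0 < n := by rw [hn]; positivity
  have hnp : (0 : ℝ) < n := by exact_mod_cast hn0
  have hcard : (Fintype.card (Idx (M ^ 4)) : ℝ) = 2 * (M : ℝ) ^ 4 := by
    rw [Fintype.card_sum, Fintype.card_fin]
    push_cast
    ring
  -- the peaks
  have hcf : ∀ p : Fin (M ^ 4) × Fin (M ^ 4), 4 * η ≤
      ‖cf (ι := Idx (M ^ 4)) ε (Sum.inl p.1) (Sum.inr p.2)‖ * n := by
    intro p
    have h := cf_ge hM (i := Sum.inl p.1) (j := Sum.inr p.2) Sum.inl_ne_inr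
    rw [← hε] at h
    have h2 := mul_le_mul_of_nonneg_right h hnp.le
    refine le_trans (le_of_eq ?_) h2
    rw [hε, hη, hnR]
    field_simp
    ring
  have hev : ∀ᶠ J : ℕ in atTop, (∀ p : Fin (M ^ 4) × Fin (M ^ 4), ∀ s : UnitAddCircle,
      ‖s‖ ≤ 1 / (8 * n) → ∫ x : Idx (M ^ 4) → UnitAddCircle,
        (1 - GG ε η J n x (s - x (Sum.inl p.1) - x (Sum.inr p.2))) ∂(mu (Idx (M ^ 4))) ≤
        5 * n / (4 * η ^ 2)) ∧
      ∀ a ∈ Finset.range n, ∫ x : Idx (M ^ 4) → UnitAddCircle, (Y ((J + a) • x)) ^ 2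
        ∂(mu (Idx (M ^ 4))) ≤ 4 * Fintype.card (Idx (M ^ 4)) + 1 := by
    refine Filter.Eventually.and ?_ (Y_ev n)
    rw [Filter.eventually_all]
    intro p
    exact near_peak ε hη0 hn0 (Sum.inl p.1) (Sum.inr p.2) (hcf p)
  obtain ⟨J, hJ1, hJ2⟩ := hev.exists
  have hq : 5 * n / (4 * η ^ 2) = 1 / 4 := by
    rw [hη, hnR]
    field_simp
    norm_num
  rw [hq] at hJ1
  have hA := GG_int (m := M ^ 4) hn0 hη0 hJ1
  -- the size of `λ`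
  obtain ⟨l, hl⟩ : ∃ l : ℝ, l = ((M ^ 4 : ℕ) : ℝ) ^ 2 * kap n := ⟨_, rfl⟩
  rw [← hl] at hA
  have hl1 : 1 / (16 * C0) ≤ l := by
    have h := kap_ge hn0
    rw [hl]
    have h2 := mul_le_mul_of_nonneg_left h (by positivity : (0 : ℝ) ≤ ((M ^ 4 : ℕ) : ℝ) ^ 2)
    refine le_trans (le_of_eq ?_) h2
    rw [hnR, hC0]
    push_cast
    field_simp
  have hl2 : l ≤ 1 := by
    have h := kap_le hn0
    rw [hl]
    have h2 := mul_le_mul_of_nonneg_left h (by positivity : (0 : ℝ) ≤ ((M ^ 4 : ℕ) : ℝ) ^ 2)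
    refine h2.trans ?_
    rw [hnR]
    push_cast
    rw [mul_one_div, div_le_one (by positivity)]
    nlinarith [pow_pos hM0 8, (by ring : ((M : ℝ) ^ 4) ^ 2 = (M : ℝ) ^ 8)]
  have hl0 : 0 < l := lt_of_lt_of_le (by positivity) hl1
  have hA2 : 1 / (64 * C0) ≤ ∫ z : (Idx (M ^ 4) → UnitAddCircle) × UnitAddCircle,
      GG ε η J n z.1 z.2 ∂(PP (Idx (M ^ 4))) := by
    refine le_trans ?_ hA
    have h1 : (1 : ℝ) / (64 * C0) = 1 / (16 * C0) / 4 := by field_simp; norm_num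
    rw [h1]
    nlinarith
  -- integrals over `x`
  have hG : Continuous fun z : (Idx (M ^ 4) → UnitAddCircle) × UnitAddCircle =>
    GG ε η J n z.1 z.2 := GG_cont' ε η J n continuous_fst continuous_snd
  have hQ : Continuous fun z : (Idx (M ^ 4) → UnitAddCircle) × UnitAddCircle =>
    ‖QQ ε J n z.1 z.2‖ ^ 2 := by
    have := QQ_cont' (ι := Idx (M ^ 4)) ε J n (α := (Idx (M ^ 4) → UnitAddCircle) × UnitAddCircle)
      continuous_fst continuous_snd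
    fun_prop
  rw [xu hG] at hA2
  have hB := QQ_L2_avg (ε := ε) hJ2
  have hB2 : (n : ℝ) * (1 + ε ^ 2 * (4 * Fintype.card (Idx (M ^ 4)) + 1)) ≤ n * 2 := by
    apply mul_le_mul_of_nonneg_left _ hnp.le
    rw [hcard, hε]
    have : (1 / (400 * (M : ℝ) ^ 2)) ^ 2 * (4 * (2 * (M : ℝ) ^ 4) + 1) ≤ 1 := by
      rw [div_pow, one_pow, one_div, inv_mul_le_iff₀ (by positivity)]
      nlinarith [(by ring : (400 * (M : ℝ) ^ 2) ^ 2 = 160000 * (M : ℝ) ^ 4)]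
    linarith
  obtain ⟨κ, hκ⟩ : ∃ κ : ℝ, κ = 1 / (256 * C0 * n) := ⟨_, rfl⟩
  have hκ0 : 0 < κ := by rw [hκ]; positivity
  have i1 : Integrable (fun x : Idx (M ^ 4) → UnitAddCircle => ∫ u, GG ε η J n x u ∂hc)
    (mu (Idx (M ^ 4))) := (integP hG).integral_prod_left
  have i2 : Integrable (fun x : Idx (M ^ 4) → UnitAddCircle => ∫ u, ‖QQ ε J n x u‖ ^ 2 ∂hc)
    (mu (Idx (M ^ 4))) := (integP hQ).integral_prod_left
  obtain ⟨x, hx⟩ := exists_integral_le (i1.sub (i2.const_mul κ))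
  have hx' : 1 / (128 * C0) ≤ ∫ u, GG ε η J n x u ∂hc - κ * ∫ u, ‖QQ ε J n x u‖ ^ 2 ∂hc := by
    refine le_trans ?_ hx
    have e := integral_sub' i1 (i2.const_mul κ)
    rw [integral_const_mul] at e
    refine le_trans ?_ (le_of_eq e.symm)
    have h3 : κ * ∫ x : Idx (M ^ 4) → UnitAddCircle, ∫ u, ‖QQ ε J n x u‖ ^ 2 ∂hc
          ∂(mu (Idx (M ^ 4))) ≤ κ * (n * 2) :=
      mul_le_mul_of_nonneg_left (hB.trans hB2) hκ0.le
    have h4 : κ * (n * 2) = 1 / (128 * C0) := by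
      rw [hκ]
      field_simp
      norm_num
    have h5 : (1 : ℝ) / (64 * C0) = 1 / (128 * C0) + 1 / (128 * C0) := by
      field_simp
      norm_num
    linarith
  have hG1 : ∫ u, GG ε η J n x u ∂hc ≤ 1 := by
    have h := integral_mono (μ := hc) (integc (GG_cont' (k := fun u => u) ε η J n
      (continuous_const (y := x)) continuous_id)) (integrable_const (1 : ℝ))
      (fun u => GG_le ε η J n x u)
    simpa using h
  have hQ0 : 0 ≤ ∫ u, ‖QQ ε J n x u‖ ^ 2 ∂hc := integral_nonneg fun u => by positivity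
  have hcp : (0 : ℝ) < 1 / (128 * C0) := by positivity
  rw [← hε, ← hη, ← hn]
  refine ⟨J, x, ?_, ?_, ?_⟩
  · have : 0 ≤ κ * ∫ u, ‖QQ ε J n x u‖ ^ 2 ∂hc := mul_nonneg hκ0.le hQ0
    linarith
  · have h6 : κ * ∫ u, ‖QQ ε J n x u‖ ^ 2 ∂hc ≤ 1 := by linarith
    rw [hκ, div_mul_eq_mul_div, one_mul, div_le_one (by positivity)] at h6
    refine h6.trans (le_of_eq ?_)
    rw [hnR, hC0]
    ring
  · refine (QQ_L1 hε0.le J n x).trans ?_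
    have h7' : (n : ℝ) ^ (1 / 8 : ℝ) ≤ 42 * M := by
      rw [hn]
      exact root8
    have h7 : ∫ u, ‖DD n u‖ ∂hc ≤ 16 * (42 * M) :=
      (DD_int n).trans (mul_le_mul_of_nonneg_left h7' (by norm_num : (0 : ℝ) ≤ 16))
    have h8 : 1 + 2 * (Fintype.card (Idx (M ^ 4)) : ℝ) * ε ≤ 2 * (M : ℝ) ^ 2 := by
      rw [hcard, hε]
      have : 2 * (2 * (M : ℝ) ^ 4) * (1 / (400 * (M : ℝ) ^ 2)) = (M : ℝ) ^ 2 / 100 := by
        field_simp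
        norm_num
      rw [this]
      linarith
    have h9 : 0 ≤ ∫ u, ‖DD n u‖ ∂hc := integral_nonneg fun u => norm_nonneg _
    calc (1 + 2 * (Fintype.card (Idx (M ^ 4)) : ℝ) * ε) * ∫ u, ‖DD n u‖ ∂hc
        ≤ (2 * (M : ℝ) ^ 2) * (16 * (42 * M)) :=
          mul_le_mul h8 h7 h9 (by positivity)
      _ = 1344 * (M : ℝ) ^ 3 := by ring

end

end Pool.Agent.Q203.TR
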