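import Mathlib
import Pool.Agent.Q203.TR.A7

/-!
# Norms of polynomials
-/

set_option autoImplicit false

open MeasureTheory Filter Topology Complex

namespace Pool.Agent.Q203.TR

noncomputable section

/-- the norm of `L_p (∂D)` -/
def Lp (p : ℝ) (P : Polynomial ℂ) : ℝ :=
  (∫ t in (0 : ℝ)..(2 * Real.pi), ‖P.eval (Complex.exp (t * I))‖ ^ p) ^ (1 / p)

/-- radial truncation -/
def trunc (a : ℂ) : ℂ := if ‖a‖ < 1 then a else a / ‖a‖

/-- truncation of the coefficients -/
def S (P : Polynomial ℂ) : Polynomial ℂ :=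
  ∑ j ∈ Finset.range (P.natDegree + 1), Polynomial.monomial j (trunc (P.coeff j))

theorem int_2pi (g : UnitAddCircle → ℝ) :
    ∫ t in (0 : ℝ)..(2 * Real.pi), g ((t / (2 * Real.pi) : ℝ) : UnitAddCircle) =
      2 * Real.pi * ∫ u, g u ∂hc := by
  rw [int_c, intervalIntegral.integral_comp_div (fun t : ℝ => g (t : UnitAddCircle))
    (by positivity : 2 * Real.pi ≠ 0)]
  rw [zero_div, div_self (by positivity : 2 * Real.pi ≠ 0), smul_eq_mul]

theorem exp_fourier (t : ℝ) : Complex.exp (t * I) =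
    fourier 1 ((t / (2 * Real.pi) : ℝ) : UnitAddCircle) := by
  rw [fourier_coe_apply]
  congr 1
  have : (Real.pi : ℂ) ≠ 0 := by exact_mod_cast Real.pi_ne_zero
  push_cast
  field_simp

/-- the polynomial with the coefficients `c a`, `a < n` -/
def pol (n : ℕ) (c : ℕ → ℂ) : Polynomial ℂ := ∑ a ∈ Finset.range n, Polynomial.monomial a (c a)

theorem pol_eval (n : ℕ) (c : ℕ → ℂ) (t : ℝ) : (pol n c).eval (Complex.exp (t * I)) =
    ∑ a ∈ Finset.range n, c a * fourier (a : ℤ) ((t / (2 * Real.pi) : ℝ) : UnitAddCircle) := by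
  unfold pol
  rw [Polynomial.eval_finsetSum]
  refine Finset.sum_congr rfl fun a _ => ?_
  rw [Polynomial.eval_monomial, exp_fourier, fourier_pow' a]

theorem Lp_pol (p : ℝ) (n : ℕ) (c : ℕ → ℂ) : Lp p (pol n c) =
    (2 * Real.pi * ∫ u, ‖∑ a ∈ Finset.range n, c a * fourier (a : ℤ) u‖ ^ p ∂hc) ^ (1 / p) := by
  unfold Lp
  simp_rw [pol_eval]
  rw [int_2pi (fun u => ‖∑ a ∈ Finset.range n, c a * fourier (a : ℤ) u‖ ^ p)]

theorem pol_coeff (n : ℕ) (c : ℕ → ℂ) (j : ℕ) : (pol n c).coeff j = if j < n then c j else 0 := by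
  unfold pol
  rw [Polynomial.finsetSum_coeff]
  simp_rw [Polynomial.coeff_monomial]
  rw [Finset.sum_ite_eq' (Finset.range n)]
  simp

theorem pol_natDegree (n : ℕ) (c : ℕ → ℂ) : (pol n c).natDegree ≤ n - 1 := by
  rw [Polynomial.natDegree_le_iff_coeff_eq_zero]
  intro j hj
  rw [pol_coeff, if_neg (by omega)]

theorem trunc_zero : trunc 0 = 0 := by simp [trunc]

theorem S_coeff (P : Polynomial ℂ) (j : ℕ) : (S P).coeff j = trunc (P.coeff j) := by
  unfold S
  rw [Polynomial.finsetSum_coeff]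
  simp_rw [Polynomial.coeff_monomial]
  rw [Finset.sum_ite_eq' (Finset.range _)]
  split_ifs with h
  · rfl
  · rw [Finset.mem_range, not_lt] at h
    rw [Polynomial.coeff_eq_zero_of_natDegree_lt (by omega), trunc_zero]

theorem eq_pol {P : Polynomial ℂ} {n : ℕ} (h : P.natDegree < n) : P = pol n P.coeff := by
  ext j
  rw [pol_coeff]
  split_ifs with hj
  · rfl
  · exact Polynomial.coeff_eq_zero_of_natDegree_lt (by omega)

theorem S_pol (n : ℕ) (c : ℕ → ℂ) : S (pol n c) = pol n fun a => trunc (c a) := by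
  ext j
  rw [S_coeff, pol_coeff, pol_coeff]
  split_ifs with h
  · rfl
  · exact trunc_zero

theorem trunc_norm_le (a : ℂ) : ‖trunc a‖ ≤ ‖a‖ := by
  unfold trunc
  split_ifs with h
  · exact le_rfl
  · push Not at h
    rw [norm_div, Complex.norm_real, norm_norm, div_self (by linarith)]
    exact h

/-- Jensen -/
theorem jensen {f : UnitAddCircle → ℝ} (hf : Continuous f) (hf0 : ∀ u, 0 ≤ f u) {p : ℝ}
    (hp : 0 < p) (hp2 : p < 2) : ∫ u, f u ^ p ∂hc ≤ (∫ u, f u ^ 2 ∂hc) ^ (p / 2) := by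
  set B := ∫ u, f u ^ 2 ∂hc with hB
  have hB0 : 0 ≤ B := integral_nonneg fun u => by positivity
  have hi1 : Integrable (fun u => f u ^ p) hc := integc (hf.rpow_const fun u => Or.inr hp.le)
  have hi2 : Integrable (fun u => f u ^ 2) hc := integc (by fun_prop)
  have hsq : ∀ u, f u ^ p = (f u ^ 2) ^ (p / 2) := by
    intro u
    rw [← Real.rpow_natCast, ← Real.rpow_mul (hf0 u)]
    congr 1
    push_cast
    ring
  rcases hB0.eq_or_lt with h | h
  · have h0 : ∀ᵐ u ∂hc, f u ^ 2 = 0 := by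
      have := (integral_eq_zero_iff_of_nonneg (fun u => by positivity) hi2).1 (by rw [← hB, ← h])
      filter_upwards [this] with u hu
      exact hu
    have h1 : ∫ u, f u ^ p ∂hc = 0 := by
      rw [integral_congr_ae (g := fun _ => (0 : ℝ))]
      · simp
      · filter_upwards [h0] with u hu
        have : f u = 0 := by simpa using hu
        rw [this, Real.zero_rpow hp.ne']
    rw [h1, ← h, Real.zero_rpow (by positivity)]
  · have h1 : ∀ u, f u ^ p ≤ B ^ (p / 2) * (1 + p / 2 * (f u ^ 2 / B - 1)) := by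
      intro u
      have h2 := _root_.rpow_one_add_le_one_add_mul_self (s := f u ^ 2 / B - 1) (p := p / 2)
        (by have : 0 ≤ f u ^ 2 / B := by positivity
            linarith) (by positivity) (by linarith)
      have h3 : f u ^ p = B ^ (p / 2) * (1 + (f u ^ 2 / B - 1)) ^ (p / 2) := by
        rw [hsq u, add_sub_cancel, ← Real.mul_rpow hB0 (by positivity), mul_div_cancel₀ _ h.ne']
      rw [h3]
      exact mul_le_mul_of_nonneg_left h2 (by positivity)
    calc ∫ u, f u ^ p ∂hc ≤ ∫ u, B ^ (p / 2) * (1 + p / 2 * (f u ^ 2 / B - 1)) ∂hc :=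
          integral_mono hi1 (integc (by fun_prop)) h1
      _ = B ^ (p / 2) := by
          rw [integral_const_mul, integral_add (integrable_const _) (integc (by fun_prop)),
            integral_const_mul, integral_sub (integc (by fun_prop)) (integrable_const _),
            integral_div, ← hB, div_self h.ne']
          simp

/-- Nikolskii -/
theorem nikol {n : ℕ} (c : ℕ → ℂ) {p : ℝ} (hp : 0 < p) (hp2 : p < 2) :
    (∫ u, ‖∑ a ∈ Finset.range n, c a * fourier (a : ℤ) u‖ ^ 2 ∂hc) ^ (p / 2) ≤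
      (n : ℝ) ^ (1 - p / 2) * ∫ u, ‖∑ a ∈ Finset.range n, c a * fourier (a : ℤ) u‖ ^ p ∂hc := by
  have hsup : ∀ u : UnitAddCircle, ‖∑ a ∈ Finset.range n, c a * fourier (a : ℤ) u‖ ^ 2 ≤
      n * ∫ u, ‖∑ a ∈ Finset.range n, c a * fourier (a : ℤ) u‖ ^ 2 ∂hc := by
    intro u
    rw [parseval]
    have h1 : ‖∑ a ∈ Finset.range n, c a * fourier (a : ℤ) u‖ ≤ ∑ a ∈ Finset.range n, ‖c a‖ := by
      refine (norm_sum_le _ _).trans (le_of_eq ?_)
      refine Finset.sum_congr rfl fun a _ => ?_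
      rw [norm_mul, fourier_nrm, mul_one]
    have h2 : (∑ a ∈ Finset.range n, ‖c a‖) ^ 2 ≤ (Finset.range n).card *
        ∑ a ∈ Finset.range n, ‖c a‖ ^ 2 := sq_sum_le_card_mul_sum_sq
    rw [Finset.card_range] at h2
    exact (pow_le_pow_left₀ (norm_nonneg _) h1 2).trans h2
  obtain ⟨A, hA⟩ : ∃ A : UnitAddCircle → ℝ, ∀ u, A u =
    ‖∑ a ∈ Finset.range n, c a * fourier (a : ℤ) u‖ := ⟨_, fun _ => rfl⟩
  have hAc : Continuous A := by
    have : A = fun u => ‖∑ a ∈ Finset.range n, c a * fourier (a : ℤ) u‖ := funext hA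
    rw [this]
    fun_prop
  have hA0 : ∀ u, 0 ≤ A u := fun u => by rw [hA]; positivity
  simp_rw [← hA] at hsup ⊢
  set B := ∫ u, A u ^ 2 ∂hc with hB
  have hB0 : 0 ≤ B := integral_nonneg fun u => by positivity
  have hI0 : 0 ≤ ∫ u, A u ^ p ∂hc := integral_nonneg fun u => Real.rpow_nonneg (hA0 u) _
  rcases hB0.eq_or_lt with h | h
  · rw [← h, Real.zero_rpow (by positivity)]
    positivity
  · have h1 : ∀ u, A u ^ 2 ≤ (n * B) ^ (1 - p / 2) * A u ^ p := by
      intro u
      have h2 : A u ^ 2 = (A u ^ 2) ^ (1 - p / 2) * A u ^ p := by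
        rcases (hA0 u).eq_or_lt with h3 | h3
        · rw [← h3, Real.zero_rpow hp.ne']
          simp
        · rw [← Real.rpow_natCast, ← Real.rpow_mul h3.le, ← Real.rpow_add h3]
          congr 1
          push_cast
          ring
      calc A u ^ 2 = (A u ^ 2) ^ (1 - p / 2) * A u ^ p := h2
        _ ≤ (n * B) ^ (1 - p / 2) * A u ^ p := by
            refine mul_le_mul_of_nonneg_right ?_ (Real.rpow_nonneg (hA0 u) _)
            exact Real.rpow_le_rpow (by positivity) (hsup u) (by linarith)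
    have h3 : B ≤ (n * B) ^ (1 - p / 2) * ∫ u, A u ^ p ∂hc := by
      rw [← integral_const_mul]
      exact integral_mono (integc (by fun_prop))
        (integc (continuous_const.mul (hAc.rpow_const fun u => Or.inr hp.le))) h1
    have h4 : B = B ^ (1 - p / 2) * B ^ (p / 2) := by
      rw [← Real.rpow_add h]
      have : 1 - p / 2 + p / 2 = 1 := by ring
      rw [this, Real.rpow_one]
    have h5 : 0 < B ^ (1 - p / 2) := Real.rpow_pos_of_pos h _
    rw [Real.mul_rpow (by positivity) hB0] at h3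
    have h6 : B ^ (1 - p / 2) * B ^ (p / 2) ≤ B ^ (1 - p / 2) * ((n : ℝ) ^ (1 - p / 2) *
        ∫ u, A u ^ p ∂hc) := by
      rw [← h4]
      refine h3.trans (le_of_eq ?_)
      ring
    exact le_of_mul_le_mul_left h6 h5

/-- **upper bound** -/
theorem upper {n : ℕ} {P : Polynomial ℂ} (hP : P.natDegree ≤ n) {p : ℝ} (hp : 0 < p)
    (hp2 : p < 2) : Lp p (S P) ≤ ((n : ℝ) + 1) ^ (1 / p - 1 / 2) * Lp p P := by
  rw [eq_pol (Nat.lt_succ_of_le hP), S_pol, Lp_pol, Lp_pol]
  have h1 : ∫ u, ‖∑ a ∈ Finset.range (n + 1), trunc (P.coeff a) * fourier (a : ℤ) u‖ ^ p ∂hc ≤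
      (((n + 1 : ℕ) : ℝ)) ^ (1 - p / 2) *
        ∫ u, ‖∑ a ∈ Finset.range (n + 1), P.coeff a * fourier (a : ℤ) u‖ ^ p ∂hc := by
    refine (jensen (f := fun u => ‖∑ a ∈ Finset.range (n + 1), trunc (P.coeff a) *
      fourier (a : ℤ) u‖) (by fun_prop) (fun u => norm_nonneg _) hp hp2).trans ?_
    refine le_trans ?_ (nikol P.coeff hp hp2)
    refine Real.rpow_le_rpow (integral_nonneg fun u => by positivity) ?_ (by positivity)
    rw [parseval, parseval]
    exact Finset.sum_le_sum fun a _ => pow_le_pow_left₀ (norm_nonneg _) (trunc_norm_le _) 2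
  have hI0 : 0 ≤ ∫ u, ‖∑ a ∈ Finset.range (n + 1), P.coeff a * fourier (a : ℤ) u‖ ^ p ∂hc :=
    integral_nonneg fun u => by positivity
  have hI1 : 0 ≤ ∫ u, ‖∑ a ∈ Finset.range (n + 1), trunc (P.coeff a) *
    fourier (a : ℤ) u‖ ^ p ∂hc := integral_nonneg fun u => by positivity
  have hn : (((n + 1 : ℕ) : ℝ)) = (n : ℝ) + 1 := by push_cast; ring
  calc (2 * Real.pi * ∫ u, ‖∑ a ∈ Finset.range (n + 1), trunc (P.coeff a) *
      fourier (a : ℤ) u‖ ^ p ∂hc) ^ (1 / p)
      ≤ (((n : ℝ) + 1) ^ (1 - p / 2) * (2 * Real.pi * ∫ u, ‖∑ a ∈ Finset.range (n + 1),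
        P.coeff a * fourier (a : ℤ) u‖ ^ p ∂hc)) ^ (1 / p) := by
        refine Real.rpow_le_rpow (by positivity) ?_ (by positivity)
        rw [hn] at h1
        have := mul_le_mul_of_nonneg_left h1 (by positivity : 0 ≤ 2 * Real.pi)
        refine this.trans (le_of_eq ?_)
        ring
    _ = _ := by
        rw [Real.mul_rpow (by positivity) (by positivity), ← Real.rpow_mul (by positivity)]
        congr 2
        field_simp

end

end Pool.Agent.Q203.TR
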