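import Mathlib
import Pool.Agent.Q203.TR.A8

/-!
# The lower bound
-/

set_option autoImplicit false

open MeasureTheory Filter Topology Complex

namespace Pool.Agent.Q203.TR

noncomputable section

/-- the coefficients -/
def cc {ι : Type} [Fintype ι] (ε : ℝ) (J : ℕ) (x : ι → UnitAddCircle) (a : ℕ) : ℂ :=
  1 + I * ((ε * Y ((J + a) • x) : ℝ) : ℂ)

section

variable {ι : Type} [Fintype ι]

theorem one_le_cc (ε : ℝ) (J : ℕ) (x : ι → UnitAddCircle) (a : ℕ) : 1 ≤ ‖cc ε J x a‖ := by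
  unfold cc
  rw [norm_one_add]
  apply Real.one_le_sqrt.2
  nlinarith [sq_nonneg (ε * Y ((J + a) • x))]

theorem trunc_cc (ε : ℝ) (J : ℕ) (x : ι → UnitAddCircle) (a : ℕ) :
    trunc (cc ε J x a) = ff ε ((J + a) • x) := by
  unfold trunc
  rw [if_neg (not_lt.2 (one_le_cc ε J x a))]
  unfold ff cc
  rw [ph_eq]

theorem Lp_QQ (p ε : ℝ) (J n : ℕ) (x : ι → UnitAddCircle) :
    Lp p (pol n (cc ε J x)) = (2 * Real.pi * ∫ u, ‖QQ ε J n x u‖ ^ p ∂hc) ^ (1 / p) :=
  Lp_pol p n _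

theorem Lp_FF (p ε : ℝ) (J n : ℕ) (x : ι → UnitAddCircle) :
    Lp p (S (pol n (cc ε J x))) = (2 * Real.pi * ∫ u, ‖FF ε J n x u‖ ^ p ∂hc) ^ (1 / p) := by
  rw [S_pol, Lp_pol]
  unfold FF
  simp_rw [trunc_cc]

/-- lower bound from the function `G` -/
theorem low_GG {p ε η c : ℝ} (hp : 0 < p) (hp2 : p < 2) (hη : 0 < η) (hc0 : 0 ≤ c) (J n : ℕ)
    (x : ι → UnitAddCircle) (h : c ≤ ∫ u, GG ε η J n x u ∂hc) :
    c ^ 2 * η ^ p ≤ ∫ u, ‖FF ε J n x u‖ ^ p ∂hc := by
  have hG : Continuous fun u => GG ε η J n x u :=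
    GG_cont' ε η J n continuous_const continuous_id
  have hF : Continuous fun u => FF ε J n x u :=
    FF_cont' ε J n continuous_const continuous_id
  have h1 : ∀ u, η ^ p * (2 * c * GG ε η J n x u - c ^ 2) ≤ ‖FF ε J n x u‖ ^ p := by
    intro u
    have a1 := GG_nonneg (ε := ε) hη J n x u
    have a2 := GG_le ε η J n x u
    have a3 : η * GG ε η J n x u ≤ ‖FF ε J n x u‖ := by
      have : GG ε η J n x u ≤ ‖FF ε J n x u‖ / η := min_le_left _ _
      rwa [le_div_iff₀ hη, mul_comm] at this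
    have a4 : GG ε η J n x u ^ 2 ≤ GG ε η J n x u ^ p := by
      rcases a1.eq_or_lt with h0 | h0
      · rw [← h0, Real.zero_rpow hp.ne']
        norm_num
      · rw [← Real.rpow_natCast]
        exact Real.rpow_le_rpow_of_exponent_ge h0 a2 (by push_cast; linarith)
    have a5 : 2 * c * GG ε η J n x u - c ^ 2 ≤ GG ε η J n x u ^ 2 := by
      nlinarith [sq_nonneg (GG ε η J n x u - c)]
    calc η ^ p * (2 * c * GG ε η J n x u - c ^ 2) ≤ η ^ p * GG ε η J n x u ^ p :=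
          mul_le_mul_of_nonneg_left (a5.trans a4) (by positivity)
      _ = (η * GG ε η J n x u) ^ p := (Real.mul_rpow hη.le a1).symm
      _ ≤ ‖FF ε J n x u‖ ^ p := Real.rpow_le_rpow (by positivity) a3 hp.le
  have h2 : ∫ u, η ^ p * (2 * c * GG ε η J n x u - c ^ 2) ∂hc ≤
      ∫ u, ‖FF ε J n x u‖ ^ p ∂hc :=
    integral_mono (integc (by fun_prop))
      (integc (hF.norm.rpow_const fun u => Or.inr hp.le)) h1
  refine le_trans ?_ h2
  rw [integral_const_mul, integral_sub (integc (by fun_prop)) (integrable_const _),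
    integral_const_mul]
  have h3 : ∫ _u : UnitAddCircle, c ^ 2 ∂hc = c ^ 2 := by simp
  rw [h3, mul_comm]
  apply mul_le_mul_of_nonneg_left _ (by positivity)
  nlinarith

/-- upper bound for `p ≤ 1` -/
theorem up1 {f : UnitAddCircle → ℝ} (hf : Continuous f) (hf0 : ∀ u, 0 ≤ f u) {p Λ A : ℝ}
    (hp : 0 < p) (hp1 : p ≤ 1) (hΛ : 0 < Λ) (hA : ∫ u, f u ∂hc ≤ A * Λ) :
    ∫ u, f u ^ p ∂hc ≤ (1 + A) * Λ ^ p := by
  have h1 : ∀ u, f u ^ p ≤ Λ ^ p * (1 + f u / Λ) := by
    intro u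
    have h2 : 0 ≤ f u / Λ := div_nonneg (hf0 u) hΛ.le
    have h3 : (f u / Λ) ^ p ≤ 1 + f u / Λ := by
      rcases le_total (f u / Λ) 1 with h | h
      · have := Real.rpow_le_one h2 h hp.le
        linarith
      · have := Real.rpow_le_rpow_of_exponent_le h hp1
        rw [Real.rpow_one] at this
        linarith
    calc f u ^ p = Λ ^ p * (f u / Λ) ^ p := by
          rw [← Real.mul_rpow hΛ.le h2, mul_div_cancel₀ _ hΛ.ne']
      _ ≤ _ := mul_le_mul_of_nonneg_left h3 (by positivity)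
  calc ∫ u, f u ^ p ∂hc ≤ ∫ u, Λ ^ p * (1 + f u / Λ) ∂hc :=
        integral_mono (integc (hf.rpow_const fun u => Or.inr hp.le)) (integc (by fun_prop)) h1
    _ = Λ ^ p * (1 + (∫ u, f u ∂hc) / Λ) := by
        rw [integral_const_mul, integral_add (integrable_const _) (integc (by fun_prop)),
          integral_div]
        simp
    _ ≤ (1 + A) * Λ ^ p := by
        rw [mul_comm]
        apply mul_le_mul_of_nonneg_right _ (by positivity)
        have : (∫ u, f u ∂hc) / Λ ≤ A := by rwa [div_le_iff₀ hΛ]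
        linarith

/-- upper bound for `1 ≤ p` -/
theorem up2 {f : UnitAddCircle → ℝ} (hf : Continuous f) (hf0 : ∀ u, 0 ≤ f u) {p Λ A B : ℝ}
    (hp1 : 1 ≤ p) (hp2 : p < 2) (hΛ : 0 < Λ) (hA : ∫ u, f u ∂hc ≤ A)
    (hB : ∫ u, f u ^ 2 ∂hc ≤ B) :
    ∫ u, f u ^ p ∂hc ≤ Λ ^ (p - 1) * A + Λ ^ (p - 2) * B := by
  have h1 : ∀ u, f u ^ p ≤ Λ ^ (p - 1) * f u + Λ ^ (p - 2) * f u ^ 2 := by
    intro u
    have hu := hf0 u
    rcases hu.eq_or_lt with h0 | h0
    · rw [← h0, Real.zero_rpow (by linarith)]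
      simp
    rcases le_total (f u) Λ with h | h
    · have e : f u ^ p = f u ^ (p - 1) * f u := by
        rw [← Real.rpow_add_one h0.ne']
        congr 1
        ring
      have h2 : f u ^ (p - 1) ≤ Λ ^ (p - 1) := Real.rpow_le_rpow hu h (by linarith)
      have h3 := mul_le_mul_of_nonneg_right h2 hu
      have h4 : 0 ≤ Λ ^ (p - 2) * f u ^ 2 := by positivity
      rw [e]
      linarith
    · have e : f u ^ p = f u ^ (p - 2) * f u ^ 2 := by
        rw [← Real.rpow_natCast, ← Real.rpow_add h0]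
        congr 1
        push_cast
        ring
      have h2 : f u ^ (p - 2) ≤ Λ ^ (p - 2) :=
        Real.rpow_le_rpow_of_nonpos hΛ h (by linarith)
      have h3 := mul_le_mul_of_nonneg_right h2 (sq_nonneg (f u))
      have h4 : 0 ≤ Λ ^ (p - 1) * f u := by positivity
      rw [e]
      linarith
  calc ∫ u, f u ^ p ∂hc ≤ ∫ u, (Λ ^ (p - 1) * f u + Λ ^ (p - 2) * f u ^ 2) ∂hc :=
        integral_mono (integc (hf.rpow_const fun u => Or.inr (by linarith)))
          (integc (by fun_prop)) h1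
    _ = Λ ^ (p - 1) * (∫ u, f u ∂hc) + Λ ^ (p - 2) * ∫ u, f u ^ 2 ∂hc := by
        rw [integral_add (integc (by fun_prop)) (integc (by fun_prop)), integral_const_mul,
          integral_const_mul]
    _ ≤ _ := add_le_add (mul_le_mul_of_nonneg_left hA (by positivity))
        (mul_le_mul_of_nonneg_left hB (by positivity))

end

/-- the constant -/
def K1 : ℝ := 1345 + 256 * (C0 : ℝ) ^ 2

theorem K1_pos : 0 < K1 := by unfold K1; positivity

/-- exponent -/
def be (p : ℝ) : ℝ := min 1 (2 / p - 1)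

theorem be_pos {p : ℝ} (hp : 0 < p) (hp2 : p < 2) : 0 < be p := by
  unfold be
  refine lt_min one_pos ?_
  rw [sub_pos, lt_div_iff₀ hp]
  linarith

theorem be_le (p : ℝ) : be p ≤ 1 := min_le_left _ _

/-- **lower bound for the degrees `C₀ M ^ 8`** -/
theorem low_M {p : ℝ} (hp : 0 < p) (hp2 : p < 2) {M : ℕ} (hM : 1 ≤ M) :
    ∃ P : Polynomial ℂ, P ≠ 0 ∧ P.natDegree ≤ C0 * M ^ 8 - 1 ∧
      ((1 / (128 * (C0 : ℝ))) ^ 2 / K1) ^ (1 / p) * (M : ℝ) ^ be p * Lp p P ≤ Lp p (S P) := by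
  have hMR : (1 : ℝ) ≤ M := by exact_mod_cast hM
  have hM0 : (0 : ℝ) < M := by linarith
  have hC0p : (0 : ℝ) < C0 := by exact_mod_cast C0_pos
  have hK := K1_pos
  obtain ⟨J, x, h1, h2, h3⟩ := choice hM
  obtain ⟨ε, hε⟩ : ∃ ε : ℝ, ε = 1 / (400 * (M : ℝ) ^ 2) := ⟨_, rfl⟩
  obtain ⟨η, hη⟩ : ∃ η : ℝ, η = 6400000 * (M : ℝ) ^ 4 := ⟨_, rfl⟩
  obtain ⟨n, hn⟩ : ∃ n : ℕ, n = C0 * M ^ 8 := ⟨_, rfl⟩
  rw [← hε, ← hη, ← hn] at h1
  rw [← hε, ← hn] at h2 h3
  have hη0 : 0 < η := by rw [hη]; positivity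
  have hn0 : 0 < n := by
    rw [hn]
    have := C0_pos
    positivity
  have hQ : Continuous fun u => QQ ε J n x u :=
    QQ_cont' ε J n continuous_const continuous_id
  have hL := low_GG hp hp2 hη0 (by positivity) J n x h1
  have hU : ∫ u, ‖QQ ε J n x u‖ ^ p ∂hc ≤ K1 * (M : ℝ) ^ (4 * p - p * be p) := by
    rcases le_total p 1 with hp1 | hp1
    · have e : be p = 1 := by
        unfold be
        apply min_eq_left
        rw [le_sub_iff_add_le, le_div_iff₀ hp]
        linarith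
      have h := up1 (f := fun u => ‖QQ ε J n x u‖) hQ.norm (fun u => norm_nonneg _) hp hp1
        (by positivity : (0 : ℝ) < (M : ℝ) ^ 3) h3
      refine h.trans ?_
      rw [e]
      have e2 : ((M : ℝ) ^ 3) ^ p = (M : ℝ) ^ (4 * p - p * 1) := by
        rw [← Real.rpow_natCast, ← Real.rpow_mul hM0.le]
        congr 1
        push_cast
        ring
      rw [e2]
      apply mul_le_mul_of_nonneg_right _ (by positivity)
      unfold K1
      have : (0 : ℝ) ≤ 256 * (C0 : ℝ) ^ 2 := by positivity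
      linarith
    · have e : be p = 2 / p - 1 := by
        unfold be
        apply min_eq_right
        rw [sub_le_iff_le_add, div_le_iff₀ hp]
        linarith
      have h := up2 (f := fun u => ‖QQ ε J n x u‖) hQ.norm (fun u => norm_nonneg _) hp1 hp2
        (by positivity : (0 : ℝ) < (M : ℝ) ^ 5) h3 h2
      refine h.trans ?_
      have e1 : 4 * p - p * be p = 5 * p - 2 := by
        rw [e]
        field_simp
        ring
      have e2 : ((M : ℝ) ^ 5) ^ (p - 1) * (1344 * (M : ℝ) ^ 3) =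
          1344 * (M : ℝ) ^ (5 * p - 2) := by
        rw [← Real.rpow_natCast, ← Real.rpow_mul hM0.le, mul_comm, mul_assoc,
          ← Real.rpow_natCast, ← Real.rpow_add hM0]
        congr 2
        push_cast
        ring
      have e3 : ((M : ℝ) ^ 5) ^ (p - 2) * (256 * (C0 : ℝ) ^ 2 * (M : ℝ) ^ 8) =
          256 * (C0 : ℝ) ^ 2 * (M : ℝ) ^ (5 * p - 2) := by
        rw [← Real.rpow_natCast, ← Real.rpow_mul hM0.le, mul_comm, mul_assoc,
          ← Real.rpow_natCast, ← Real.rpow_natCast (M : ℝ) 8, ← Real.rpow_add hM0]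
        congr 2
        push_cast
        ring
      rw [e2, e3, e1, ← add_mul]
      apply mul_le_mul_of_nonneg_right _ (by positivity)
      unfold K1
      linarith
  refine ⟨pol n (cc ε J x), ?_, ?_, ?_⟩
  · intro h0
    have h := pol_coeff n (cc ε J x) 0
    rw [h0, if_pos hn0, Polynomial.coeff_zero] at h
    have h5 := one_le_cc ε J x 0
    rw [← h, norm_zero] at h5
    linarith
  · rw [← hn]
    exact pol_natDegree n _
  · rw [Lp_QQ, Lp_FF]
    have hI : 0 ≤ ∫ u, ‖QQ ε J n x u‖ ^ p ∂hc := integral_nonneg fun u => by positivity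
    obtain ⟨κ, hκ⟩ : ∃ κ : ℝ, κ = (1 / (128 * (C0 : ℝ))) ^ 2 / K1 := ⟨_, rfl⟩
    have hκ0 : 0 < κ := by rw [hκ]; positivity
    have hfin : κ * (M : ℝ) ^ (p * be p) * ∫ u, ‖QQ ε J n x u‖ ^ p ∂hc ≤
        ∫ u, ‖FF ε J n x u‖ ^ p ∂hc := by
      refine le_trans ?_ hL
      have h5 := mul_le_mul_of_nonneg_left hU (by positivity : 0 ≤ κ * (M : ℝ) ^ (p * be p))
      refine h5.trans ?_
      have e4 : κ * (M : ℝ) ^ (p * be p) * (K1 * (M : ℝ) ^ (4 * p - p * be p)) =
          (κ * K1) * ((M : ℝ) ^ (p * be p) * (M : ℝ) ^ (4 * p - p * be p)) := by ring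
      rw [e4, ← Real.rpow_add hM0, hκ, div_mul_cancel₀ _ hK.ne', add_sub_cancel]
      apply mul_le_mul_of_nonneg_left _ (by positivity)
      rw [mul_comm 4 p, mul_comm p 4, Real.rpow_mul hM0.le]
      refine Real.rpow_le_rpow (by positivity) ?_ hp.le
      rw [hη]
      have e5 : (M : ℝ) ^ (4 : ℝ) = (M : ℝ) ^ 4 := by
        rw [← Real.rpow_natCast]
        norm_num
      rw [e5]
      nlinarith [pow_pos hM0 4]
    rw [← hκ]
    have e6 : κ ^ (1 / p) * (M : ℝ) ^ be p = (κ * (M : ℝ) ^ (p * be p)) ^ (1 / p) := by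
      rw [Real.mul_rpow hκ0.le (by positivity), ← Real.rpow_mul hM0.le]
      congr 2
      field_simp
    rw [e6, ← Real.mul_rpow (by positivity) (by positivity)]
    refine Real.rpow_le_rpow (by positivity) ?_ (by positivity)
    have h7 := mul_le_mul_of_nonneg_left hfin (by positivity : 0 ≤ 2 * Real.pi)
    refine le_trans (le_of_eq ?_) h7
    ring

theorem S_one : S 1 = 1 := by
  ext j
  rw [S_coeff, Polynomial.coeff_one]
  split_ifs with h
  · simp [trunc]
  · exact trunc_zero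

/-- **lower bound for all degrees** -/
theorem lower {p : ℝ} (hp : 0 < p) (hp2 : p < 2) : ∃ c : ℝ, 0 < c ∧ ∀ n : ℕ, 1 ≤ n →
    ∃ P : Polynomial ℂ, P ≠ 0 ∧ P.natDegree ≤ n ∧
      c * (n : ℝ) ^ (be p / 8) * Lp p P ≤ Lp p (S P) := by
  have hC0p : (0 : ℝ) < C0 := by exact_mod_cast C0_pos
  have hC1 : (1 : ℝ) ≤ 256 * C0 := by rw [C0_eq]; norm_num
  have hC2 : (1 : ℝ) ≤ C0 := by rw [C0_eq]; norm_num
  have hK := K1_pos
  have hb := be_pos hp hp2
  have hb1 := be_le p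
  obtain ⟨κ, hκ⟩ : ∃ κ : ℝ, κ = ((1 / (128 * (C0 : ℝ))) ^ 2 / K1) ^ (1 / p) := ⟨_, rfl⟩
  have hκ0 : 0 < κ := by rw [hκ]; positivity
  refine ⟨min (κ / (256 * C0)) (1 / C0), by positivity, fun n hn => ?_⟩
  have hnR : (1 : ℝ) ≤ n := by exact_mod_cast hn
  have hL0 : ∀ P : Polynomial ℂ, 0 ≤ Lp p P := by
    intro P
    unfold Lp
    apply Real.rpow_nonneg
    exact intervalIntegral.integral_nonneg (by positivity) fun t _ => by positivity
  by_cases hnC : n < C0
  · refine ⟨1, one_ne_zero, by simp, ?_⟩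
    rw [S_one]
    have h1 : (n : ℝ) ^ (be p / 8) ≤ C0 := by
      calc (n : ℝ) ^ (be p / 8) ≤ (n : ℝ) ^ (1 : ℝ) :=
            Real.rpow_le_rpow_of_exponent_le hnR (by linarith)
        _ = n := Real.rpow_one _
        _ ≤ C0 := by exact_mod_cast hnC.le
    have h2 : min (κ / (256 * C0)) (1 / C0) * (n : ℝ) ^ (be p / 8) ≤ 1 := by
      calc min (κ / (256 * C0)) (1 / C0) * (n : ℝ) ^ (be p / 8) ≤ (1 / C0) * C0 :=
            mul_le_mul (min_le_right _ _) h1 (by positivity) (by positivity)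
        _ = 1 := by field_simp
    exact mul_le_of_le_one_left (hL0 1) h2
  · push Not at hnC
    obtain ⟨M, hM⟩ : ∃ M : ℕ, M = Nat.findGreatest (fun M => C0 * M ^ 8 ≤ n) n := ⟨_, rfl⟩
    have hM1 : 1 ≤ M := by
      rw [hM]
      exact Nat.le_findGreatest hn (by simpa using hnC)
    have hMn : C0 * M ^ 8 ≤ n := by
      have := Nat.findGreatest_spec (P := fun M => C0 * M ^ 8 ≤ n) (m := 1) hn (by simpa using hnC)
      rw [← hM] at this
      exact this
    have hMlt : n < C0 * (M + 1) ^ 8 := by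
      by_contra hcon
      push Not at hcon
      have h1 : M + 1 ≤ n := by
        have h2 : (M + 1) ≤ (M + 1) ^ 8 := Nat.le_self_pow (by norm_num) _
        have h3 : (M + 1) ^ 8 ≤ C0 * (M + 1) ^ 8 := Nat.le_mul_of_pos_left _ C0_pos
        omega
      have := Nat.le_findGreatest (P := fun M => C0 * M ^ 8 ≤ n) h1 hcon
      rw [← hM] at this
      omega
    obtain ⟨P, hP0, hPd, hP⟩ := low_M hp hp2 hM1
    refine ⟨P, hP0, by omega, ?_⟩
    refine le_trans ?_ hP
    rw [← hκ]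
    apply mul_le_mul_of_nonneg_right _ (hL0 P)
    have hMR : (1 : ℝ) ≤ M := by exact_mod_cast hM1
    have hM0 : (0 : ℝ) < M := by linarith
    have h5 : (n : ℝ) ≤ 256 * C0 * (M : ℝ) ^ 8 := by
      have h6 : (n : ℝ) ≤ C0 * ((M : ℝ) + 1) ^ 8 := by exact_mod_cast hMlt.le
      have h7 : ((M : ℝ) + 1) ^ 8 ≤ (2 * (M : ℝ)) ^ 8 :=
        pow_le_pow_left₀ (by positivity) (by linarith) 8
      have h8 : (2 * (M : ℝ)) ^ 8 = 256 * (M : ℝ) ^ 8 := by ring
      rw [h8] at h7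
      have := mul_le_mul_of_nonneg_left h7 hC0p.le
      linarith
    have h9 : (n : ℝ) ^ (be p / 8) ≤ 256 * C0 * (M : ℝ) ^ be p := by
      calc (n : ℝ) ^ (be p / 8) ≤ (256 * C0 * (M : ℝ) ^ 8) ^ (be p / 8) :=
            Real.rpow_le_rpow (by positivity) h5 (by positivity)
        _ = (256 * (C0 : ℝ)) ^ (be p / 8) * (M : ℝ) ^ be p := by
            rw [Real.mul_rpow (by positivity) (by positivity), ← Real.rpow_natCast (M : ℝ) 8,
              ← Real.rpow_mul hM0.le]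
            congr 2
            push_cast
            ring
        _ ≤ (256 * (C0 : ℝ)) ^ (1 : ℝ) * (M : ℝ) ^ be p := by
            apply mul_le_mul_of_nonneg_right _ (by positivity)
            exact Real.rpow_le_rpow_of_exponent_le hC1 (by linarith)
        _ = 256 * C0 * (M : ℝ) ^ be p := by rw [Real.rpow_one]
    calc min (κ / (256 * C0)) (1 / C0) * (n : ℝ) ^ (be p / 8)
        ≤ κ / (256 * C0) * (256 * C0 * (M : ℝ) ^ be p) :=
          mul_le_mul (min_le_left _ _) h9 (by positivity) (by positivity)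
      _ = κ * (M : ℝ) ^ be p := by field_simp

/-- the norm of a polynomial is positive -/
theorem Lp_pos {p : ℝ} (hp : 0 < p) (hp2 : p < 2) {P : Polynomial ℂ} (hP : P ≠ 0) :
    0 < Lp p P := by
  rw [eq_pol (Nat.lt_succ_self P.natDegree), Lp_pol]
  have h1 := nikol (n := P.natDegree.succ) P.coeff hp hp2
  have h2 : 0 < ∫ u, ‖∑ a ∈ Finset.range P.natDegree.succ, P.coeff a * fourier (a : ℤ) u‖ ^ 2
      ∂hc := by
    rw [parseval]
    refine lt_of_lt_of_le ?_ (Finset.single_le_sum (f := fun a => ‖P.coeff a‖ ^ 2)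
      (fun a _ => by positivity) (Finset.mem_range.2 (Nat.lt_succ_self P.natDegree)))
    have : P.coeff P.natDegree ≠ 0 := by
      rw [Polynomial.coeff_natDegree]
      exact Polynomial.leadingCoeff_ne_zero.2 hP
    positivity
  have h3 : 0 < (∫ u, ‖∑ a ∈ Finset.range P.natDegree.succ, P.coeff a * fourier (a : ℤ) u‖ ^ 2
      ∂hc) ^ (p / 2) := Real.rpow_pos_of_pos h2 _
  have h4 : 0 < ∫ u, ‖∑ a ∈ Finset.range P.natDegree.succ, P.coeff a *
      fourier (a : ℤ) u‖ ^ p ∂hc := by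
    by_contra hcon
    push Not at hcon
    have h5 : (P.natDegree.succ : ℝ) ^ (1 - p / 2) * ∫ u, ‖∑ a ∈ Finset.range P.natDegree.succ,
        P.coeff a * fourier (a : ℤ) u‖ ^ p ∂hc ≤ 0 :=
      mul_nonpos_of_nonneg_of_nonpos (by positivity) hcon
    linarith
  exact Real.rpow_pos_of_pos (by positivity) _

/-- **the norm is unbounded** -/
theorem unbounded {p : ℝ} (hp : 0 < p) (hp2 : p < 2) (c : ℝ) : ∃ (n : ℕ) (P : Polynomial ℂ),
    P ≠ 0 ∧ P.natDegree ≤ n ∧ c * Lp p P < Lp p (S P) := by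
  obtain ⟨d, hd, h⟩ := lower hp hp2
  have hb := be_pos hp hp2
  have hb8 : 0 < be p / 8 := by positivity
  have h1 : Tendsto (fun n : ℕ => d * (n : ℝ) ^ (be p / 8)) atTop atTop :=
    ((tendsto_rpow_atTop hb8).comp tendsto_natCast_atTop_atTop).const_mul_atTop hd
  obtain ⟨n, hn1, hn2⟩ := ((eventually_ge_atTop 1).and (h1.eventually_gt_atTop c)).exists
  obtain ⟨P, hP0, hPd, hP⟩ := h n hn1
  refine ⟨n, P, hP0, hPd, lt_of_lt_of_le ?_ hP⟩
  exact mul_lt_mul_of_pos_right hn2 (Lp_pos hp hp2 hP0)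

end

end Pool.Agent.Q203.TR
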