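import Mathlib
import Pool.Agent.Q203.TR.A2

/-!
# The derivatives of `x ↦ (1 + i x) / |1 + i x|` and mixed differences of any order
-/

set_option autoImplicit false

open MeasureTheory Filter Topology Complex

namespace Pool.Agent.Q203.TR

noncomputable section

/-- the `k`-th derivative -/
def phd (k : ℕ) : ℝ → ℂ := iteratedDeriv k ph

theorem contDiff_ph : ContDiff ℝ ⊤ ph := by
  unfold ph
  have h : ContDiff ℝ ⊤ (fun x : ℝ => ((Real.arctan x : ℝ) : ℂ)) :=
    Complex.ofRealCLM.contDiff.comp Real.contDiff_arctan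
  exact (h.mul contDiff_const).cexp

theorem phd_zero : phd 0 = ph := iteratedDeriv_zero

theorem hasDeriv_phd (k : ℕ) (x : ℝ) : HasDerivAt (phd k) (phd (k + 1) x) x := by
  unfold phd
  rw [iteratedDeriv_succ]
  exact (ContDiff.differentiable_iteratedDeriv' k (contDiff_ph.of_le le_top) x).hasDerivAt

theorem phd_one (x : ℝ) : (1 + (x : ℂ) ^ 2) * phd 1 x = I * ph x := by
  have h := hasDeriv_phd 0 x
  rw [phd_zero] at h
  have h2 := h.unique (hasDeriv_ph x)
  rw [zero_add] at h2
  rw [h2]
  have := ne0 x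
  field_simp

/-- recursion -/
theorem phd_rec (k : ℕ) : ∀ x : ℝ, (1 + (x : ℂ) ^ 2) * phd (k + 1) x + 2 * k * x * phd k x +
    k * (k - 1) * phd (k - 1) x = I * phd k x := by
  induction k with
  | zero =>
    intro x
    rw [phd_zero]
    simpa using phd_one x
  | succ k ih =>
    intro x
    have h1 : HasDerivAt (fun y : ℝ => (y : ℂ)) 1 x := Complex.ofRealCLM.hasDerivAt
    have h3 : HasDerivAt (fun y : ℝ => (1 : ℂ) + (y : ℂ) ^ 2) (2 * x) x := by
      have := (h1.pow 2).const_add (1 : ℂ)
      refine this.congr_deriv ?_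
      push_cast
      ring
    have h4 : HasDerivAt (fun y : ℝ => 2 * (k : ℂ) * (y : ℂ)) (2 * k) x := by
      have := h1.const_mul (2 * (k : ℂ))
      refine this.congr_deriv ?_
      ring
    have hL := ((h3.mul (hasDeriv_phd (k + 1) x)).add (h4.mul (hasDeriv_phd k x))).add
      ((hasDeriv_phd (k - 1) x).const_mul ((k : ℂ) * (k - 1)))
    have hR := (hasDeriv_phd k x).const_mul I
    have he : ((fun y : ℝ => (1 : ℂ) + (y : ℂ) ^ 2) * phd (k + 1) +
        (fun y : ℝ => 2 * (k : ℂ) * (y : ℂ)) * phd k +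
        fun y : ℝ => (k : ℂ) * (k - 1) * phd (k - 1) y) = fun y => I * phd k y := by
      funext y
      exact ih y
    have hL' := hL
    rw [he] at hL'
    have h5 := hL'.unique hR
    have h6 : (k : ℂ) * (k - 1) * phd (k - 1 + 1) x = (k : ℂ) * (k - 1) * phd k x := by
      rcases Nat.eq_zero_or_pos k with rfl | hk
      · simp
      · rw [Nat.sub_add_cancel hk]
    rw [h6] at h5
    have h7 : k + 1 - 1 = k := by omega
    rw [h7]
    push_cast
    linear_combination h5

theorem phd_bdd (k : ℕ) : ∃ C : ℝ, 0 < C ∧ ∀ x, ‖phd k x‖ ≤ C := by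
  induction k using Nat.strong_induction_on with
  | _ k ih =>
    rcases k with _ | k
    · exact ⟨1, one_pos, fun x => by rw [phd_zero, ph_norm]⟩
    · obtain ⟨C1, hC1, h1⟩ := ih k (by omega)
      obtain ⟨C2, hC2, h2⟩ := ih (k - 1) (by omega)
      refine ⟨(1 + k) * C1 + k * (k + 1) * C2, by positivity, fun x => ?_⟩
      have hr := phd_rec k x
      have hd : (0 : ℝ) < 1 + x ^ 2 := by positivity
      have e : (1 + (x : ℂ) ^ 2) * phd (k + 1) x = I * phd k x - 2 * k * x * phd k x -
          k * (k - 1) * phd (k - 1) x := by linear_combination hr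
      have h3 : (1 + x ^ 2) * ‖phd (k + 1) x‖ ≤ C1 + 2 * k * |x| * C1 + k * (k + 1) * C2 := by
        rw [← nrm, ← norm_mul, e]
        refine (norm_sub_le _ _).trans (add_le_add ((norm_sub_le _ _).trans (add_le_add ?_ ?_)) ?_)
        · rw [norm_mul, norm_I, one_mul]
          exact h1 x
        · rw [norm_mul, norm_mul, norm_mul, Complex.norm_ofNat, Complex.norm_natCast,
            Complex.norm_real, Real.norm_eq_abs]
          exact mul_le_mul_of_nonneg_left (h1 x) (by positivity)
        · rw [norm_mul, norm_mul, Complex.norm_natCast]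
          have h4 : ‖(k : ℂ) - 1‖ ≤ k + 1 := by
            refine (norm_sub_le _ _).trans ?_
            rw [Complex.norm_natCast, norm_one]
          exact mul_le_mul (mul_le_mul_of_nonneg_left h4 (by positivity)) (h2 x)
            (norm_nonneg _) (by positivity)
      have h5 : 2 * |x| ≤ 1 + x ^ 2 := by
        nlinarith [sq_nonneg (|x| - 1), sq_abs x]
      have h6 : (1 + x ^ 2) * ‖phd (k + 1) x‖ ≤
          (1 + x ^ 2) * ((1 + k) * C1 + k * (k + 1) * C2) := by
        refine h3.trans ?_
        have h7 : (k : ℝ) * C1 * (2 * |x|) ≤ (k : ℝ) * C1 * (1 + x ^ 2) :=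
          mul_le_mul_of_nonneg_left h5 (by positivity)
        have h8 : 0 ≤ x ^ 2 * C1 := by positivity
        have h9 : 0 ≤ x ^ 2 * (k * (k + 1) * C2) := by positivity
        nlinarith
      exact le_of_mul_le_mul_left h6 hd

theorem phd_lip (k : ℕ) : ∃ C : ℝ, 0 < C ∧ ∀ y : ℝ, ‖phd k y - phd k 0‖ ≤ C * |y| := by
  obtain ⟨C, hC, h⟩ := phd_bdd (k + 1)
  refine ⟨C, hC, fun y => ?_⟩
  have h := Convex.norm_image_sub_le_of_norm_hasDerivWithin_le (f := phd k)
    (f' := phd (k + 1)) (C := C) (s := Set.univ) (x := 0) (y := y)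
    (fun x _ => (hasDeriv_phd k x).hasDerivWithinAt) (fun x _ => h x) convex_univ
    (Set.mem_univ _) (Set.mem_univ _)
  rwa [sub_zero, Real.norm_eq_abs] at h

theorem phd_even (j : ℕ) : phd (2 * j) 0 ≠ 0 ∧
    phd (2 * j + 1) 0 = (2 * j + 1) * I * phd (2 * j) 0 := by
  induction j with
  | zero =>
    have h := phd_one 0
    rw [mul_zero, zero_add, phd_zero]
    refine ⟨by rw [ph_zero]; exact one_ne_zero, ?_⟩
    simpa using h
  | succ j ih =>
    obtain ⟨h1, h2⟩ := ih
    have r1 := phd_rec (2 * j + 1) 0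
    have r2 := phd_rec (2 * j + 2) 0
    have e1 : 2 * j + 1 - 1 = 2 * j := by omega
    have e2 : 2 * j + 2 - 1 = 2 * j + 1 := by omega
    rw [e1] at r1
    rw [e2] at r2
    have e3 : 2 * (j + 1) = 2 * j + 1 + 1 := by ring
    have hI : I ^ 2 = -1 := I_sq
    have h3 : phd (2 * j + 1 + 1) 0 = -(2 * j + 1) ^ 2 * phd (2 * j) 0 := by
      push_cast at r1
      rw [h2] at r1
      linear_combination r1 + (2 * (j : ℂ) + 1) * phd (2 * j) 0 * hI
    rw [e3]
    refine ⟨?_, ?_⟩
    · rw [h3]
      apply mul_ne_zero _ h1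
      rw [neg_ne_zero]
      apply pow_ne_zero
      exact_mod_cast (by omega : 2 * j + 1 ≠ 0)
    · have e4 : 2 * j + 2 + 1 = 2 * j + 1 + 1 + 1 := by ring
      have e5 : 2 * j + 2 = 2 * j + 1 + 1 := by ring
      rw [e4, e5] at r2
      push_cast at r2 ⊢
      rw [h2] at r2
      linear_combination r2 - (2 * (j : ℂ) + 2) * I * h3

/-- mixed differences -/
def Dl : List ℝ → (ℝ → ℂ) → ℝ → ℂ
  | [], g, X => g X
  | α :: L, g, X => Dl L g (X + α) - Dl L g (X - α)

theorem Dl_deriv (L : List ℝ) {g g' : ℝ → ℂ} (h : ∀ x, HasDerivAt g (g' x) x) :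
    ∀ x, HasDerivAt (Dl L g) (Dl L g' x) x := by
  induction L with
  | nil => exact h
  | cons α L ih =>
    intro x
    have e1 : HasDerivAt (fun s : ℝ => s + α) 1 x := by
      simpa using (hasDerivAt_id x).add_const α
    have e2 : HasDerivAt (fun s : ℝ => s - α) 1 x := by
      simpa using (hasDerivAt_id x).sub_const α
    have h1 := (ih (x + α)).scomp x e1
    have h2 := (ih (x - α)).scomp x e2
    have h3 := h1.sub h2
    refine h3.congr_deriv ?_
    simp [Dl]

theorem Dl_approx (b : ℂ) {C : ℝ} (hC : 0 ≤ C) (L : List ℝ) : ∀ (g : ℕ → ℝ → ℂ),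
    (∀ j x, HasDerivAt (g j) (g (j + 1) x) x) → (∀ y, ‖g L.length y - b‖ ≤ C * |y|) →
    ∀ X : ℝ, ‖Dl L (g 0) X - 2 ^ L.length * ((L.prod : ℝ) : ℂ) * b‖ ≤
      2 ^ L.length * (L.map fun α => |α|).prod * (C * (|X| + (L.map fun α => |α|).sum)) := by
  induction L with
  | nil =>
    intro g _ hb X
    simpa [Dl] using hb X
  | cons α L ih =>
    intro g hg hb X
    have ih' := ih (fun j => g (j + 1)) (fun j x => hg (j + 1) x) hb
    have hder := Dl_deriv L (hg 0)
    set c : ℂ := 2 ^ L.length * ((L.prod : ℝ) : ℂ) * b with hc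
    have hder2 : ∀ s : ℝ, HasDerivAt (fun s : ℝ => Dl L (g 0) s - c * (s : ℂ))
        (Dl L (g 1) s - c) s := by
      intro s
      have h1 : HasDerivAt (fun y : ℝ => (y : ℂ)) 1 s := Complex.ofRealCLM.hasDerivAt
      have := (hder s).sub (h1.const_mul c)
      refine this.congr_deriv ?_
      rw [mul_one]
    have hbd : ∀ s ∈ Set.Icc (X - |α|) (X + |α|), ‖Dl L (g 1) s - c‖ ≤
        2 ^ L.length * (L.map fun α => |α|).prod * (C * (|X| + |α| +
          (L.map fun α => |α|).sum)) := by
      intro s hs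
      refine (ih' s).trans ?_
      have hp : 0 ≤ (L.map fun α => |α|).prod := List.prod_nonneg (by
        intro a ha
        obtain ⟨b, -, rfl⟩ := List.mem_map.1 ha
        exact abs_nonneg b)
      have h3 : |s| ≤ |X| + |α| := by
        rw [abs_le]
        have := abs_le.1 (le_refl |X|)
        constructor
        · linarith [hs.1, this.1]
        · linarith [hs.2, this.2]
      gcongr
    have ma : X + α ∈ Set.Icc (X - |α|) (X + |α|) := by
      have := abs_le.1 (le_refl |α|)
      constructor <;> linarith [this.1, this.2]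
    have mb : X - α ∈ Set.Icc (X - |α|) (X + |α|) := by
      have := abs_le.1 (le_refl |α|)
      constructor <;> linarith [this.1, this.2]
    have h := Convex.norm_image_sub_le_of_norm_hasDerivWithin_le
      (f := fun s : ℝ => Dl L (g 0) s - c * (s : ℂ))
      (f' := fun s => Dl L (g 1) s - c)
      (s := Set.Icc (X - |α|) (X + |α|)) (x := X - α) (y := X + α)
      (fun x _ => (hder2 x).hasDerivWithinAt) hbd (convex_Icc _ _) mb ma
    have e1 : X + α - (X - α) = 2 * α := by ring
    rw [e1, Real.norm_eq_abs, abs_mul, abs_two] at h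
    have e2 : Dl (α :: L) (g 0) X - 2 ^ (α :: L).length * (((α :: L).prod : ℝ) : ℂ) * b =
        Dl L (g 0) (X + α) - c * ((X + α : ℝ) : ℂ) -
          (Dl L (g 0) (X - α) - c * ((X - α : ℝ) : ℂ)) := by
      rw [hc]
      simp only [Dl, List.length_cons, List.prod_cons]
      push_cast
      ring
    rw [e2]
    refine h.trans (le_of_eq ?_)
    simp only [List.length_cons, List.map_cons, List.prod_cons, List.sum_cons]
    ring

end

end Pool.Agent.Q203.TR
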