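import Mathlib
import Pool.Agent.Q203.TR.B2
import Pool.Agent.Q203.TR.A3

/-!
# The Fourier coefficients of any order
-/

set_option autoImplicit false

open MeasureTheory Filter Topology Complex

namespace Pool.Agent.Q203.TR

noncomputable section

section

variable {ι : Type} [Fintype ι] [DecidableEq ι]

/-- the character -/
def ch (I : List ι) (x : ι → UnitAddCircle) : ℂ := (I.map fun i => fourier (-1) (x i)).prod

/-- the list of the increments -/
def cosl (ε : ℝ) (I : List ι) (x : ι → UnitAddCircle) : List ℝ := I.map fun i => ε * co (x i)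

omit [Fintype ι] [DecidableEq ι] in
theorem ch_cont (I : List ι) : Continuous (ch I) := by
  induction I with
  | nil =>
    have : ch ([] : List ι) = fun _ => 1 := by
      funext x
      simp [ch]
    rw [this]
    exact continuous_const
  | cons i I ih =>
    have : ch (i :: I) = fun x => fourier (-1) (x i) * ch I x := by
      funext x
      simp [ch]
    rw [this]
    fun_prop

omit [Fintype ι] [DecidableEq ι] in
theorem ch_norm (I : List ι) (x : ι → UnitAddCircle) : ‖ch I x‖ = 1 := by
  induction I with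
  | nil => simp [ch]
  | cons i I ih =>
    have : ch (i :: I) x = fourier (-1) (x i) * ch I x := by simp [ch]
    rw [this, norm_mul, fourier_nrm, ih, one_mul]

omit [Fintype ι] [DecidableEq ι] in
theorem ch_cons (i : ι) (I : List ι) (x : ι → UnitAddCircle) :
    ch (i :: I) x = fourier (-1) (x i) * ch I x := by simp [ch]

omit [Fintype ι] [DecidableEq ι] in
theorem cosl_cons (ε : ℝ) (i : ι) (I : List ι) (x : ι → UnitAddCircle) :
    cosl ε (i :: I) x = ε * co (x i) :: cosl ε I x := by simp [cosl]

omit [Fintype ι] in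
theorem ch_inv {I : List ι} {i : ι} (hi : i ∉ I) (x : ι → UnitAddCircle) (v : UnitAddCircle) :
    ch I (x + Pi.single i v) = ch I x := by
  unfold ch
  congr 1
  refine List.map_congr_left fun j hj => ?_
  have hji : j ≠ i := fun h => hi (h ▸ hj)
  rw [Pi.add_apply, Pi.single_eq_of_ne hji, add_zero]

omit [Fintype ι] in
theorem cosl_inv {I : List ι} {i : ι} (hi : i ∉ I) (ε : ℝ) (x : ι → UnitAddCircle)
    (v : UnitAddCircle) : cosl ε I (x + Pi.single i v) = cosl ε I x := by
  unfold cosl
  refine List.map_congr_left fun j hj => ?_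
  have hji : j ≠ i := fun h => hi (h ▸ hj)
  rw [Pi.add_apply, Pi.single_eq_of_ne hji, add_zero]

omit [Fintype ι] [DecidableEq ι] in
theorem cosl_sum_cont (ε : ℝ) (I : List ι) : Continuous fun x => (cosl ε I x).sum := by
  have hco := co_cont
  induction I with
  | nil => simpa [cosl] using continuous_const
  | cons i I ih =>
    simp_rw [cosl_cons, List.sum_cons]
    fun_prop

omit [Fintype ι] [DecidableEq ι] in
theorem cosl_prod_cont (ε : ℝ) (I : List ι) : Continuous fun x => (cosl ε I x).prod := by
  have hco := co_cont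
  induction I with
  | nil => simpa [cosl] using continuous_const
  | cons i I ih =>
    simp_rw [cosl_cons, List.prod_cons]
    fun_prop

omit [Fintype ι] in
theorem cosl_sum_shift (ε : ℝ) {I : List ι} (hI : I.Nodup) {i : ι} (hi : i ∈ I)
    (x : ι → UnitAddCircle) : (cosl ε I (x + Pi.single i hf)).sum =
      (cosl ε I x).sum - 2 * (ε * co (x i)) := by
  induction I with
  | nil => simp at hi
  | cons j I ih =>
    rw [cosl_cons, cosl_cons, List.sum_cons, List.sum_cons]
    rw [List.nodup_cons] at hI
    rcases List.mem_cons.1 hi with rfl | h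
    · rw [cosl_inv hI.1, Pi.add_apply, Pi.single_eq_same, co_hf]
      ring
    · have hji : j ≠ i := fun e => hI.1 (e ▸ h)
      rw [ih hI.2 h, Pi.add_apply, Pi.single_eq_of_ne hji, add_zero]
      ring

omit [Fintype ι] [DecidableEq ι] in
theorem Dl_cont (ε : ℝ) {h : ℝ → ℂ} (hh : Continuous h) (I : List ι) :
    ∀ {Z : (ι → UnitAddCircle) → ℝ}, Continuous Z →
      Continuous fun x => Dl (cosl ε I x) h (Z x) := by
  have hco := co_cont
  induction I with
  | nil =>
    intro Z hZ
    exact hh.comp hZ
  | cons i I ih =>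
    intro Z hZ
    simp_rw [cosl_cons]
    exact (ih (Z := fun x => Z x + ε * co (x i)) (by fun_prop)).sub
      (ih (Z := fun x => Z x - ε * co (x i)) (by fun_prop))

/-- **symmetrization** -/
theorem sym (ε : ℝ) {h : ℝ → ℂ} (hh : Continuous h) (I : List ι) : I.Nodup →
    ∀ {Z : (ι → UnitAddCircle) → ℝ} {W : (ι → UnitAddCircle) → ℂ}, Continuous Z → Continuous W →
    (∀ i ∈ I, ∀ x, Z (x + Pi.single i hf) = Z x) → (∀ i ∈ I, ∀ x, W (x + Pi.single i hf) = W x) →
    2 ^ I.length * ∫ x, h (Z x + (cosl ε I x).sum) * (ch I x * W x) ∂(mu ι) =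
      ∫ x, Dl (cosl ε I x) h (Z x) * (ch I x * W x) ∂(mu ι) := by
  have hco := co_cont
  induction I with
  | nil =>
    intro _ Z W hZ hW _ _
    simp [cosl, Dl]
  | cons i I ih =>
    intro hI Z W hZ hW hZi hWi
    rw [List.nodup_cons] at hI
    have hch := ch_cont I
    have hs := cosl_sum_cont ε I
    have hZ1 : Continuous fun x => Z x + ε * co (x i) := by fun_prop
    have hZ2 : Continuous fun x => Z x - ε * co (x i) := by fun_prop
    have hW1 : Continuous fun x => fourier (-1) (x i) * W x := by fun_prop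
    have hx : ∀ j ∈ I, ∀ x : ι → UnitAddCircle, (x + Pi.single j hf : ι → UnitAddCircle) i = x i := by
      intro j hj x
      have hij : i ≠ j := fun e => hI.1 (e ▸ hj)
      rw [Pi.add_apply, Pi.single_eq_of_ne hij, add_zero]
    have ih1 := ih hI.2 hZ1 hW1 (fun j hj x => by
      rw [hZi j (List.mem_cons_of_mem _ hj), hx j hj]) (fun j hj x => by
      rw [hWi j (List.mem_cons_of_mem _ hj), hx j hj])
    have ih2 := ih hI.2 hZ2 hW1 (fun j hj x => by
      rw [hZi j (List.mem_cons_of_mem _ hj), hx j hj]) (fun j hj x => by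
      rw [hWi j (List.mem_cons_of_mem _ hj), hx j hj])
    have hD1 := Dl_cont ε hh I hZ1
    have hD2 := Dl_cont ε hh I hZ2
    have e1 : ∫ x, h (Z x + (cosl ε (i :: I) x).sum) * (ch (i :: I) x * W x) ∂(mu ι) =
        ∫ x, h (Z x + ε * co (x i) + (cosl ε I x).sum) * (ch I x * (fourier (-1) (x i) * W x))
          ∂(mu ι) := by
      congr 1
      ext x
      rw [cosl_cons, List.sum_cons, ch_cons, ← add_assoc]
      ring
    have e2 : ∫ x, h (Z x + (cosl ε (i :: I) x).sum) * (ch (i :: I) x * W x) ∂(mu ι) =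
        -∫ x, h (Z x - ε * co (x i) + (cosl ε I x).sum) * (ch I x * (fourier (-1) (x i) * W x))
          ∂(mu ι) := by
      rw [← shift _ (Pi.single i hf), ← integral_neg]
      congr 1
      ext x
      rw [cosl_cons, List.sum_cons, ch_cons, cosl_inv hI.1, ch_inv hI.1,
        hZi i List.mem_cons_self, hWi i List.mem_cons_self, Pi.add_apply, Pi.single_eq_same,
        co_hf, fourier_hf']
      have : Z x + (ε * -co (x i) + (cosl ε I x).sum) = Z x - ε * co (x i) +
        (cosl ε I x).sum := by ring
      rw [this]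
      ring
    have e3 : ∫ x, Dl (cosl ε (i :: I) x) h (Z x) * (ch (i :: I) x * W x) ∂(mu ι) =
        ∫ x, Dl (cosl ε I x) h (Z x + ε * co (x i)) * (ch I x * (fourier (-1) (x i) * W x))
          ∂(mu ι) -
        ∫ x, Dl (cosl ε I x) h (Z x - ε * co (x i)) * (ch I x * (fourier (-1) (x i) * W x))
          ∂(mu ι) := by
      rw [← integral_sub (integ (by fun_prop)) (integ (by fun_prop))]
      congr 1
      ext x
      rw [cosl_cons, ch_cons]
      simp only [Dl]
      ring
    rw [e3, ← ih1, ← ih2, List.length_cons, pow_succ]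
    linear_combination 2 ^ I.length * e1 + 2 ^ I.length * e2

/-- one quarter (up to the sign) -/
def qq : UnitAddCircle := (((1 : ℝ) / 2 / ((-2 : ℤ) : ℝ) : ℝ) : UnitAddCircle)

theorem fourier_qq (u : UnitAddCircle) : fourier (-2) (u + qq) = - fourier (-2) u :=
  fourier_add_half_inv_index (T := 1) (n := -2) (by norm_num) one_pos u

theorem co_chi (u : UnitAddCircle) : (co u : ℂ) * fourier (-1) u = 1 + fourier (-2) u := by
  rw [co_eq]
  have h2 : fourier (-2) u = fourier (-1) u * fourier (-1) u := by
    rw [← fourier_add]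
    norm_num
  have h3 : fourier 1 u * fourier (-1) u = 1 := by
    rw [← fourier_add]
    norm_num
  rw [h2]
  linear_combination h3

/-- the main term -/
def mainf (I : List ι) (x : ι → UnitAddCircle) : ℂ :=
  (I.map fun i => (co (x i) : ℂ) * fourier (-1) (x i)).prod

omit [Fintype ι] [DecidableEq ι] in
theorem mainf_cons (i : ι) (I : List ι) (x : ι → UnitAddCircle) :
    mainf (i :: I) x = (1 + fourier (-2) (x i)) * mainf I x := by
  unfold mainf
  rw [List.map_cons, List.prod_cons, co_chi]

omit [Fintype ι] [DecidableEq ι] in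
theorem mainf_cont (I : List ι) : Continuous (mainf I) := by
  induction I with
  | nil =>
    have : mainf ([] : List ι) = fun _ => 1 := by
      funext x
      simp [mainf]
    rw [this]
    exact continuous_const
  | cons i I ih =>
    have : mainf (i :: I) = fun x => (1 + fourier (-2) (x i)) * mainf I x :=
      funext (mainf_cons i I)
    rw [this]
    fun_prop

omit [Fintype ι] in
theorem mainf_inv {I : List ι} {i : ι} (hi : i ∉ I) (x : ι → UnitAddCircle) (v : UnitAddCircle) :
    mainf I (x + Pi.single i v) = mainf I x := by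
  unfold mainf
  congr 1
  refine List.map_congr_left fun j hj => ?_
  have hji : j ≠ i := fun h => hi (h ▸ hj)
  rw [Pi.add_apply, Pi.single_eq_of_ne hji, add_zero]

theorem mainf_int (I : List ι) : I.Nodup → ∫ x, mainf I x ∂(mu ι) = 1 := by
  induction I with
  | nil =>
    intro _
    simp [mainf]
  | cons i I ih =>
    intro hI
    rw [List.nodup_cons] at hI
    have hm := mainf_cont I
    simp_rw [mainf_cons, add_mul, one_mul]
    rw [integral_add (integ (by fun_prop)) (integ (by fun_prop)), ih hI.2]
    have z : ∫ x, fourier (-2) (x i) * mainf I x ∂(mu ι) = 0 := by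
      refine integral_eq_zero_of_add_right_eq_neg (μ := mu ι) (g := Pi.single i qq) fun x => ?_
      rw [mainf_inv hI.1, Pi.add_apply, Pi.single_eq_same, fourier_qq, neg_mul]
    rw [z, add_zero]

omit [Fintype ι] [DecidableEq ι] in
theorem prod_ch (ε : ℝ) (I : List ι) (x : ι → UnitAddCircle) :
    (((cosl ε I x).prod : ℝ) : ℂ) * ch I x = (ε : ℂ) ^ I.length * mainf I x := by
  induction I with
  | nil => simp [cosl, ch, mainf]
  | cons i I ih =>
    rw [cosl_cons, List.prod_cons, ch_cons, List.length_cons, pow_succ]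
    have e : mainf (i :: I) x = (co (x i) : ℂ) * fourier (-1) (x i) * mainf I x := by
      unfold mainf
      rw [List.map_cons, List.prod_cons]
    rw [e]
    push_cast
    linear_combination (ε : ℂ) * (co (x i) : ℂ) * fourier (-1) (x i) * ih

omit [Fintype ι] [DecidableEq ι] in
theorem abs_prod {ε : ℝ} (hε : 0 ≤ ε) (I : List ι) (x : ι → UnitAddCircle) :
    0 ≤ ((cosl ε I x).map fun α => |α|).prod ∧
    ((cosl ε I x).map fun α => |α|).prod ≤ (2 * ε) ^ I.length ∧
    ((cosl ε I x).map fun α => |α|).sum ≤ 2 * ε * I.length ∧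
    |(cosl ε I x).sum| ≤ 2 * ε * I.length := by
  induction I with
  | nil => simp [cosl]
  | cons i I ih =>
    obtain ⟨h1, h2, h3, h4⟩ := ih
    rw [cosl_cons]
    simp only [List.map_cons, List.prod_cons, List.sum_cons, List.length_cons]
    have ha : |ε * co (x i)| ≤ 2 * ε := by
      rw [abs_mul, abs_of_nonneg hε]
      nlinarith [co_le (x i)]
    refine ⟨mul_nonneg (abs_nonneg _) h1, ?_, ?_, ?_⟩
    · rw [pow_succ, mul_comm ((2 * ε) ^ I.length)]
      exact mul_le_mul ha h2 h1 (by positivity)
    · push_cast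
      linarith
    · refine (abs_add_le _ _).trans ?_
      push_cast
      linarith

/-- the coefficient -/
def cfl (ε : ℝ) (I : List ι) : ℂ := ∫ x, ff ε x * ch I x ∂(mu ι)

/-- **the coefficient of order `k`** -/
theorem cfl_est (k : ℕ) : ∃ C : ℝ, 0 < C ∧ ∀ (κ : Type) [Fintype κ] [DecidableEq κ] {ε : ℝ},
    0 ≤ ε → ∀ I : List κ, I.Nodup → I.length = k →
    ‖cfl ε I - (ε : ℂ) ^ k * phd k 0‖ ≤ (2 * ε) ^ k * (C * ε * (∫ x, |Y x| ∂(mu κ) + 4 * k)) := by
  obtain ⟨C, hC, hlip⟩ := phd_lip k
  refine ⟨C, hC, fun κ _ _ ε hε I hI hk => ?_⟩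
  subst hk
  have hY := Y_cont (ι := κ)
  have hph := cont_ph
  have hch := ch_cont I
  have hs := cosl_sum_cont ε I
  have hpr := cosl_prod_cont ε I
  have hmf := mainf_cont I
  have hZ : Continuous fun x : κ → UnitAddCircle => ε * Y x - (cosl ε I x).sum := by fun_prop
  have hDl := Dl_cont ε hph I hZ
  have hsym := sym ε hph I hI hZ (continuous_const (y := (1 : ℂ))) (fun i hi x => by
    rw [Y_shift, cosl_sum_shift ε hI hi]
    ring) (fun i hi x => rfl)
  simp only [mul_one] at hsym
  have e1 : ∀ x : κ → UnitAddCircle, ph (ε * Y x - (cosl ε I x).sum + (cosl ε I x).sum) =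
      ff ε x := by
    intro x
    unfold ff
    rw [sub_add_cancel]
  simp_rw [e1] at hsym
  have hmain : ∫ x, 2 ^ I.length * (((cosl ε I x).prod : ℝ) : ℂ) * phd I.length 0 * ch I x
      ∂(mu κ) = 2 ^ I.length * ((ε : ℂ) ^ I.length * phd I.length 0) := by
    have e2 : ∀ x : κ → UnitAddCircle, 2 ^ I.length * (((cosl ε I x).prod : ℝ) : ℂ) *
        phd I.length 0 * ch I x = (2 ^ I.length * (ε : ℂ) ^ I.length * phd I.length 0) *
        mainf I x := by
      intro x
      linear_combination (2 ^ I.length * phd I.length 0) * prod_ch ε I x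
    simp_rw [e2]
    rw [integral_const_mul, mainf_int I hI]
    ring
  have h4 : 2 ^ I.length * (cfl ε I - (ε : ℂ) ^ I.length * phd I.length 0) =
      ∫ x, (Dl (cosl ε I x) ph (ε * Y x - (cosl ε I x).sum) -
        2 ^ I.length * (((cosl ε I x).prod : ℝ) : ℂ) * phd I.length 0) * ch I x ∂(mu κ) := by
    simp_rw [sub_mul]
    rw [integral_sub (integ (by fun_prop)) (integ (by fun_prop)), hmain, ← hsym]
    unfold cfl
    ring
  have h5 : ‖∫ x, (Dl (cosl ε I x) ph (ε * Y x - (cosl ε I x).sum) -
        2 ^ I.length * (((cosl ε I x).prod : ℝ) : ℂ) * phd I.length 0) * ch I x ∂(mu κ)‖ ≤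
      ∫ x, 2 ^ I.length * ((2 * ε) ^ I.length * (C * ε * (|Y x| + 4 * I.length))) ∂(mu κ) := by
    refine (norm_integral_le_integral_norm _).trans ?_
    refine integral_mono (integ (by fun_prop)) (integ (by fun_prop)) fun x => ?_
    simp only
    rw [norm_mul, ch_norm, mul_one]
    have hlen : (cosl ε I x).length = I.length := by simp [cosl]
    have h6 := Dl_approx (phd I.length 0) hC.le (cosl ε I x) phd hasDeriv_phd
      (by rw [hlen]; exact hlip) (ε * Y x - (cosl ε I x).sum)
    rw [hlen, phd_zero] at h6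
    refine h6.trans ?_
    obtain ⟨p0, p1, p2, p3⟩ := abs_prod hε I x
    have a3 : |ε * Y x - (cosl ε I x).sum| ≤ ε * |Y x| + 2 * ε * I.length := by
      have b1 := abs_sub (ε * Y x) (cosl ε I x).sum
      rw [abs_mul, abs_of_nonneg hε] at b1
      linarith
    have a4 : C * (|ε * Y x - (cosl ε I x).sum| + ((cosl ε I x).map fun α => |α|).sum) ≤
        C * ε * (|Y x| + 4 * I.length) := by
      rw [mul_assoc]
      apply mul_le_mul_of_nonneg_left _ hC.le
      linarith
    have a5 : 0 ≤ C * (|ε * Y x - (cosl ε I x).sum| + ((cosl ε I x).map fun α => |α|).sum) := by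
      have : 0 ≤ ((cosl ε I x).map fun α => |α|).sum := List.sum_nonneg (by
        intro a ha
        obtain ⟨b, -, rfl⟩ := List.mem_map.1 ha
        exact abs_nonneg b)
      positivity
    rw [mul_assoc]
    apply mul_le_mul_of_nonneg_left _ (by positivity)
    exact mul_le_mul p1 a4 a5 (by positivity)
  have h6 : ∫ x, 2 ^ I.length * ((2 * ε) ^ I.length * (C * ε * (|Y x| + 4 * I.length))) ∂(mu κ) =
      2 ^ I.length * ((2 * ε) ^ I.length * (C * ε * (∫ x, |Y x| ∂(mu κ) + 4 * I.length))) := by
    rw [integral_const_mul, integral_const_mul, integral_const_mul,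
      integral_add (integ (by fun_prop)) (integ (by fun_prop))]
    simp
  rw [← h4, h6, norm_mul, norm_pow, Complex.norm_ofNat] at h5
  exact le_of_mul_le_mul_left h5 (by positivity)

end

end

end Pool.Agent.Q203.TR
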