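import Mathlib
import Pool.Agent.Q203.TR.B3
import Pool.Agent.Q203.TR.A6

/-!
# Peaks of any order
-/

set_option autoImplicit false

open MeasureTheory Filter Topology Complex

namespace Pool.Agent.Q203.TR

noncomputable section

section

variable {ι : Type} [Fintype ι]

theorem FF_peak' (ε : ℝ) (J n : ℕ) (x : ι → UnitAddCircle) (σ : (ι → UnitAddCircle) → UnitAddCircle)
    (hσ : ∀ (k : ℕ) x, σ (k • x) = k • σ x) (s : UnitAddCircle) :
    ‖FF ε J n x (s - σ x)‖ =
      ‖∑ a ∈ Finset.range n, ff ε ((J + a) • x) * fourier (-1) (σ ((J + a) • x)) *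
        fourier (a : ℤ) s‖ := by
  have h : FF ε J n x (s - σ x) = fourier (J : ℤ) (σ x) *
      ∑ a ∈ Finset.range n, ff ε ((J + a) • x) * fourier (-1) (σ ((J + a) • x)) *
        fourier (a : ℤ) s := by
    unfold FF
    rw [Finset.mul_sum]
    refine Finset.sum_congr rfl fun a _ => ?_
    have e1 : fourier (-1) (σ ((J + a) • x)) = fourier (-((J : ℤ) + a)) (σ x) := by
      rw [hσ, fourier_nsmul]
      push_cast
      ring_nf
    have e2 : fourier (a : ℤ) (s - σ x) = fourier (a : ℤ) s * fourier (-(a : ℤ)) (σ x) := by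
      rw [sub_eq_add_neg, fourier_apply, fourier_apply, fourier_apply, smul_add,
        AddCircle.toCircle_add, smul_neg, neg_smul, Circle.coe_mul]
    have e3 : fourier (J : ℤ) (σ x) * fourier (-((J : ℤ) + a)) (σ x) =
        fourier (-(a : ℤ)) (σ x) := by
      rw [← fourier_add]
      congr 2
      ring
    rw [e1, e2, ← e3]
    ring
  rw [h, norm_mul, fourier_nrm, one_mul]

theorem two_eta' (ε : ℝ) {η : ℝ} {n : ℕ} (hn : 0 < n)
    (σ : (ι → UnitAddCircle) → UnitAddCircle) (hσ : ∀ (k : ℕ) x, σ (k • x) = k • σ x)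
    {c : ℂ} (hc : 4 * η ≤ ‖c‖ * n) (J : ℕ) {s : UnitAddCircle} (hs : ‖s‖ ≤ 1 / (8 * n))
    (x : ι → UnitAddCircle) :
    2 * η - ‖∑ a ∈ Finset.range n, (ff ε ((J + a) • x) * fourier (-1) (σ ((J + a) • x)) - c) *
      fourier (a : ℤ) s‖ ≤ ‖FF ε J n x (s - σ x)‖ := by
  rw [FF_peak' ε J n x σ hσ]
  have e1 : ∑ a ∈ Finset.range n, ff ε ((J + a) • x) * fourier (-1) (σ ((J + a) • x)) *
      fourier (a : ℤ) s = c * ∑ a ∈ Finset.range n, fourier (a : ℤ) s +
      ∑ a ∈ Finset.range n, (ff ε ((J + a) • x) * fourier (-1) (σ ((J + a) • x)) - c) *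
        fourier (a : ℤ) s := by
    rw [Finset.mul_sum, ← Finset.sum_add_distrib]
    refine Finset.sum_congr rfl fun a _ => ?_
    ring
  rw [e1]
  have h3 := geo_near hn hs
  have h4 : 2 * η ≤ ‖c * ∑ a ∈ Finset.range n, fourier (a : ℤ) s‖ := by
    rw [norm_mul]
    have := mul_le_mul_of_nonneg_left h3 (norm_nonneg c)
    linarith
  have h5 := norm_sub_le_norm_add (c * ∑ a ∈ Finset.range n, fourier (a : ℤ) s)
    (∑ a ∈ Finset.range n, (ff ε ((J + a) • x) * fourier (-1) (σ ((J + a) • x)) - c) *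
      fourier (a : ℤ) s)
  linarith

/-- **near a peak** the polynomial is large for most `x` -/
theorem near_peak' (ε : ℝ) {η : ℝ} (hη : 0 < η) {n : ℕ} (hn : 0 < n)
    (σ : (ι → UnitAddCircle) → UnitAddCircle) (hσc : Continuous σ)
    (hσ : ∀ (k : ℕ) x, σ (k • x) = k • σ x)
    (hc : 4 * η ≤ ‖∫ x, ff ε x * fourier (-1) (σ x) ∂(mu ι)‖ * n) :
    ∀ᶠ J : ℕ in atTop, ∀ s : UnitAddCircle, ‖s‖ ≤ 1 / (8 * n) →
      ∫ x, (1 - GG ε η J n x (s - σ x)) ∂(mu ι) ≤ 5 * n / (4 * η ^ 2) := by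
  have hff := ff_cont (ι := ι) ε
  obtain ⟨c, hcd⟩ : ∃ c : ℂ, c = ∫ x, ff ε x * fourier (-1) (σ x) ∂(mu ι) := ⟨_, rfl⟩
  rw [← hcd] at hc
  have hc1 : ‖c‖ ≤ 1 := by
    rw [hcd]
    apply norm_int_le
    intro x
    rw [norm_mul, fourier_nrm]
    unfold ff
    rw [ph_norm, one_mul]
  obtain ⟨g, hgd⟩ : ∃ g : C(ι → UnitAddCircle, ℂ), ∀ x, g x = ff ε x * fourier (-1) (σ x) - c :=
    ⟨⟨fun x => ff ε x * fourier (-1) (σ x) - c, by fun_prop⟩, fun _ => rfl⟩
  have hg0 : ∫ x, g x ∂(mu ι) = 0 := by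
    simp_rw [hgd]
    rw [integral_sub (integ (by fun_prop)) (integ (by fun_prop)), ← hcd]
    simp
  have hg : ∀ x, ‖g x‖ ≤ 2 := by
    intro x
    rw [hgd]
    refine (norm_sub_le _ _).trans ?_
    rw [norm_mul, fourier_nrm]
    have h1 : ‖ff ε x‖ = 1 := ph_norm _
    rw [h1]
    linarith
  filter_upwards [second g hg0 hg hn] with J hJ s hs
  have h1 := hJ (fun a => fourier (a : ℤ) s) (fun a => (fourier_nrm _ _).le)
  have hgc : Continuous fun x : ι → UnitAddCircle =>
      ‖∑ a ∈ Finset.range n, g ((J + a) • x) * fourier (a : ℤ) s‖ ^ 2 := by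
    fun_prop
  have hGc : Continuous fun x : ι → UnitAddCircle => 1 - GG ε η J n x (s - σ x) :=
    continuous_const.sub (GG_cont' ε η J n continuous_id
      (by fun_prop : Continuous fun x : ι → UnitAddCircle => s - σ x))
  have hpw : ∀ x, 1 - GG ε η J n x (s - σ x) ≤
      ‖∑ a ∈ Finset.range n, g ((J + a) • x) * fourier (a : ℤ) s‖ ^ 2 * (1 / (4 * η ^ 2)) := by
    intro x
    simp_rw [hgd]
    exact pw hη (two_eta' ε hn σ hσ hc J hs x)
  have h2 : ∫ x, (1 - GG ε η J n x (s - σ x)) ∂(mu ι) ≤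
      ∫ x, ‖∑ a ∈ Finset.range n, g ((J + a) • x) * fourier (a : ℤ) s‖ ^ 2 *
        (1 / (4 * η ^ 2)) ∂(mu ι) :=
    integral_mono (integ hGc) (integ (hgc.mul continuous_const)) hpw
  rw [integral_mul_const] at h2
  refine h2.trans ?_
  have h3 : (∫ x, ‖∑ a ∈ Finset.range n, g ((J + a) • x) * fourier (a : ℤ) s‖ ^ 2 ∂(mu ι)) *
      (1 / (4 * η ^ 2)) ≤ (5 * n) * (1 / (4 * η ^ 2)) :=
    mul_le_mul_of_nonneg_right h1 (by positivity)
  refine h3.trans (le_of_eq ?_)
  rw [mul_one_div]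

end

section

variable {k m : ℕ}

/-- the index set -/
abbrev Idk (k m : ℕ) : Type := Fin k × Fin m

/-- the position of a peak (up to the sign) -/
def sg (p : Fin k → Fin m) (x : Idk k m → UnitAddCircle) : UnitAddCircle := ∑ r, x (r, p r)

theorem sg_cont (p : Fin k → Fin m) : Continuous (sg p) := by
  unfold sg
  fun_prop

theorem sg_smul (p : Fin k → Fin m) (j : ℕ) (x : Idk k m → UnitAddCircle) :
    sg p (j • x) = j • sg p x := by
  unfold sg
  simp only [Pi.smul_apply]
  rw [Finset.smul_sum]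

theorem sg_same (p : Fin k → Fin m) (r : Fin k) (x : Idk k m → UnitAddCircle)
    (v : UnitAddCircle) : sg p (x + Pi.single (r, p r) v) = sg p x + v := by
  unfold sg
  simp only [Pi.add_apply]
  rw [Finset.sum_add_distrib]
  congr 1
  rw [Finset.sum_eq_single r]
  · rw [Pi.single_eq_same]
  · intro r' _ hr'
    apply Pi.single_eq_of_ne
    intro h
    exact hr' (Prod.ext_iff.1 h).1
  · intro h
    exact absurd (Finset.mem_univ r) h

theorem sg_diff {p p' : Fin k → Fin m} {r : Fin k} (h : p r ≠ p' r)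
    (x : Idk k m → UnitAddCircle) (v : UnitAddCircle) :
    sg p (x + Pi.single (r, p' r) v) = sg p x := by
  have h0 : ∑ r', (Pi.single (r, p' r) v : Idk k m → UnitAddCircle) (r', p r') = 0 := by
    refine Finset.sum_eq_zero fun r' _ => ?_
    apply Pi.single_eq_of_ne
    intro h'
    have h1 := (Prod.ext_iff.1 h').1
    have h2 := (Prod.ext_iff.1 h').2
    simp only at h1 h2
    subst h1
    exact h h2
  unfold sg
  simp only [Pi.add_apply]
  rw [Finset.sum_add_distrib, h0, add_zero]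

/-- the tent function of one peak -/
def Kq (n : ℕ) (p : Fin k → Fin m) (z : (Idk k m → UnitAddCircle) × UnitAddCircle) : ℝ :=
  KK n (z.2 + sg p z.1)

theorem Kq_cont (n : ℕ) (p : Fin k → Fin m) : Continuous (Kq n p) := by
  unfold Kq
  have := KK_cont n
  have := sg_cont p
  fun_prop

theorem Kq_int (n : ℕ) (p : Fin k → Fin m) : ∫ z, Kq n p z ∂(PP (Idk k m)) = kap n := by
  rw [xu (Kq_cont n p)]
  have h : ∀ x : Idk k m → UnitAddCircle, ∫ u, Kq n p (x, u) ∂hc = kap n := by
    intro x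
    unfold Kq
    simp only
    exact kap_shift n (sg p x)
  simp_rw [h]
  simp

/-- averaging over one coordinate -/
theorem avgk (n : ℕ) {ι : Type} [Fintype ι] [DecidableEq ι] (i : ι)
    {A : (ι → UnitAddCircle) → ℝ} (hA : Continuous A)
    (hA1 : ∀ x τ, A (x + Pi.single i τ) = A x) {c : (ι → UnitAddCircle) → UnitAddCircle}
    (hc1 : Continuous c) (hc2 : ∀ x τ, c (x + Pi.single i τ) = c x + τ) :
    ∫ x, A x * KK n (c x) ∂(mu ι) = kap n * ∫ x, A x ∂(mu ι) := by
  have h := avg n i hA hA1 (c := fun x => c x - x i) (by fun_prop) (fun x τ => by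
    rw [hc2, Pi.add_apply, Pi.single_eq_same]
    abel)
  simpa using h

/-- independence of two peaks -/
theorem indk (n : ℕ) (u : UnitAddCircle) {p p' : Fin k → Fin m} (h : p ≠ p') :
    ∫ x, KK n (u + sg p x) * KK n (u + sg p' x) ∂(mu (Idk k m)) = kap n ^ 2 := by
  have hK := KK_cont n
  have h1 := sg_cont p
  have h2 := sg_cont p'
  obtain ⟨r, hr⟩ := Function.ne_iff.1 h
  rw [avgk n (r, p' r) (A := fun x => KK n (u + sg p x)) (by fun_prop) (fun x τ => by
    rw [sg_diff hr]) (c := fun x => u + sg p' x) (by fun_prop) (fun x τ => by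
    rw [sg_same, add_assoc])]
  have h3 := avgk n (r, p r) (A := fun _ => (1 : ℝ)) continuous_const (fun _ _ => rfl)
    (c := fun x : Idk k m → UnitAddCircle => u + sg p x) (by fun_prop) (fun x τ => by
    rw [sg_same, add_assoc])
  simp only [one_mul] at h3
  have h5 : ∫ _x : Idk k m → UnitAddCircle, (1 : ℝ) ∂(mu (Idk k m)) = 1 := by simp
  rw [h3, h5]
  ring

theorem Kq_sq (n : ℕ) (p p' : Fin k → Fin m) :
    ∫ z, Kq n p z * Kq n p' z ∂(PP (Idk k m)) ≤ (if p = p' then kap n else 0) + kap n ^ 2 := by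
  have hc1 := Kq_cont n p
  have hc2 := Kq_cont n p'
  split_ifs with h
  · subst h
    have h1 : ∫ z, Kq n p z * Kq n p z ∂(PP (Idk k m)) ≤ kap n := by
      rw [← Kq_int n p]
      refine integral_mono (integP (by fun_prop)) (integP hc1) fun z => ?_
      simp only
      unfold Kq
      exact mul_le_of_le_one_left (KK_nonneg _ _) (KK_le _ _)
    have := sq_nonneg (kap n)
    linarith
  · rw [zero_add, ux (by fun_prop)]
    have h1 : ∀ u : UnitAddCircle, ∫ x, Kq n p (x, u) * Kq n p' (x, u) ∂(mu (Idk k m)) =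
        kap n ^ 2 := by
      intro u
      unfold Kq
      exact indk n u h
    simp_rw [h1]
    simp

/-- the number of peaks -/
def wk (n : ℕ) (z : (Idk k m → UnitAddCircle) × UnitAddCircle) : ℝ :=
  ∑ p : Fin k → Fin m, Kq n p z

theorem wk_cont (n : ℕ) : Continuous (wk (k := k) (m := m) n) := by
  unfold wk
  exact continuous_finsetSum _ fun p _ => Kq_cont n p

theorem wk_int (n : ℕ) : ∫ z, wk n z ∂(PP (Idk k m)) = (m : ℝ) ^ k * kap n := by
  unfold wk
  rw [integral_finsetSum _ fun p _ => integP (Kq_cont n p)]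
  simp_rw [Kq_int]
  rw [Finset.sum_const, Finset.card_univ, Fintype.card_fun, Fintype.card_fin, Fintype.card_fin,
    nsmul_eq_mul]
  push_cast
  ring

theorem wk_sq (n : ℕ) : ∫ z, wk n z ^ 2 ∂(PP (Idk k m)) ≤
    (m : ℝ) ^ k * kap n + ((m : ℝ) ^ k * kap n) ^ 2 := by
  have e : ∀ z : (Idk k m → UnitAddCircle) × UnitAddCircle,
      wk n z ^ 2 = ∑ p : Fin k → Fin m, ∑ p' : Fin k → Fin m, Kq n p z * Kq n p' z := by
    intro z
    unfold wk
    rw [sq, Finset.sum_mul_sum]
  simp_rw [e]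
  have cc : ∀ p p' : Fin k → Fin m, Continuous fun z : (Idk k m → UnitAddCircle) × UnitAddCircle =>
      Kq n p z * Kq n p' z := fun p p' => (Kq_cont n p).mul (Kq_cont n p')
  rw [integral_finsetSum _ fun p _ => integP (f := fun z => ∑ p', Kq n p z * Kq n p' z)
    (continuous_finsetSum _ fun p' _ => cc p p')]
  calc ∑ p : Fin k → Fin m, ∫ z, ∑ p' : Fin k → Fin m, Kq n p z * Kq n p' z ∂(PP (Idk k m))
      = ∑ p : Fin k → Fin m, ∑ p' : Fin k → Fin m, ∫ z, Kq n p z * Kq n p' z
          ∂(PP (Idk k m)) := by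
        refine Finset.sum_congr rfl fun p _ => ?_
        rw [integral_finsetSum _ fun p' _ => integP (cc p p')]
    _ ≤ ∑ p : Fin k → Fin m, ∑ p' : Fin k → Fin m, ((if p = p' then kap n else 0) +
        kap n ^ 2) := Finset.sum_le_sum fun p _ => Finset.sum_le_sum fun p' _ => Kq_sq n p p'
    _ = ∑ p : Fin k → Fin m, (kap n + (m : ℝ) ^ k * kap n ^ 2) := by
        refine Finset.sum_congr rfl fun p _ => ?_
        rw [Finset.sum_add_distrib, Finset.sum_ite_eq, if_pos (Finset.mem_univ _),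
          Finset.sum_const, Finset.card_univ, Fintype.card_fun, Fintype.card_fin,
          Fintype.card_fin, nsmul_eq_mul]
        push_cast
        ring
    _ = (m : ℝ) ^ k * kap n + ((m : ℝ) ^ k * kap n) ^ 2 := by
        rw [Finset.sum_const, Finset.card_univ, Fintype.card_fun, Fintype.card_fin,
          Fintype.card_fin, nsmul_eq_mul]
        push_cast
        ring

/-- the loss -/
theorem lossk {ε η q : ℝ} {J n : ℕ} (hn : 0 < n) (p : Fin k → Fin m)
    (hq : ∀ s : UnitAddCircle, ‖s‖ ≤ 1 / (8 * n) →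
      ∫ x : Idk k m → UnitAddCircle, (1 - GG ε η J n x (s - sg p x)) ∂(mu (Idk k m)) ≤ q) :
    ∫ z, Kq n p z * (1 - GG ε η J n z.1 z.2) ∂(PP (Idk k m)) ≤ kap n * q := by
  have hK := KK_cont n
  have hKp := Kq_cont n p
  have hsg := sg_cont p
  have hG : Continuous fun z : (Idk k m → UnitAddCircle) × UnitAddCircle =>
    GG ε η J n z.1 z.2 := GG_cont' ε η J n continuous_fst continuous_snd
  have hG2 : Continuous fun z : (Idk k m → UnitAddCircle) × UnitAddCircle =>
    GG ε η J n z.1 (z.2 - sg p z.1) :=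
    GG_cont' ε η J n continuous_fst (by fun_prop)
  have hF0 : Continuous fun z : (Idk k m → UnitAddCircle) × UnitAddCircle =>
    Kq n p z * (1 - GG ε η J n z.1 z.2) := hKp.mul (continuous_const.sub hG)
  rw [xu hF0]
  have h1 : ∀ x : Idk k m → UnitAddCircle, ∫ u, Kq n p (x, u) * (1 - GG ε η J n x u) ∂hc =
      ∫ s, KK n s * (1 - GG ε η J n x (s - sg p x)) ∂hc := by
    intro x
    rw [← shiftc _ (-(sg p x))]
    congr 1
    ext s
    unfold Kq
    simp only
    have e1 : s + -(sg p x) + sg p x = s := by abel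
    have e2 : s + -(sg p x) = s - sg p x := by abel
    rw [e1, e2]
  simp_rw [h1]
  have hF : Continuous fun z : (Idk k m → UnitAddCircle) × UnitAddCircle => KK n z.2 *
      (1 - GG ε η J n z.1 (z.2 - sg p z.1)) := by fun_prop
  have h2 := xu hF
  simp only at h2
  rw [← h2, ux hF]
  simp only
  have h3 : ∀ s : UnitAddCircle, ∫ x : Idk k m → UnitAddCircle, KK n s *
      (1 - GG ε η J n x (s - sg p x)) ∂(mu (Idk k m)) ≤ KK n s * q := by
    intro s
    rw [integral_const_mul]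
    by_cases hs : ‖s‖ ≤ 1 / (8 * n)
    · exact mul_le_mul_of_nonneg_left (hq s hs) (KK_nonneg n s)
    · rw [KK_zero hn hs, zero_mul, zero_mul]
  have h4 : Integrable (fun s : UnitAddCircle => ∫ x : Idk k m → UnitAddCircle, KK n s *
      (1 - GG ε η J n x (s - sg p x)) ∂(mu (Idk k m))) hc :=
    (integP hF).integral_prod_right
  refine (integral_mono h4 (integc (by fun_prop)) h3).trans (le_of_eq ?_)
  rw [integral_mul_const]
  rfl

/-- **lower bound for the average of `G`** -/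
theorem GGk_int {ε η q : ℝ} {J n : ℕ} (hn : 0 < n) (hη : 0 < η)
    (hq : ∀ (p : Fin k → Fin m) (s : UnitAddCircle), ‖s‖ ≤ 1 / (8 * n) →
      ∫ x : Idk k m → UnitAddCircle, (1 - GG ε η J n x (s - sg p x)) ∂(mu (Idk k m)) ≤ q) :
    2 / 3 * ((m : ℝ) ^ k * kap n * (1 - q)) - 1 / 9 * ((m : ℝ) ^ k * kap n +
      ((m : ℝ) ^ k * kap n) ^ 2) ≤
      ∫ z : (Idk k m → UnitAddCircle) × UnitAddCircle, GG ε η J n z.1 z.2 ∂(PP (Idk k m)) := by
  have hG : Continuous fun z : (Idk k m → UnitAddCircle) × UnitAddCircle =>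
    GG ε η J n z.1 z.2 := GG_cont' ε η J n continuous_fst continuous_snd
  have hw := wk_cont (k := k) (m := m) n
  have h1 : ∀ z : (Idk k m → UnitAddCircle) × UnitAddCircle,
      2 / 3 * (wk n z - wk n z * (1 - GG ε η J n z.1 z.2)) - 1 / 9 * wk n z ^ 2 ≤
        GG ε η J n z.1 z.2 := by
    intro z
    have a1 := GG_le ε η J n z.1 z.2
    have a2 := GG_nonneg (ε := ε) hη J n z.1 z.2
    have a3 : 0 ≤ GG ε η J n z.1 z.2 * (1 - wk n z / 3) ^ 2 := by positivity
    have a4 : 0 ≤ (1 - GG ε η J n z.1 z.2) * wk n z ^ 2 :=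
      mul_nonneg (by linarith) (sq_nonneg _)
    nlinarith
  have h2 : ∫ z, wk n z * (1 - GG ε η J n z.1 z.2) ∂(PP (Idk k m)) ≤
      (m : ℝ) ^ k * kap n * q := by
    have e : ∀ z : (Idk k m → UnitAddCircle) × UnitAddCircle, wk n z * (1 - GG ε η J n z.1 z.2) =
        ∑ p : Fin k → Fin m, Kq n p z * (1 - GG ε η J n z.1 z.2) := by
      intro z
      unfold wk
      rw [Finset.sum_mul]
    simp_rw [e]
    have cc : ∀ p : Fin k → Fin m, Continuous fun z : (Idk k m → UnitAddCircle) × UnitAddCircle =>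
      Kq n p z * (1 - GG ε η J n z.1 z.2) := fun p => (Kq_cont n p).mul (continuous_const.sub hG)
    rw [integral_finsetSum _ fun p _ => integP (cc p)]
    refine (Finset.sum_le_sum fun p _ => lossk hn p (hq p)).trans (le_of_eq ?_)
    rw [Finset.sum_const, Finset.card_univ, Fintype.card_fun, Fintype.card_fin, Fintype.card_fin,
      nsmul_eq_mul]
    push_cast
    ring
  have h3 := wk_sq (k := k) (m := m) n
  have h4 := wk_int (k := k) (m := m) n
  have c1 : Continuous fun z : (Idk k m → UnitAddCircle) × UnitAddCircle =>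
      wk n z * (1 - GG ε η J n z.1 z.2) := by fun_prop
  calc 2 / 3 * ((m : ℝ) ^ k * kap n * (1 - q)) - 1 / 9 * ((m : ℝ) ^ k * kap n +
      ((m : ℝ) ^ k * kap n) ^ 2)
      ≤ 2 / 3 * (∫ z, wk n z ∂(PP (Idk k m)) -
          ∫ z, wk n z * (1 - GG ε η J n z.1 z.2) ∂(PP (Idk k m))) -
        1 / 9 * ∫ z, wk n z ^ 2 ∂(PP (Idk k m)) := by
        rw [h4]
        nlinarith
    _ = ∫ z, (2 / 3 * (wk n z - wk n z * (1 - GG ε η J n z.1 z.2)) - 1 / 9 * wk n z ^ 2)
          ∂(PP (Idk k m)) := by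
        rw [integral_sub (integP (by fun_prop)) (integP (by fun_prop)), integral_const_mul,
          integral_const_mul, integral_sub (integP hw) (integP c1)]
    _ ≤ _ := integral_mono (integP (by fun_prop)) (integP hG) h1

/-- the list of the indices of a peak -/
def Ip (p : Fin k → Fin m) : List (Idk k m) := List.ofFn fun r => (r, p r)

theorem Ip_len (p : Fin k → Fin m) : (Ip p).length = k := by simp [Ip]

theorem Ip_nodup (p : Fin k → Fin m) : (Ip p).Nodup := by
  unfold Ip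
  rw [List.nodup_ofFn]
  intro r r' h
  exact (Prod.ext_iff.1 h).1

theorem ch_Ip (p : Fin k → Fin m) (x : Idk k m → UnitAddCircle) :
    ch (Ip p) x = fourier (-1) (sg p x) := by
  unfold ch Ip sg
  rw [List.map_ofFn, List.prod_ofFn]
  have h : ∀ s : Finset (Fin k), ∏ r ∈ s, fourier (-1) (x (r, p r)) =
      (fourier (-1) (∑ r ∈ s, x (r, p r)) : ℂ) := by
    intro s
    induction s using Finset.induction_on with
    | empty => simp
    | insert a s ha ih =>
      rw [Finset.prod_insert ha, Finset.sum_insert ha, ih]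
      rw [fourier_apply, fourier_apply, fourier_apply, smul_add, AddCircle.toCircle_add,
        Circle.coe_mul]
  exact h Finset.univ

end

end

end Pool.Agent.Q203.TR
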