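import Mathlib
import Pool.Agent.Q203.TR.B4

/-!
# Choice of the parameters
-/

set_option autoImplicit false

open MeasureTheory Filter Topology Complex

namespace Pool.Agent.Q203.TR

noncomputable section

theorem DD_pt' (n : ℕ) {δ : ℝ} (hδ : 0 < δ) (hδ1 : δ < 1) {t : ℝ} (h0 : 0 < t) (h1 : t < 1) :
    ‖DD n (t : UnitAddCircle)‖ ≤ (n : ℝ) ^ δ * (t ^ (δ - 1) + (1 - t) ^ (δ - 1)) := by
  set D := ‖DD n (t : UnitAddCircle)‖ with hD
  have hD0 : 0 ≤ D := norm_nonneg _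
  have h2 : D ≤ n := DD_le n _
  have h3 : D * min t (1 - t) ≤ 1 := by
    have h4 := DD_mul n (t : UnitAddCircle)
    have h5 := one_sub_ge h0.le h1.le
    have h6 : D * (2 * min t (1 - t)) ≤ 2 :=
      (mul_le_mul_of_nonneg_left h5 hD0).trans h4
    linarith
  have hs : D = D ^ δ * D ^ (1 - δ) := by
    rcases hD0.eq_or_lt with h | h
    · rw [← h, Real.zero_rpow hδ.ne', zero_mul]
    · rw [← Real.rpow_add h, add_sub_cancel, Real.rpow_one]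
  have key : ∀ r : ℝ, 0 < r → D * r ≤ 1 → D ≤ (n : ℝ) ^ δ * r ^ (δ - 1) := by
    intro r hr hr1
    have h7 : D ≤ r⁻¹ := by
      rw [← one_div, le_div_iff₀ hr]
      exact hr1
    have h1δ : 0 ≤ 1 - δ := by linarith
    calc D = D ^ δ * D ^ (1 - δ) := hs
      _ ≤ (n : ℝ) ^ δ * (r⁻¹) ^ (1 - δ) := by gcongr
      _ = _ := by
        rw [Real.inv_rpow hr.le, ← Real.rpow_neg hr.le]
        congr 2
        ring
  have hn0 : 0 ≤ (n : ℝ) ^ δ := by positivity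
  have ht0 : 0 ≤ t ^ (δ - 1) := by positivity
  have ht1 : 0 ≤ (1 - t) ^ (δ - 1) := Real.rpow_nonneg (by linarith) _
  rcases le_total t (1 - t) with h | h
  · rw [min_eq_left h] at h3
    refine (key t h0 h3).trans (mul_le_mul_of_nonneg_left (by linarith) hn0)
  · rw [min_eq_right h] at h3
    refine (key (1 - t) (by linarith) h3).trans (mul_le_mul_of_nonneg_left (by linarith) hn0)

theorem DD_int' (n : ℕ) {δ : ℝ} (hδ : 0 < δ) (hδ1 : δ < 1) :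
    ∫ u, ‖DD n u‖ ∂hc ≤ 2 / δ * (n : ℝ) ^ δ := by
  rw [int_c]
  have i1 : IntervalIntegrable (fun t : ℝ => t ^ (δ - 1)) volume 0 1 :=
    intervalIntegral.intervalIntegrable_rpow' (by linarith)
  have i2 : IntervalIntegrable (fun t : ℝ => (1 - t) ^ (δ - 1)) volume 0 1 := by
    have := i1.comp_sub_left 1
    simpa using this.symm
  have e1 : ∫ t in (0 : ℝ)..1, t ^ (δ - 1) = 1 / δ := by
    rw [integral_rpow (Or.inl (by linarith))]
    rw [sub_add_cancel, Real.one_rpow, Real.zero_rpow hδ.ne', sub_zero]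
  have e2 : ∫ t in (0 : ℝ)..1, (1 - t) ^ (δ - 1) = 1 / δ := by
    rw [intervalIntegral.integral_comp_sub_left (fun t : ℝ => t ^ (δ - 1)) 1]
    simpa using e1
  have hc' := DD_cont n
  have hco : Continuous fun t : ℝ => ‖DD n (t : UnitAddCircle)‖ := by
    have : Continuous fun t : ℝ => (t : UnitAddCircle) := AddCircle.continuous_mk' 1
    fun_prop
  calc ∫ t in (0 : ℝ)..1, ‖DD n (t : UnitAddCircle)‖
      ≤ ∫ t in (0 : ℝ)..1, (n : ℝ) ^ δ * (t ^ (δ - 1) + (1 - t) ^ (δ - 1)) := by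
        refine intervalIntegral.integral_mono_on_of_le_Ioo zero_le_one
          (hco.intervalIntegrable _ _) ((i1.add i2).const_mul _)
          fun t ht => DD_pt' n hδ hδ1 ht.1 ht.2
    _ = 2 / δ * (n : ℝ) ^ δ := by
        rw [intervalIntegral.integral_const_mul, intervalIntegral.integral_add i1 i2, e1, e2]
        ring

/-- **choice** -/
theorem choicek {k : ℕ} (hk : 1 ≤ k) (hb : phd k 0 ≠ 0) {δ : ℝ} (hδ : 0 < δ) (hδ1 : δ < 1) :
    ∃ (C : ℕ) (c₁ η₀ A B : ℝ), 0 < C ∧ 0 < c₁ ∧ 0 < η₀ ∧ 0 ≤ A ∧ 0 ≤ B ∧ ∀ M : ℕ, 1 ≤ M →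
    ∃ (J : ℕ) (ε : ℝ) (x : Idk k (M ^ 2) → UnitAddCircle),
      c₁ ≤ ∫ u, GG ε (η₀ * (M : ℝ) ^ k) J (C * M ^ (2 * k)) x u ∂hc ∧
      ∫ u, ‖QQ ε J (C * M ^ (2 * k)) x u‖ ^ 2 ∂hc ≤ B * (M : ℝ) ^ (2 * k) ∧
      ∫ u, ‖QQ ε J (C * M ^ (2 * k)) x u‖ ∂hc ≤ A * (M : ℝ) ^ (1 + 2 * k * δ) := by
  obtain ⟨Ck, hCk, hest⟩ := cfl_est k
  have hkR : (1 : ℝ) ≤ k := by exact_mod_cast hk
  have hk0 : (0 : ℝ) < k := by linarith
  obtain ⟨β, hβ⟩ : ∃ β : ℝ, β = ‖phd k 0‖ := ⟨_, rfl⟩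
  have hβ0 : 0 < β := by rw [hβ]; exact norm_pos_iff.2 hb
  obtain ⟨γ, hγ⟩ : ∃ γ : ℝ, γ = β / (14 * k * 2 ^ k * Ck + β) := ⟨_, rfl⟩
  have hγ0 : 0 < γ := by rw [hγ]; positivity
  have hγ1 : γ ≤ 1 := by
    rw [hγ, div_le_one (by positivity)]
    have : 0 ≤ 14 * (k : ℝ) * 2 ^ k * Ck := by positivity
    linarith
  have hγ2 : 14 * k * 2 ^ k * Ck * γ ≤ β := by
    have h1 : (14 * k * 2 ^ k * Ck + β) * γ = β := by
      rw [hγ]
      field_simp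
    have h2 : 0 ≤ β * γ := by positivity
    nlinarith
  obtain ⟨C, hC⟩ : ∃ C : ℕ, C = ⌈320 / (β ^ 2 * γ ^ (2 * k))⌉₊ + 1 := ⟨_, rfl⟩
  have hC0 : 0 < C := by rw [hC]; omega
  have hCR : (1 : ℝ) ≤ C := by exact_mod_cast hC0
  have hCp : (0 : ℝ) < C := by linarith
  have hC1 : 320 ≤ β ^ 2 * γ ^ (2 * k) * C := by
    have h1 := Nat.le_ceil (320 / (β ^ 2 * γ ^ (2 * k)))
    have h2 : 320 / (β ^ 2 * γ ^ (2 * k)) ≤ C := by
      rw [hC]
      push_cast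
      linarith
    rw [div_le_iff₀ (by positivity)] at h2
    linarith
  refine ⟨C, 1 / (128 * C), β * γ ^ k * C / 8, 3 * k * (2 / δ) * (C : ℝ) ^ δ,
    128 * (C : ℝ) ^ 2 * (4 * k + 2), hC0, by positivity, by positivity, by positivity,
    by positivity, fun M hM => ?_⟩
  have hMR : (1 : ℝ) ≤ M := by exact_mod_cast hM
  have hM0 : (0 : ℝ) < M := by linarith
  obtain ⟨ε, hε⟩ : ∃ ε : ℝ, ε = γ / M := ⟨_, rfl⟩
  obtain ⟨η, hη⟩ : ∃ η : ℝ, η = β * γ ^ k * C / 8 * (M : ℝ) ^ k := ⟨_, rfl⟩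
  obtain ⟨n, hn⟩ : ∃ n : ℕ, n = C * M ^ (2 * k) := ⟨_, rfl⟩
  have hnR : (n : ℝ) = C * (M : ℝ) ^ (2 * k) := by
    rw [hn]
    push_cast
    rfl
  have hε0 : 0 < ε := by rw [hε]; positivity
  have hη0 : 0 < η := by rw [hη]; positivity
  have hn0 : 0 < n := by rw [hn]; positivity
  have hnp : (0 : ℝ) < n := by exact_mod_cast hn0
  have hcard : (Fintype.card (Idk k (M ^ 2)) : ℝ) = k * (M : ℝ) ^ 2 := by
    rw [Fintype.card_prod, Fintype.card_fin, Fintype.card_fin]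
    push_cast
    ring
  have hεk : ε ^ k * (M : ℝ) ^ k = γ ^ k := by
    rw [← mul_pow, hε, div_mul_cancel₀ _ hM0.ne']
  -- the coefficients
  have hcoef : ∀ p : Fin k → Fin (M ^ 2), β * ε ^ k / 2 ≤ ‖cfl ε (Ip p)‖ := by
    intro p
    have h1 := hest (Idk k (M ^ 2)) hε0.le (Ip p) (Ip_nodup p) (Ip_len p)
    have h2 := EY1 (ι := Idk k (M ^ 2)) (s := (M : ℝ)) hM0
    rw [hcard] at h2
    have h3 : (4 * (k * (M : ℝ) ^ 2) / M + M) / 2 = (4 * k + 1) / 2 * M := by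
      field_simp
    rw [h3] at h2
    have h4 : ∫ x : Idk k (M ^ 2) → UnitAddCircle, |Y x| ∂(mu (Idk k (M ^ 2))) + 4 * k ≤
        7 * k * M := by nlinarith
    have h5 : (2 * ε) ^ k * (Ck * ε * (∫ x : Idk k (M ^ 2) → UnitAddCircle, |Y x|
        ∂(mu (Idk k (M ^ 2))) + 4 * k)) ≤ β * ε ^ k / 2 := by
      calc (2 * ε) ^ k * (Ck * ε * (∫ x : Idk k (M ^ 2) → UnitAddCircle, |Y x|
            ∂(mu (Idk k (M ^ 2))) + 4 * k))
          ≤ (2 * ε) ^ k * (Ck * ε * (7 * k * M)) := by gcongr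
        _ = ε ^ k * (14 * k * 2 ^ k * Ck * (ε * M)) / 2 := by ring
        _ = ε ^ k * (14 * k * 2 ^ k * Ck * γ) / 2 := by
            rw [hε, div_mul_cancel₀ _ hM0.ne']
        _ ≤ ε ^ k * β / 2 := by gcongr
        _ = β * ε ^ k / 2 := by ring
    have h7 : ‖(ε : ℂ) ^ k * phd k 0‖ = ε ^ k * β := by
      rw [norm_mul, norm_pow, Complex.norm_real, Real.norm_of_nonneg hε0.le, hβ]
    have h8 : ‖(ε : ℂ) ^ k * phd k 0‖ ≤ ‖cfl ε (Ip p)‖ +
        ‖cfl ε (Ip p) - (ε : ℂ) ^ k * phd k 0‖ := by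
      have := norm_sub_le (cfl ε (Ip p)) (cfl ε (Ip p) - (ε : ℂ) ^ k * phd k 0)
      rwa [sub_sub_cancel] at this
    rw [h7] at h8
    linarith
  have hcf : ∀ p : Fin k → Fin (M ^ 2), 4 * η ≤
      ‖∫ x, ff ε x * fourier (-1) (sg p x) ∂(mu (Idk k (M ^ 2)))‖ * n := by
    intro p
    have h := hcoef p
    have e : cfl ε (Ip p) = ∫ x, ff ε x * fourier (-1) (sg p x) ∂(mu (Idk k (M ^ 2))) := by
      unfold cfl
      simp_rw [ch_Ip]
    rw [e] at h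
    have h2 := mul_le_mul_of_nonneg_right h hnp.le
    refine le_trans (le_of_eq ?_) h2
    rw [hη, hnR, ← hεk]
    ring
  have hev : ∀ᶠ J : ℕ in atTop, (∀ p : Fin k → Fin (M ^ 2), ∀ s : UnitAddCircle,
      ‖s‖ ≤ 1 / (8 * n) → ∫ x : Idk k (M ^ 2) → UnitAddCircle,
        (1 - GG ε η J n x (s - sg p x)) ∂(mu (Idk k (M ^ 2))) ≤ 5 * n / (4 * η ^ 2)) ∧
      ∀ a ∈ Finset.range n, ∫ x : Idk k (M ^ 2) → UnitAddCircle, (Y ((J + a) • x)) ^ 2
        ∂(mu (Idk k (M ^ 2))) ≤ 4 * Fintype.card (Idk k (M ^ 2)) + 1 := by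
    refine Filter.Eventually.and ?_ (Y_ev n)
    rw [Filter.eventually_all]
    intro p
    exact near_peak' ε hη0 hn0 (sg p) (sg_cont p) (sg_smul p) (hcf p)
  obtain ⟨J, hJ1, hJ2⟩ := hev.exists
  have hq : 5 * n / (4 * η ^ 2) ≤ 1 / 4 := by
    rw [div_le_iff₀ (by positivity), hη, hnR]
    have e : 1 / 4 * (4 * (β * γ ^ k * C / 8 * (M : ℝ) ^ k) ^ 2) =
        (β ^ 2 * γ ^ (2 * k) * C) * C * (M : ℝ) ^ (2 * k) / 64 := by ring
    rw [e]
    have h1 := mul_le_mul_of_nonneg_right hC1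
      (by positivity : (0 : ℝ) ≤ C * (M : ℝ) ^ (2 * k))
    linarith
  have hA := GGk_int (k := k) (m := M ^ 2) (q := 1 / 4) hn0 hη0
    (fun p s hs => (hJ1 p s hs).trans hq)
  -- the size of `λ`
  obtain ⟨l, hl⟩ : ∃ l : ℝ, l = ((M ^ 2 : ℕ) : ℝ) ^ k * kap n := ⟨_, rfl⟩
  rw [← hl] at hA
  have hM2k : ((M ^ 2 : ℕ) : ℝ) ^ k = (M : ℝ) ^ (2 * k) := by
    push_cast
    rw [← pow_mul]
  have hl1 : 1 / (16 * C) ≤ l := by
    have h := kap_ge hn0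
    rw [hl, hM2k]
    have h2 := mul_le_mul_of_nonneg_left h (by positivity : (0 : ℝ) ≤ (M : ℝ) ^ (2 * k))
    refine le_trans (le_of_eq ?_) h2
    rw [hnR]
    field_simp
  have hl2 : l ≤ 1 := by
    have h := kap_le hn0
    rw [hl, hM2k]
    have h2 := mul_le_mul_of_nonneg_left h (by positivity : (0 : ℝ) ≤ (M : ℝ) ^ (2 * k))
    refine h2.trans ?_
    rw [hnR, mul_one_div, div_le_one (by positivity)]
    have h3 : 0 < (M : ℝ) ^ (2 * k) := by positivity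
    nlinarith
  have hl0 : 0 < l := lt_of_lt_of_le (by positivity) hl1
  have hA2 : 1 / (64 * C) ≤ ∫ z : (Idk k (M ^ 2) → UnitAddCircle) × UnitAddCircle,
      GG ε η J n z.1 z.2 ∂(PP (Idk k (M ^ 2))) := by
    refine le_trans ?_ hA
    have h1 : (1 : ℝ) / (64 * C) = 1 / (16 * C) / 4 := by field_simp; norm_num
    rw [h1]
    nlinarith
  -- integrals over `x`
  have hG : Continuous fun z : (Idk k (M ^ 2) → UnitAddCircle) × UnitAddCircle =>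
    GG ε η J n z.1 z.2 := GG_cont' ε η J n continuous_fst continuous_snd
  have hQ : Continuous fun z : (Idk k (M ^ 2) → UnitAddCircle) × UnitAddCircle =>
    ‖QQ ε J n z.1 z.2‖ ^ 2 := by
    have := QQ_cont' (ι := Idk k (M ^ 2)) ε J n
      (α := (Idk k (M ^ 2) → UnitAddCircle) × UnitAddCircle) continuous_fst continuous_snd
    fun_prop
  rw [xu hG] at hA2
  have hB := QQ_L2_avg (ε := ε) hJ2
  have hB2 : (n : ℝ) * (1 + ε ^ 2 * (4 * Fintype.card (Idk k (M ^ 2)) + 1)) ≤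
      n * (4 * k + 2) := by
    apply mul_le_mul_of_nonneg_left _ hnp.le
    rw [hcard, hε]
    have h1 : (γ / M) ^ 2 * (4 * (k * (M : ℝ) ^ 2) + 1) ≤ 4 * k + 1 := by
      have h2 : (γ / M) ^ 2 * (4 * (k * (M : ℝ) ^ 2) + 1) =
        γ ^ 2 * (4 * k + 1 / (M : ℝ) ^ 2) := by field_simp
      have h3 : 1 / (M : ℝ) ^ 2 ≤ 1 := by
        rw [div_le_one (by positivity)]
        exact one_le_pow₀ hMR
      have h4 : γ ^ 2 ≤ 1 := pow_le_one₀ hγ0.le hγ1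
      rw [h2]
      calc γ ^ 2 * (4 * k + 1 / (M : ℝ) ^ 2) ≤ 1 * (4 * k + 1) := by gcongr
        _ = 4 * k + 1 := one_mul _
    linarith
  obtain ⟨κ, hκ⟩ : ∃ κ : ℝ, κ = 1 / (128 * C * (4 * k + 2) * n) := ⟨_, rfl⟩
  have hκ0 : 0 < κ := by rw [hκ]; positivity
  have i1 : Integrable (fun x : Idk k (M ^ 2) → UnitAddCircle => ∫ u, GG ε η J n x u ∂hc)
    (mu (Idk k (M ^ 2))) := (integP hG).integral_prod_left
  have i2 : Integrable (fun x : Idk k (M ^ 2) → UnitAddCircle => ∫ u, ‖QQ ε J n x u‖ ^ 2 ∂hc)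
    (mu (Idk k (M ^ 2))) := (integP hQ).integral_prod_left
  obtain ⟨x, hx⟩ := exists_integral_le (i1.sub (i2.const_mul κ))
  have hx' : 1 / (128 * C) ≤ ∫ u, GG ε η J n x u ∂hc - κ * ∫ u, ‖QQ ε J n x u‖ ^ 2 ∂hc := by
    refine le_trans ?_ hx
    have e := integral_sub' i1 (i2.const_mul κ)
    rw [integral_const_mul] at e
    refine le_trans ?_ (le_of_eq e.symm)
    have h3 : κ * ∫ x : Idk k (M ^ 2) → UnitAddCircle, ∫ u, ‖QQ ε J n x u‖ ^ 2 ∂hc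
          ∂(mu (Idk k (M ^ 2))) ≤ κ * (n * (4 * k + 2)) :=
      mul_le_mul_of_nonneg_left (hB.trans hB2) hκ0.le
    have h4 : κ * (n * (4 * k + 2)) = 1 / (128 * C) := by
      rw [hκ]
      field_simp
    have h5 : (1 : ℝ) / (64 * C) = 1 / (128 * C) + 1 / (128 * C) := by
      field_simp
      norm_num
    linarith
  have hG1 : ∫ u, GG ε η J n x u ∂hc ≤ 1 := by
    have h := integral_mono (μ := hc) (integc (GG_cont' (k := fun u => u) ε η J n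
      (continuous_const (y := x)) continuous_id)) (integrable_const (1 : ℝ))
      (fun u => GG_le ε η J n x u)
    simpa using h
  have hQ0 : 0 ≤ ∫ u, ‖QQ ε J n x u‖ ^ 2 ∂hc := integral_nonneg fun u => by positivity
  have hcp : (0 : ℝ) < 1 / (128 * C) := by positivity
  rw [← hη, ← hn]
  refine ⟨J, ε, x, ?_, ?_, ?_⟩
  · have : 0 ≤ κ * ∫ u, ‖QQ ε J n x u‖ ^ 2 ∂hc := mul_nonneg hκ0.le hQ0
    linarith
  · have h6 : κ * ∫ u, ‖QQ ε J n x u‖ ^ 2 ∂hc ≤ 1 := by linarith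
    rw [hκ, div_mul_eq_mul_div, one_mul, div_le_one (by positivity)] at h6
    refine h6.trans (le_of_eq ?_)
    rw [hnR]
    ring
  · refine (QQ_L1 hε0.le J n x).trans ?_
    have h7 : ∫ u, ‖DD n u‖ ∂hc ≤ 2 / δ * (n : ℝ) ^ δ := DD_int' n hδ hδ1
    have h8 : 1 + 2 * (Fintype.card (Idk k (M ^ 2)) : ℝ) * ε ≤ 3 * k * M := by
      rw [hcard, hε]
      have : 2 * (k * (M : ℝ) ^ 2) * (γ / M) = 2 * k * M * γ := by
        field_simp
      rw [this]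
      have h9 : 2 * k * M * γ ≤ 2 * k * M * 1 := by gcongr
      nlinarith
    have h9 : 0 ≤ ∫ u, ‖DD n u‖ ∂hc := integral_nonneg fun u => norm_nonneg _
    calc (1 + 2 * (Fintype.card (Idk k (M ^ 2)) : ℝ) * ε) * ∫ u, ‖DD n u‖ ∂hc
        ≤ (3 * k * M) * (2 / δ * (n : ℝ) ^ δ) :=
          mul_le_mul h8 h7 h9 (by positivity)
      _ = 3 * k * (2 / δ) * (C : ℝ) ^ δ * (M : ℝ) ^ (1 + 2 * k * δ) := by
          rw [hnR, Real.mul_rpow (by positivity) (by positivity), Real.rpow_add hM0,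
            Real.rpow_one, ← Real.rpow_natCast, ← Real.rpow_mul hM0.le]
          push_cast
          ring

end

end Pool.Agent.Q203.TR
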