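import Mathlib
import Pool.Agent.Q203.TR.B5
import Pool.Agent.Q203.TR.A9

/-!
# The exponent of the growth
-/

set_option autoImplicit false

open MeasureTheory Filter Topology Complex

namespace Pool.Agent.Q203.TR

noncomputable section

theorem Lp_nonneg (p : ℝ) (P : Polynomial ℂ) : 0 ≤ Lp p P := by
  unfold Lp
  apply Real.rpow_nonneg
  exact intervalIntegral.integral_nonneg (by positivity) fun t _ => by positivity

/-- **lower bound for the degrees `C M ^ (2 k)`** -/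
theorem low_Mk {p : ℝ} (hp : 0 < p) (hp2 : p < 2) {k : ℕ} (hk : 1 ≤ k) (hb : phd k 0 ≠ 0)
    {δ : ℝ} (hδ : 0 < δ) (hδ1 : δ < 1) : ∃ (C : ℕ) (κ : ℝ), 0 < C ∧ 0 < κ ∧
    ∀ M : ℕ, 1 ≤ M → ∃ P : Polynomial ℂ, P ≠ 0 ∧ P.natDegree ≤ C * M ^ (2 * k) - 1 ∧
      κ * (M : ℝ) ^ (be p * (k - (1 + 2 * k * δ))) * Lp p P ≤ Lp p (S P) := by
  obtain ⟨C, c₁, η₀, A, B, hC, hc₁, hη₀, hA, hB, hch⟩ := choicek hk hb hδ hδ1
  have hkR : (1 : ℝ) ≤ k := by exact_mod_cast hk
  obtain ⟨e, he⟩ : ∃ e : ℝ, e = 1 + 2 * k * δ := ⟨_, rfl⟩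
  obtain ⟨K, hK⟩ : ∃ K : ℝ, K = 1 + A + B := ⟨_, rfl⟩
  have hK0 : 0 < K := by rw [hK]; positivity
  refine ⟨C, (c₁ ^ 2 * η₀ ^ p / K) ^ (1 / p), hC, by positivity, fun M hM => ?_⟩
  have hMR : (1 : ℝ) ≤ M := by exact_mod_cast hM
  have hM0 : (0 : ℝ) < M := by linarith
  obtain ⟨J, ε, x, h1, h2, h3⟩ := hch M hM
  obtain ⟨η, hη⟩ : ∃ η : ℝ, η = η₀ * (M : ℝ) ^ k := ⟨_, rfl⟩
  obtain ⟨n, hn⟩ : ∃ n : ℕ, n = C * M ^ (2 * k) := ⟨_, rfl⟩
  rw [← hη, ← hn] at h1
  rw [← hn] at h2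
  rw [← hn, ← he] at h3
  rw [← he]
  have hη0 : 0 < η := by rw [hη]; positivity
  have hn0 : 0 < n := by rw [hn]; positivity
  have hQ : Continuous fun u => QQ ε J n x u :=
    QQ_cont' ε J n continuous_const continuous_id
  have hL := low_GG hp hp2 hη0 hc₁.le J n x h1
  have hU : ∫ u, ‖QQ ε J n x u‖ ^ p ∂hc ≤ K * (M : ℝ) ^ (k * p - p * (be p * (k - e))) := by
    rcases le_total p 1 with hp1 | hp1
    · have eb : be p = 1 := by
        unfold be
        apply min_eq_left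
        rw [le_sub_iff_add_le, le_div_iff₀ hp]
        linarith
      have h := up1 (f := fun u => ‖QQ ε J n x u‖) hQ.norm (fun u => norm_nonneg _) hp hp1
        (by positivity : (0 : ℝ) < (M : ℝ) ^ e) h3
      refine h.trans ?_
      rw [eb]
      have e2 : ((M : ℝ) ^ e) ^ p = (M : ℝ) ^ (k * p - p * (1 * (k - e))) := by
        rw [← Real.rpow_mul hM0.le]
        congr 1
        ring
      rw [e2]
      apply mul_le_mul_of_nonneg_right _ (by positivity)
      rw [hK]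
      linarith
    · have eb : be p = 2 / p - 1 := by
        unfold be
        apply min_eq_right
        rw [sub_le_iff_le_add, div_le_iff₀ hp]
        linarith
      have h := up2 (f := fun u => ‖QQ ε J n x u‖) hQ.norm (fun u => norm_nonneg _) hp1 hp2
        (by positivity : (0 : ℝ) < (M : ℝ) ^ (2 * k - e)) h3 h2
      refine h.trans ?_
      obtain ⟨w, hw⟩ : ∃ w : ℝ, w = (2 * k - e) * (p - 1) + e := ⟨_, rfl⟩
      have e1 : k * p - p * (be p * (k - e)) = w := by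
        rw [eb, hw]
        field_simp
        ring
      have e2 : ((M : ℝ) ^ (2 * k - e)) ^ (p - 1) * (A * (M : ℝ) ^ e) = A * (M : ℝ) ^ w := by
        rw [← Real.rpow_mul hM0.le, mul_comm, mul_assoc, ← Real.rpow_add hM0]
        congr 2
        rw [hw]
        ring
      have e3 : ((M : ℝ) ^ (2 * k - e)) ^ (p - 2) * (B * (M : ℝ) ^ (2 * k)) =
          B * (M : ℝ) ^ w := by
        rw [← Real.rpow_mul hM0.le, mul_comm, mul_assoc, ← Real.rpow_natCast (M : ℝ) (2 * k),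
          ← Real.rpow_add hM0]
        congr 2
        rw [hw]
        push_cast
        ring
      rw [e2, e3, e1, ← add_mul]
      apply mul_le_mul_of_nonneg_right _ (by positivity)
      rw [hK]
      linarith
  refine ⟨pol n (cc ε J x), ?_, ?_, ?_⟩
  · intro h0
    have h := pol_coeff n (cc ε J x) 0
    rw [h0, if_pos hn0, Polynomial.coeff_zero] at h
    have h5 := one_le_cc ε J x 0
    rw [← h, norm_zero] at h5
    linarith
  · rw [← hn]
    exact pol_natDegree n _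
  · rw [Lp_QQ, Lp_FF]
    have hI : 0 ≤ ∫ u, ‖QQ ε J n x u‖ ^ p ∂hc := integral_nonneg fun u => by positivity
    obtain ⟨κ, hκ⟩ : ∃ κ : ℝ, κ = c₁ ^ 2 * η₀ ^ p / K := ⟨_, rfl⟩
    have hκ0 : 0 < κ := by rw [hκ]; positivity
    obtain ⟨v, hv⟩ : ∃ v : ℝ, v = be p * (k - e) := ⟨_, rfl⟩
    rw [← hv] at hU
    have hfin : κ * (M : ℝ) ^ (p * v) * ∫ u, ‖QQ ε J n x u‖ ^ p ∂hc ≤
        ∫ u, ‖FF ε J n x u‖ ^ p ∂hc := by
      refine le_trans ?_ hL
      have h5 := mul_le_mul_of_nonneg_left hU (by positivity : 0 ≤ κ * (M : ℝ) ^ (p * v))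
      refine h5.trans (le_of_eq ?_)
      have e4 : κ * (M : ℝ) ^ (p * v) * (K * (M : ℝ) ^ (k * p - p * v)) =
          (κ * K) * ((M : ℝ) ^ (p * v) * (M : ℝ) ^ (k * p - p * v)) := by ring
      rw [e4, ← Real.rpow_add hM0, hκ, div_mul_cancel₀ _ hK0.ne', add_sub_cancel, hη,
        Real.mul_rpow hη₀.le (by positivity), ← Real.rpow_natCast (M : ℝ) k,
        ← Real.rpow_mul hM0.le]
      ring
    rw [← hκ, ← hv]
    have e6 : κ ^ (1 / p) * (M : ℝ) ^ v = (κ * (M : ℝ) ^ (p * v)) ^ (1 / p) := by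
      rw [Real.mul_rpow hκ0.le (by positivity), ← Real.rpow_mul hM0.le]
      congr 2
      field_simp
    rw [e6, ← Real.mul_rpow (by positivity) (by positivity)]
    refine Real.rpow_le_rpow (by positivity) ?_ (by positivity)
    have h7 := mul_le_mul_of_nonneg_left hfin (by positivity : 0 ≤ 2 * Real.pi)
    refine le_trans (le_of_eq ?_) h7
    ring

/-- **lower bound for all degrees** -/
theorem lowerk {p : ℝ} (hp : 0 < p) (hp2 : p < 2) {θ : ℝ} (hθ : 0 < θ) : ∃ c : ℝ, 0 < c ∧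
    ∀ n : ℕ, 1 ≤ n → ∃ P : Polynomial ℂ, P ≠ 0 ∧ P.natDegree ≤ n ∧
      c * (n : ℝ) ^ (be p / 2 - θ) * Lp p P ≤ Lp p (S P) := by
  -- the choice of `k` and `δ`
  obtain ⟨j, hj⟩ := exists_nat_gt (1 / (2 * θ))
  obtain ⟨k, hkd⟩ : ∃ k : ℕ, k = 2 * (j + 1) := ⟨_, rfl⟩
  have hk : 1 ≤ k := by omega
  have hk2 : (2 : ℝ) ≤ k := by exact_mod_cast (by omega : 2 ≤ k)
  have hk0 : (0 : ℝ) < k := by linarith
  have hkθ : 1 ≤ θ * k := by
    rw [div_lt_iff₀ (by positivity)] at hj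
    rw [hkd]
    push_cast
    nlinarith
  have hb : phd k 0 ≠ 0 := by
    rw [hkd]
    exact (phd_even (j + 1)).1
  obtain ⟨δ, hδd⟩ : ∃ δ : ℝ, δ = min (θ / 2) (1 / 4) := ⟨_, rfl⟩
  have hδ : 0 < δ := by rw [hδd]; positivity
  have hδ1 : δ ≤ 1 / 4 := by rw [hδd]; exact min_le_right _ _
  have hδ2 : δ ≤ θ / 2 := by rw [hδd]; exact min_le_left _ _
  have hbe := be_pos hp hp2
  have hbe1 := be_le p
  obtain ⟨C, κ, hC, hκ, hM⟩ := low_Mk hp hp2 hk hb hδ (by linarith)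
  have hCR : (1 : ℝ) ≤ C := by exact_mod_cast hC
  have hCp : (0 : ℝ) < C := by linarith
  obtain ⟨v, hv⟩ : ∃ v : ℝ, v = be p * (k - (1 + 2 * k * δ)) := ⟨_, rfl⟩
  have hv0 : 0 ≤ v := by
    rw [hv]
    apply mul_nonneg hbe.le
    nlinarith
  obtain ⟨w, hw⟩ : ∃ w : ℝ, w = v / (2 * k) := ⟨_, rfl⟩
  have hw0 : 0 ≤ w := by rw [hw]; positivity
  have hwθ : be p / 2 - θ ≤ w := by
    rw [hw, hv, le_div_iff₀ (by positivity)]
    have h1 : be p * (1 + 2 * k * δ) ≤ 2 * k * θ := by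
      have h2 : 1 + 2 * k * δ ≤ 2 * k * θ := by nlinarith
      have h3 : 0 ≤ 1 + 2 * k * δ := by positivity
      nlinarith
    nlinarith
  obtain ⟨E, hE⟩ : ∃ E : ℝ, E = (C * 4 ^ k) ^ w := ⟨_, rfl⟩
  have hE0 : 0 < E := by rw [hE]; positivity
  have hE1 : (C : ℝ) ^ w ≤ E := by
    rw [hE]
    refine Real.rpow_le_rpow (by positivity) ?_ hw0
    have : (1 : ℝ) ≤ 4 ^ k := one_le_pow₀ (by norm_num)
    nlinarith
  refine ⟨min (κ / E) (1 / E), by positivity, fun n hn => ?_⟩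
  have hnR : (1 : ℝ) ≤ n := by exact_mod_cast hn
  have hnw : (n : ℝ) ^ (be p / 2 - θ) ≤ (n : ℝ) ^ w := Real.rpow_le_rpow_of_exponent_le hnR hwθ
  by_cases hnC : n < C
  · refine ⟨1, one_ne_zero, by simp, ?_⟩
    rw [S_one]
    have h1 : (n : ℝ) ^ (be p / 2 - θ) ≤ E := by
      refine hnw.trans (le_trans ?_ hE1)
      exact Real.rpow_le_rpow (by positivity) (by exact_mod_cast hnC.le) hw0
    have h2 : min (κ / E) (1 / E) * (n : ℝ) ^ (be p / 2 - θ) ≤ 1 := by
      calc min (κ / E) (1 / E) * (n : ℝ) ^ (be p / 2 - θ) ≤ (1 / E) * E :=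
            mul_le_mul (min_le_right _ _) h1 (by positivity) (by positivity)
        _ = 1 := by field_simp
    exact mul_le_of_le_one_left (Lp_nonneg p 1) h2
  · push Not at hnC
    obtain ⟨M, hMd⟩ : ∃ M : ℕ, M = Nat.findGreatest (fun M => C * M ^ (2 * k) ≤ n) n := ⟨_, rfl⟩
    have hM1 : 1 ≤ M := by
      rw [hMd]
      exact Nat.le_findGreatest hn (by simpa using hnC)
    have hMn : C * M ^ (2 * k) ≤ n := by
      have := Nat.findGreatest_spec (P := fun M => C * M ^ (2 * k) ≤ n) (m := 1) hn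
        (by simpa using hnC)
      rw [← hMd] at this
      exact this
    have hMlt : n < C * (M + 1) ^ (2 * k) := by
      by_contra hcon
      push Not at hcon
      have h1 : M + 1 ≤ n := by
        have h2 : (M + 1) ≤ (M + 1) ^ (2 * k) := Nat.le_self_pow (by omega) _
        have h3 : (M + 1) ^ (2 * k) ≤ C * (M + 1) ^ (2 * k) := Nat.le_mul_of_pos_left _ hC
        omega
      have := Nat.le_findGreatest (P := fun M => C * M ^ (2 * k) ≤ n) h1 hcon
      rw [← hMd] at this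
      omega
    obtain ⟨P, hP0, hPd, hP⟩ := hM M hM1
    rw [← hv] at hP
    refine ⟨P, hP0, by omega, ?_⟩
    refine le_trans ?_ hP
    apply mul_le_mul_of_nonneg_right _ (Lp_nonneg p P)
    have hMR : (1 : ℝ) ≤ M := by exact_mod_cast hM1
    have hM0 : (0 : ℝ) < M := by linarith
    have h5 : (n : ℝ) ≤ C * 4 ^ k * (M : ℝ) ^ (2 * k) := by
      have h6 : (n : ℝ) ≤ C * ((M : ℝ) + 1) ^ (2 * k) := by exact_mod_cast hMlt.le
      have h7 : ((M : ℝ) + 1) ^ (2 * k) ≤ (2 * (M : ℝ)) ^ (2 * k) :=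
        pow_le_pow_left₀ (by positivity) (by linarith) _
      have h8 : (2 * (M : ℝ)) ^ (2 * k) = 4 ^ k * (M : ℝ) ^ (2 * k) := by
        rw [mul_pow, pow_mul]
        norm_num
      rw [h8] at h7
      have := mul_le_mul_of_nonneg_left h7 hCp.le
      linarith
    have h9 : (n : ℝ) ^ (be p / 2 - θ) ≤ E * (M : ℝ) ^ v := by
      calc (n : ℝ) ^ (be p / 2 - θ) ≤ (n : ℝ) ^ w := hnw
        _ ≤ (C * 4 ^ k * (M : ℝ) ^ (2 * k)) ^ w := Real.rpow_le_rpow (by positivity) h5 hw0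
        _ = E * (M : ℝ) ^ v := by
            rw [Real.mul_rpow (by positivity) (by positivity), ← hE,
              ← Real.rpow_natCast (M : ℝ) (2 * k), ← Real.rpow_mul hM0.le]
            congr 2
            rw [hw]
            push_cast
            field_simp
    calc min (κ / E) (1 / E) * (n : ℝ) ^ (be p / 2 - θ)
        ≤ κ / E * (E * (M : ℝ) ^ v) :=
          mul_le_mul (min_le_left _ _) h9 (by positivity) (by positivity)
      _ = κ * (M : ℝ) ^ v := by field_simp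

theorem be_half {p : ℝ} : be p / 2 = min (1 / 2) (1 / p - 1 / 2) := by
  unfold be
  rw [← min_div_div_right (by norm_num : (0 : ℝ) ≤ 2)]
  congr 1
  ring

end

end Pool.Agent.Q203.TR
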